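import Pool.Agent.Lib.MP_fb3619_al.QQ.Base

/-!
# MP_fb3619_al, board QQ, row SI (helper96): `S` is infinite (paper 12)
-/

set_option autoImplicit false

universe u

namespace Pool.Agent.FourGp.FF.Qt

open Pool.Agent.FourGp.H47 (Odd' inv_of_sq conj_inv_pow mul_inv_self odd_conj comm_of_inv
  mul_inv_self' comm_pow comm_inv conj_comm comm_conj)
open Pool.Agent.FourGp.H99 (LF)
open Pool.Agent.FourGp.FF.Abo
open Pool.Agent.FourGp.FF.Bs (Min0 MinC EeS)
open Pool.Agent.FourGp.FF.Fr (fx_swap)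

variable {G : Type u} [Group G] {K : Subgroup G} {a b c : G}

/-- Finitely generated subgroups of locally finite subgroups are finite. -/
theorem si_fin {D : Subgroup G} (hD : LF D) {T : Set G} (hT : T.Finite) (hTD : T ⊆ D) :
    Finite (Subgroup.closure T) := by
  classical
  have h1 : LF (Subgroup.closure T) := LF_mono ((Subgroup.closure_le D).2 hTD) hD
  have h2 : (Subgroup.closure T).FG := ⟨hT.toFinset, by rw [Set.Finite.coe_toFinset]⟩
  have hfin : Finite (⊤ : Subgroup (Subgroup.closure T)) := by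
    refine h1 ⊤ ?_
    rw [← Group.fg_def, Group.fg_iff_subgroup_fg]
    exact h2
  exact Finite.of_equiv _ (Subgroup.topEquiv (G := Subgroup.closure T)).toEquiv

theorem si_lf (h : Fr K a b c) (hF : (Fx K a b : Set G).Finite) : LF (Cz K b) := by
  have hDa : ∀ u ∈ Cz K b, a * u * a ∈ Cz K b := fun u hu => h.cz_inv h.aa h.cab hu
  refine (shu G K a b c h (Cz K b) a cz_le h.aa hDa ?_).2.2
  refine hF.subset ?_
  rintro w ⟨hw, hwa⟩
  exact mem_Fx.2 ⟨(mem_Cz.1 hw).1, hwa, (mem_Cz.1 hw).2⟩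

/-- Elements which commute with the generators commute with the closure. -/
theorem si_cen {S : Set G} {q : G} (h : ∀ u ∈ S, q * u = u * q) {y : G}
    (hy : y ∈ Subgroup.closure S) : q * y = y * q := by
  have h1 : y ∈ Subgroup.centralizer {q} := by
    refine (Subgroup.closure_le _).2 ?_ hy
    intro u hu
    exact Subgroup.mem_centralizer_singleton_iff.2 (h u hu).symm
  exact (Subgroup.mem_centralizer_singleton_iff.1 h1).symm

/-- Conjugates of `s ∈ X ∩ D_b⁻` under the group generated by `D_b⁻`. -/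
theorem si_conj {X : Subgroup G} (hX : XD K b a X) {s : G} (hs : s ∈ X) (hsm : Mi K b a s)
    {y : G} (hy : y ∈ Subgroup.closure {u | Mi K b a u}) :
    ∃ q ∈ X, q ∈ Fx K b a ∧ y⁻¹ * s * y = s * q := by
  refine Subgroup.closure_induction
    (p := fun y _ => ∃ q ∈ X, q ∈ Fx K b a ∧ y⁻¹ * s * y = s * q) ?_ ?_ ?_ ?_ hy
  · intro w hw
    have hw' : Mi K b a w := hw
    obtain ⟨e, he, heF, h1⟩ := hX.com w s hw' hsm hs
    have h2 : e * w = w * e := hX.qi e he heF w hw'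
    refine ⟨e⁻¹, X.inv_mem he, (Fx K b a).inv_mem heF, ?_⟩
    -- `s⁻¹ w s = e w`
    have h3 : w⁻¹ * s⁻¹ * w = e * s⁻¹ := by
      calc w⁻¹ * s⁻¹ * w = w⁻¹ * (s⁻¹ * w * s) * s⁻¹ := by group
        _ = w⁻¹ * (e * w) * s⁻¹ := by rw [h1]
        _ = w⁻¹ * (w * e) * s⁻¹ := by rw [h2]
        _ = e * s⁻¹ := by group
    calc w⁻¹ * s * w = (w⁻¹ * s⁻¹ * w)⁻¹ := by group
      _ = (e * s⁻¹)⁻¹ := by rw [h3]
      _ = s * e⁻¹ := by group
  · exact ⟨1, X.one_mem, (Fx K b a).one_mem, by group⟩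
  · rintro x y hx hy ⟨q, hq, hqF, h1⟩ ⟨r, hr, hrF, h2⟩
    have h3 : q * y = y * q := si_cen (fun u hu => hX.qi q hq hqF u hu) hy
    refine ⟨r * q, X.mul_mem hr hq, (Fx K b a).mul_mem hrF hqF, ?_⟩
    calc (x * y)⁻¹ * s * (x * y) = y⁻¹ * (x⁻¹ * s * x) * y := by group
      _ = y⁻¹ * s * (q * y) := by rw [h1]; group
      _ = y⁻¹ * s * (y * q) := by rw [h3]
      _ = (y⁻¹ * s * y) * q := by group
      _ = s * (r * q) := by rw [h2]; group
  · rintro y hy ⟨q, hq, hqF, h1⟩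
    have h3 : q⁻¹ * y = y * q⁻¹ := si_cen
      (fun u hu => hX.qi q⁻¹ (X.inv_mem hq) ((Fx K b a).inv_mem hqF) u hu) hy
    refine ⟨q⁻¹, X.inv_mem hq, (Fx K b a).inv_mem hqF, ?_⟩
    calc y⁻¹⁻¹ * s * y⁻¹ = y * (s * q) * q⁻¹ * y⁻¹ := by group
      _ = y * (y⁻¹ * s * y) * (q⁻¹ * y⁻¹) := by rw [h1]; group
      _ = s * y * (q⁻¹ * y⁻¹) := by group
      _ = s * (y * q⁻¹) * y⁻¹ := by group
      _ = s * (q⁻¹ * y) * y⁻¹ := by rw [h3]
      _ = s * q⁻¹ := by group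

/-- SI. -/
theorem si (h1 : SaS.{u}) (h2 : IsgS.{u}) : SiS.{u} := by
  intro G _ K a b c Q B X hX e he hne hfin
  classical
  have m := B.mc
  have h := m.fr
  have hF : (Fx K a b : Set G).Finite := m.fin
  have hFb : (Fx K b a : Set G).Finite := by rw [← fx_swap]; exact hF
  have heF : e ∈ Fx K b a := by rw [← fx_swap]; exact B.ho.le he
  set A : Set G := {s | ∃ u ∈ Is K b a X e, s = u⁻¹ * (e⁻¹ * u * e)} with hA
  set C : Set G := {q | q ∈ X ∧ q ∈ Fx K b a} with hC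
  have hAX : ∀ s ∈ A, s ∈ X ∧ Mi K b a s := by
    rintro s ⟨u, hu, rfl⟩
    have h3 := h1 G K a b c Q B X hX (u⁻¹ * (e⁻¹ * u * e))
      (Subgroup.subset_closure ⟨u, e, he, hu, rfl⟩)
    exact ⟨h3.1, h3.2.1⟩
  have hCf : C.Finite := hFb.subset fun q hq => hq.2
  have hXD : X ≤ Cz K b := hX.toXS.le
  have hT : Finite (Subgroup.closure (A ∪ C)) := by
    refine si_fin (si_lf h hF) (hfin.union hCf) ?_
    rintro s (hs | hs)
    · exact hXD (hAX s hs).1
    · exact hXD hs.1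
  set T := Subgroup.closure (A ∪ C) with hTdef
  -- `T` is normalised by the group generated by `D_b⁻`
  have hTn : ∀ y ∈ Subgroup.closure {u | Mi K b a u}, ∀ t ∈ T, y⁻¹ * t * y ∈ T := by
    intro y hy t ht
    refine Subgroup.closure_induction (p := fun t _ => y⁻¹ * t * y ∈ T) ?_ ?_ ?_ ?_ ht
    · rintro s (hs | hs)
      · obtain ⟨q, hq, hqF, h3⟩ := si_conj hX (hAX s hs).1 (hAX s hs).2 hy
        rw [h3]
        exact T.mul_mem (Subgroup.subset_closure (Or.inl hs))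
          (Subgroup.subset_closure (Or.inr ⟨hq, hqF⟩))
      · have h3 : s * y = y * s := si_cen (fun u hu => hX.qi s hs.1 hs.2 u hu) hy
        have h4 : y⁻¹ * s * y = s := by rw [mul_assoc, h3]; group
        rw [h4]
        exact Subgroup.subset_closure (Or.inr hs)
    · have h4 : y⁻¹ * 1 * y = 1 := by group
      rw [h4]
      exact T.one_mem
    · intro x x' _ _ hx hx'
      have h4 : y⁻¹ * (x * x') * y = (y⁻¹ * x * y) * (y⁻¹ * x' * y) := by group
      rw [h4]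
      exact T.mul_mem hx hx'
    · intro x _ hx
      have h4 : y⁻¹ * x⁻¹ * y = (y⁻¹ * x * y)⁻¹ := by group
      rw [h4]
      exact T.inv_mem hx
  -- the commutators with `e`
  set L := Subgroup.closure (Is K b a X e) with hL
  have hLX : L ≤ X := (Subgroup.closure_le X).2 fun u hu => hu.1
  have hcom : ∀ y ∈ L, y⁻¹ * (e⁻¹ * y * e) ∈ T := by
    intro y hy
    refine Subgroup.closure_induction (p := fun y _ => y⁻¹ * (e⁻¹ * y * e) ∈ T) ?_ ?_ ?_ ?_ hy
    · intro u hu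
      exact Subgroup.subset_closure (Or.inl ⟨u, hu, rfl⟩)
    · have h4 : (1 : G)⁻¹ * (e⁻¹ * 1 * e) = 1 := by group
      rw [h4]
      exact T.one_mem
    · intro x y hx hy hx' hy'
      have h4 : (x * y)⁻¹ * (e⁻¹ * (x * y) * e) =
          (y⁻¹ * (x⁻¹ * (e⁻¹ * x * e)) * y) * (y⁻¹ * (e⁻¹ * y * e)) := by group
      rw [h4]
      exact T.mul_mem (hTn y (hX.gen (hLX hy)) _ hx') hy'
    · intro x hx hx'
      have h4 : x⁻¹⁻¹ * (e⁻¹ * x⁻¹ * e) =
          (x⁻¹⁻¹ * (x⁻¹ * (e⁻¹ * x * e)) * x⁻¹)⁻¹ := by group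
      rw [h4]
      exact T.inv_mem (hTn x⁻¹ ((Subgroup.closure _).inv_mem (hX.gen (hLX hx))) _ hx')
  -- the conjugates of `e`
  have hLi : L.relIndex (Cz K b) ≠ 0 := h2 G K b a c h.swap hFb X hX e heF
  obtain ⟨R, -, hR⟩ := cover_of_relIndex hLi
  have hfi : fi (Cz K b) e := by
    apply fi_of_finite
    have hTf : (T : Set G).Finite := Set.toFinite _
    refine ((R.finite_toSet.prod hTf).image fun p => p.1⁻¹ * (e * p.2⁻¹) * p.1).subset ?_
    rintro x ⟨g, hg, rfl⟩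
    obtain ⟨r, hr, h3⟩ := hR g hg
    refine ⟨(r, (g * r⁻¹)⁻¹ * (e⁻¹ * (g * r⁻¹) * e)), ⟨hr, hcom _ h3⟩, ?_⟩
    simp only
    group
  exact hne (rrb m (B.ho.le he) (fun u hu => B.ho.cen e he u hu) hfi)

/-- SB. -/
theorem sb (h1 : XdxS.{u}) (h2 : SaS.{u}) (h3 : QdS.{u}) (h4 : SiS.{u}) : SbS.{u} := by
  intro G _ K a b c Q B hfin
  classical
  have m := B.mc
  have h := m.fr
  have hF : (Fx K a b : Set G).Finite := m.fin
  have hFb : (Fx K b a : Set G).Finite := by rw [← fx_swap]; exact hF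
  obtain ⟨X, hX⟩ := h1 G K b a c h.swap hFb
  obtain ⟨e, he, hne⟩ : ∃ e ∈ Q, e ≠ 1 := by
    by_contra hno
    push Not at hno
    exact B.ho.ne ((Subgroup.eq_bot_iff_forall Q).2 hno)
  set S := Subgroup.closure (Sg K b a Q X) with hS
  have hSinf : (S : Set G).Infinite := by
    refine (h4 G K a b c Q B X hX e he hne).mono ?_
    rintro s ⟨u, hu, rfl⟩
    exact Subgroup.subset_closure ⟨u, e, he, hu, rfl⟩
  have hQf : (Q : Set G).Finite := hF.subset fun q hq => B.ho.le hq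
  have : Finite Q := hQf.to_subtype
  refine hSinf ?_
  refine Set.Finite.of_finite_fibers (fun t => fun q : Q => t⁻¹ * (q.1⁻¹ * t * q.1)) ?_ ?_
  · refine (Set.Finite.pi' (fun q : Q => h3 G K a b c Q B X hX q.1 q.2)).subset ?_
    rintro f ⟨t, ht, rfl⟩ q
    exact ⟨t, ht, rfl⟩
  · rintro f ⟨t, ht, rfl⟩
    refine (hfin.image fun u => u * t).subset ?_
    rintro t' ⟨ht', hf⟩
    refine ⟨t' * t⁻¹, ⟨?_, ?_⟩, by group⟩
    · exact (h2 G K a b c Q B X hX _ (S.mul_mem ht' (S.inv_mem ht))).2.1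
    · intro q hq
      have h5 : t'⁻¹ * (q⁻¹ * t' * q) = t⁻¹ * (q⁻¹ * t * q) := congrFun hf ⟨q, hq⟩
      have h6 : t'⁻¹ * q⁻¹ * t' = t⁻¹ * q⁻¹ * t := by
        calc t'⁻¹ * q⁻¹ * t' = (t'⁻¹ * (q⁻¹ * t' * q)) * q⁻¹ := by group
          _ = (t⁻¹ * (q⁻¹ * t * q)) * q⁻¹ := by rw [h5]
          _ = t⁻¹ * q⁻¹ * t := by group
      have h7 : q⁻¹ * (t' * t⁻¹) = (t' * t⁻¹) * q⁻¹ := by
        calc q⁻¹ * (t' * t⁻¹) = t' * (t'⁻¹ * q⁻¹ * t') * t⁻¹ := by group
          _ = t' * (t⁻¹ * q⁻¹ * t) * t⁻¹ := by rw [h6]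
          _ = (t' * t⁻¹) * q⁻¹ := by group
      calc q * (t' * t⁻¹) = q * ((t' * t⁻¹) * q⁻¹) * q := by group
        _ = q * (q⁻¹ * (t' * t⁻¹)) * q := by rw [h7]
        _ = (t' * t⁻¹) * q := by group

end Pool.Agent.FourGp.FF.Qt
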