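import Pool.Agent.Lib.MP_fb3619_al.QQ.Iface

/-!
# MP_fb3619_al, board QQ: small facts
-/

set_option autoImplicit false

universe u

namespace Pool.Agent.FourGp.FF.Qt

open Pool.Agent.FourGp.H47 (Odd' inv_of_sq conj_inv_pow mul_inv_self odd_conj comm_of_inv
  mul_inv_self' comm_pow comm_inv conj_comm comm_conj)
open Pool.Agent.FourGp.H99 (LF)
open Pool.Agent.FourGp.FF.Abo
open Pool.Agent.FourGp.FF.Bs (Min0 MinC EeS)
open Pool.Agent.FourGp.FF.Fr (fx_swap)

variable {G : Type u} [Group G] {K : Subgroup G} {a b c : G}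

/-- Elements of `C_K(a)` inverted by `b` are inverted by `c`. -/
theorem mi_c (h : Fr K a b c) {u : G} (hu : Mi K a b u) : Mi K a c u :=
  ⟨hu.1, by
    calc c * u * c = (a * b) * u * (b * a) := by rw [h.ab, h.ba]
      _ = a * (b * u * b) * a := by group
      _ = a * u⁻¹ * a := by rw [hu.2]
      _ = a * (u⁻¹ * a) := by group
      _ = a * (a * u⁻¹) := by
        have c1 : Commute u a := (mem_Cz.1 hu.1).2
        rw [c1.inv_left.eq]
      _ = u⁻¹ := by rw [← mul_assoc, h.aa, one_mul]⟩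

theorem mi_iff (h : Fr K a b c) {u : G} : Mi K a b u ↔ Mi K a c u :=
  ⟨mi_c h, mi_c h.swap'⟩

theorem vinv_rot (h : Fr K a b c) {X : Subgroup G} : VInv b c X ↔ VInv a b X := by
  constructor
  · intro hX
    exact (hX.rot h.rot).rot h.rot.rot
  · intro hX
    exact hX.rot h

theorem vinv_swap {X : Subgroup G} : VInv b a X ↔ VInv a b X := ⟨VInv.swap, VInv.swap⟩

theorem mc_rot (m : MinC K a b c) : MinC K b c a := by
  have h := m.fr
  exact
    { fr := h.rot
      fin := by rw [h.fx_rot]; exact m.fin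
      nlf := m.nlf
      fg := m.fg
      nolf := m.nolf.rot h
      min := by
        intro Q _ K' a' b' c' h' hF hc
        rw [h.fx_rot] at hc
        exact m.min Q K' a' b' c' h' hF hc
      sim := fun N hN hV hn => m.sim N hN ((vinv_rot h).1 hV) hn
      ind := fun L hL hV hi => m.ind L hL ((vinv_rot h).1 hV) hi }

theorem mc_swap (m : MinC K a b c) : MinC K b a c := by
  have h := m.fr
  exact
    { fr := h.swap
      fin := by rw [fx_swap]; exact m.fin
      nlf := m.nlf
      fg := m.fg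
      nolf := m.nolf.swap
      min := by
        intro Q _ K' a' b' c' h' hF hc
        rw [fx_swap (a := b) (b := a)] at hc
        exact m.min Q K' a' b' c' h' hF hc
      sim := fun N hN hV hn => m.sim N hN hV.swap hn
      ind := fun L hL hV hi => m.ind L hL hV.swap hi }

theorem mc_swap' (m : MinC K a b c) : MinC K a c b := mc_rot (mc_swap m)

theorem fx_ac (h : Fr K a b c) : Fx K a c = Fx K a b := Cnt.Fx_eq h K

theorem ho_c {Q : Subgroup G} (h : Fr K a b c) (hQ : Ho K a b Q) : Ho K a c Q := by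
  refine ⟨?_, ?_, ?_, hQ.ne⟩
  · rw [fx_ac h]; exact hQ.le
  · exact fun e he u hu => hQ.cen e he u ((mi_iff h).2 hu)
  · rw [fx_ac h]; exact hQ.nor

theorem yy_c (h : Fr K a b c) {Q : Subgroup G} : YY K a b Q = YY K a c Q := by
  ext u
  unfold YY
  simp only [Set.mem_ofPred_eq, mi_iff h]

theorem nn_comm {Q : Subgroup G} : NN K a c b Q = NN K a b c Q := by
  unfold NN
  rw [Set.union_comm]

theorem Bad.fr {Q : Subgroup G} (B : Bad K a b c Q) : Fr K a b c := B.mc.fr

theorem Bad.mk' {Q : Subgroup G} (B : Bad K a b c Q) (hi : (YY K b a Q).Infinite) :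
    Bad K a c b Q := ⟨mc_swap' B.mc, ho_c B.fr B.ho, hi⟩

/-- An element `≠ 1` of `F` which centralises `D_a⁻` does not centralise a subgroup of finite index
of `D_b`. -/
theorem rrb (m : MinC K a b c) {f : G} (hf : f ∈ Fx K a b) (h1 : ∀ u, Mi K a b u → f * u = u * f)
    (h2 : fi (Cz K b) f) : f = 1 := by
  have h := m.fr
  refine rr h.rot (m.nolf.rot h) (by rw [h.fx_rot]; exact m.fin) (f := f)
    ⟨by rw [h.fx_rot]; exact hf, ?_⟩ h2
  intro u hu hui
  exact h1 u ⟨hu, hui⟩

/-- Elements of `F` which centralise `D_b⁻` centralise a subgroup of finite index of `D_b`. -/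
theorem pfi (m : MinC K a b c) {f : G} (hf : f ∈ Fx K a b)
    (h2 : ∀ u, Mi K b a u → f * u = u * f) : fi (Cz K b) f := by
  have h := m.fr
  refine pf_fi h.swap' (f := f) (by rw [fx_ac h]; exact m.fin) ⟨by rw [fx_ac h]; exact hf, ?_⟩
  intro u hu hui
  exact h2 u ⟨hu, hui⟩

/-- An element `≠ 1` of `F` cannot centralise `D_a⁻` and `D_b⁻`. -/
theorem pab (m : MinC K a b c) {f : G} (hf : f ∈ Fx K a b) (h1 : ∀ u, Mi K a b u → f * u = u * f)
    (h2 : ∀ u, Mi K b a u → f * u = u * f) : f = 1 := rrb m hf h1 (pfi m hf h2)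

/-- Homology groups with centre `a` commute with the elements of `F` centralising `D_b⁻`. -/
theorem ho_comm (m : MinC K a b c) {Q : Subgroup G} (hQ : Ho K a b Q) {e q : G} (he : e ∈ Q)
    (hq : q ∈ Fx K a b) (h2 : ∀ u, Mi K b a u → q * u = u * q) : e * q = q * e := by
  have heF := hQ.le he
  -- `[e, q] ∈ Q`, and it centralises `D_b⁻`
  have hqc : ∀ u, Mi K b a u → (e⁻¹ * q * e) * u = u * (e⁻¹ * q * e) := by
    intro u hu
    have hu' : Mi K b a (e * u * e⁻¹) := by
      have e1 : e⁻¹ ∈ Fx K b a := by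
        rw [fx_swap]
        exact (Fx K a b).inv_mem heF
      obtain ⟨hK, hb, ha⟩ := mem_Fx.1 e1
      obtain ⟨hu1, hu2⟩ := hu
      obtain ⟨huK, hub⟩ := mem_Cz.1 hu1
      have c1 : Commute e⁻¹ b := hb
      have c2 : Commute e⁻¹ a := ha
      have c3 : Commute u b := hub
      refine ⟨mem_Cz.2 ⟨K.mul_mem (K.mul_mem (by simpa using K.inv_mem hK) huK) hK, ?_⟩, ?_⟩
      · have c4 : Commute e b := by simpa using c1.inv_left
        exact ((c4.mul_left c3).mul_left c1).eq
      · have c5 : Commute e a := by simpa using c2.inv_left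
        calc a * (e * u * e⁻¹) * a = (a * e) * u * (e⁻¹ * a) := by group
          _ = (e * a) * u * (a * e⁻¹) := by rw [c5.eq, c2.eq]
          _ = e * (a * u * a) * e⁻¹ := by group
          _ = (e * u * e⁻¹)⁻¹ := by rw [hu2]; group
    have h3 := h2 _ hu'
    calc (e⁻¹ * q * e) * u = e⁻¹ * (q * (e * u * e⁻¹)) * e := by group
      _ = e⁻¹ * ((e * u * e⁻¹) * q) * e := by rw [h3]
      _ = u * (e⁻¹ * q * e) := by group
  have hz : e⁻¹ * (q⁻¹ * e * q) = 1 := by
    refine pab m (f := e⁻¹ * (q⁻¹ * e * q)) ?_ ?_ ?_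
    · exact hQ.le (Q.mul_mem (Q.inv_mem he) (hQ.nor q hq e he))
    · exact hQ.cen _ (Q.mul_mem (Q.inv_mem he) (hQ.nor q hq e he))
    · intro u hu
      have c1 : Commute (e⁻¹ * q * e) u := hqc u hu
      have c2 : Commute q u := h2 u hu
      have c3 := c1.inv_left.mul_left c2
      have e1 : (e⁻¹ * q * e)⁻¹ * q = e⁻¹ * (q⁻¹ * e * q) := by group
      rw [e1] at c3
      exact c3
  calc e * q = q * (q⁻¹ * e * q) := by group
    _ = q * (e * (e⁻¹ * (q⁻¹ * e * q))) := by group
    _ = q * e := by rw [hz, mul_one]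

end Pool.Agent.FourGp.FF.Qt
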