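import Mathlib

/-!
# MP_fb3619_al, board QQ, row BSZ: the theorem of Baer and Suzuki (proof of Alperin and Lyons)
(helper46)
-/

set_option autoImplicit false

universe u

namespace Pool.Agent.FourGp.FF.Qt

open Subgroup

/-- In a finite `p`-group with an invariant set `Σ`: a proper subset `D` of `Σ` with
`<D> ∩ Σ = D` is normalised by an element of `Σ` outside `D`. -/
theorem bsz_lem {R : Type u} [Group R] [Finite R] {p : ℕ} [Fact p.Prime] (hR : IsPGroup p R)
    (S : Set R) (hS : ∀ g, ∀ s ∈ S, g * s * g⁻¹ ∈ S) (D : Set R) (hDS : D ⊆ S) (hne : ¬ S ⊆ D)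
    (hE : ∀ s ∈ S, s ∈ closure D → s ∈ D) :
    ∃ x ∈ S, x ∉ D ∧ ∀ d, d ∈ D ↔ x * d * x⁻¹ ∈ D := by
  have hnil : Group.IsNilpotent R := hR.isNilpotent
  set F : Set (Subgroup R) := {W | D ⊆ W ∧ ∀ s ∈ S, s ∈ W → s ∈ D} with hF
  have hcD : closure D ∈ F := ⟨subset_closure, hE⟩
  obtain ⟨W, -, hW⟩ := (Set.toFinite F).exists_le_maximal hcD
  have hWF : W ∈ F := hW.prop
  have hWtop : W < ⊤ := by
    rw [lt_top_iff_ne_top]
    rintro rfl
    exact hne fun s hs => hWF.2 s hs (mem_top s)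
  have hlt : W < normalizer (W : Set R) := Group.normalizerCondition_of_isNilpotent W hWtop
  have hnF : normalizer (W : Set R) ∉ F := fun h => (hW.not_prop_of_gt hlt) h
  have h1 : ∃ x ∈ S, x ∈ normalizer (W : Set R) ∧ x ∉ D := by
    by_contra hcon
    push Not at hcon
    exact hnF ⟨fun d hd => hlt.le (hWF.1 hd), hcon⟩
  obtain ⟨x, hxS, hxN, hxD⟩ := h1
  refine ⟨x, hxS, hxD, fun d => ⟨fun hd => ?_, fun hd => ?_⟩⟩
  · exact hWF.2 _ (hS x d (hDS hd)) ((mem_normalizer_iff.1 hxN d).1 (hWF.1 hd))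
  · have h2 : d ∈ S := by
      have h3 := hS x⁻¹ _ (hDS hd)
      have e : x⁻¹ * (x * d * x⁻¹) * x⁻¹⁻¹ = d := by group
      rwa [e] at h3
    exact hWF.2 _ h2 ((mem_normalizer_iff.1 hxN d).2 (hWF.1 hd))

/-- The lemma inside a `p`-subgroup of `H`. -/
theorem bsz_lem2 {H : Type u} [Group H] [Finite H] {p : ℕ} [Fact p.Prime] (T : Set H)
    (hT : ∀ g, ∀ t ∈ T, g * t * g⁻¹ ∈ T) (M D : Set H) (hM : M ⊆ T)
    (hp : IsPGroup p (closure M)) (hcl : ∀ t ∈ T, t ∈ closure M → t ∈ M)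
    (hDM : D ⊆ M) (hne : ¬ M ⊆ D) (hE : ∀ t ∈ T, t ∈ closure D → t ∈ D) :
    ∃ x ∈ M, x ∉ D ∧ x ∈ normalizer (closure D : Set H) := by
  set R : Subgroup H := closure M with hR
  have hMR : M ⊆ R := subset_closure
  have hmap : (closure (((↑) : R → H) ⁻¹' D)).map R.subtype = closure D := by
    rw [MonoidHom.map_closure]
    congr 1
    ext d
    constructor
    · rintro ⟨r, hr, rfl⟩
      exact hr
    · intro hd
      exact ⟨⟨d, hMR (hDM hd)⟩, hd, rfl⟩
  obtain ⟨x, hxS, hxD, hx⟩ := bsz_lem (R := R) (p := p) hp (((↑) : R → H) ⁻¹' M) (by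
      intro g s hs
      have h1 : ((g * s * g⁻¹ : R) : H) ∈ T := by
        push_cast
        exact hT _ _ (hM hs)
      exact hcl _ h1 (g * s * g⁻¹).2) (((↑) : R → H) ⁻¹' D) (fun d hd => hDM hd)
      (fun h => hne fun m hm => h (show (⟨m, hMR hm⟩ : R) ∈ ((↑) : R → H) ⁻¹' M from hm))
      (by
        intro s hs hsD
        refine hE _ (hM hs) ?_
        rw [← hmap]
        exact ⟨s, hsD, rfl⟩)
  refine ⟨x, hxS, hxD, ?_⟩
  have hx' : ∀ d, d ∈ D ↔ (x : H) * d * (x : H)⁻¹ ∈ D := by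
    intro d
    constructor
    · intro hd
      exact (hx ⟨d, hMR (hDM hd)⟩).1 hd
    · intro hd
      have h1 : d ∈ R := by
        have h2 := hMR (hDM hd)
        have h3 := R.mul_mem (R.mul_mem (R.inv_mem x.2) h2) x.2
        have e : (x : H)⁻¹ * ((x : H) * d * (x : H)⁻¹) * (x : H) = d := by group
        rwa [e] at h3
      exact (hx ⟨d, h1⟩).2 hd
  have key : ∀ y : H, (∀ d ∈ D, y * d * y⁻¹ ∈ D) → ∀ h ∈ closure D, y * h * y⁻¹ ∈ closure D := by
    intro y hy h hh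
    refine closure_induction (p := fun h _ => y * h * y⁻¹ ∈ closure D) ?_ ?_ ?_ ?_ hh
    · intro d hd
      exact subset_closure (hy d hd)
    · rw [mul_one, mul_inv_cancel]
      exact one_mem _
    · intro u v _ _ hu hv
      have e : y * (u * v) * y⁻¹ = (y * u * y⁻¹) * (y * v * y⁻¹) := by group
      rw [e]
      exact mul_mem hu hv
    · intro u _ hu
      have e : y * u⁻¹ * y⁻¹ = (y * u * y⁻¹)⁻¹ := by group
      rw [e]
      exact inv_mem hu
  rw [mem_normalizer_iff]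
  intro h
  refine ⟨key x (fun d hd => (hx' d).1 hd) h, fun hh => ?_⟩
  have h1 := key (x : H)⁻¹ (fun d hd => (hx' _).2 (by
    have e : (x : H) * ((x : H)⁻¹ * d * (x : H)⁻¹⁻¹) * (x : H)⁻¹ = d := by group
    rw [e]; exact hd)) _ hh
  have e : (x : H)⁻¹ * ((x : H) * h * (x : H)⁻¹) * (x : H)⁻¹⁻¹ = h := by group
  rwa [e] at h1

/-- BSZ: a set of elements closed under conjugation, every two of which generate a `p`-group,
generates a `p`-group. -/
theorem bsz {H : Type u} [Group H] [Finite H] {p : ℕ} [Fact p.Prime] (T : Set H)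
    (hT : ∀ g, ∀ t ∈ T, g * t * g⁻¹ ∈ T)
    (h2 : ∀ x ∈ T, ∀ y ∈ T, IsPGroup p (closure {x, y})) : IsPGroup p (closure T) := by
  classical
  set F : Set (Set H) := {M | M ⊆ T ∧ IsPGroup p (closure M)} with hF
  have hext : ∀ M ∈ F, ∃ N, M ⊆ N ∧ Maximal (· ∈ F) N := fun M hM =>
    (Set.toFinite F).exists_le_maximal hM
  by_contra hTF
  have hcl : ∀ M, Maximal (· ∈ F) M → ∀ t ∈ T, t ∈ closure M → t ∈ M := by
    intro M hM t ht htM
    have h1 : T ∩ (closure M : Subgroup H) ∈ F := by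
      refine ⟨Set.inter_subset_left, hM.prop.2.to_le ?_⟩
      rw [closure_le]
      exact Set.inter_subset_right
    exact hM.le_of_ge h1 (fun m hm => ⟨hM.prop.1 hm, subset_closure hm⟩) ⟨ht, htM⟩
  set P : Set (Set H × Set H) :=
    {x | Maximal (· ∈ F) x.1 ∧ Maximal (· ∈ F) x.2 ∧ x.1 ≠ x.2} with hP
  have hPne : P.Nonempty := by
    have h0 : (∅ : Set H) ∈ F := by
      refine ⟨Set.empty_subset _, ?_⟩
      rw [Subgroup.closure_empty]
      exact IsPGroup.of_bot
    obtain ⟨M, -, hM⟩ := hext ∅ h0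
    have hMT : ¬ T ⊆ M := by
      intro h
      have e : M = T := Set.Subset.antisymm hM.prop.1 h
      exact hTF (e ▸ hM.prop.2)
    obtain ⟨t, htT, htM⟩ := Set.not_subset.1 hMT
    have ht : ({t} : Set H) ∈ F := by
      refine ⟨Set.singleton_subset_iff.2 htT, ?_⟩
      have := h2 t htT t htT
      rwa [Set.pair_eq_singleton] at this
    obtain ⟨N, htN, hN⟩ := hext _ ht
    refine ⟨(M, N), hM, hN, fun e => ?_⟩
    have e' : M = N := e
    exact htM (e' ▸ htN rfl)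
  obtain ⟨⟨M, N⟩, ⟨hM, hN, hMN⟩, hmax⟩ :=
    Set.exists_max_image P (fun x => (x.1 ∩ x.2).ncard) (Set.toFinite _) hPne
  simp only at hM hN hMN hmax
  set D : Set H := M ∩ N with hD
  have hE : ∀ t ∈ T, t ∈ closure D → t ∈ D := by
    intro t ht htD
    exact ⟨hcl M hM t ht (closure_mono Set.inter_subset_left htD),
      hcl N hN t ht (closure_mono Set.inter_subset_right htD)⟩
  have hMD : ¬ M ⊆ D := fun h => hMN (hM.eq_of_le hN.prop (h.trans Set.inter_subset_right))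
  have hND : ¬ N ⊆ D := fun h => hMN (hN.eq_of_le hM.prop (h.trans Set.inter_subset_left)).symm
  obtain ⟨x, hxM, hxD, hx⟩ := bsz_lem2 T hT M D hM.prop.1 hM.prop.2 (hcl M hM)
    Set.inter_subset_left hMD hE
  obtain ⟨y, hyN, hyD, hy⟩ := bsz_lem2 T hT N D hN.prop.1 hN.prop.2 (hcl N hN)
    Set.inter_subset_right hND hE
  have hxT := hM.prop.1 hxM
  have hyT := hN.prop.1 hyN
  have hDp : IsPGroup p (closure D) := hM.prop.2.to_le (closure_mono Set.inter_subset_left)
  have hxy : IsPGroup p (closure {x, y}) := h2 x hxT y hyT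
  have hle : closure {x, y} ≤ normalizer (closure D : Set H) := by
    rw [closure_le]
    rintro z (rfl | rfl)
    · exact hx
    · exact hy
  have hsup : IsPGroup p (closure {x, y} ⊔ closure D : Subgroup H) :=
    hxy.to_sup_of_normal_right' hDp hle
  have hDF : D ∪ {x, y} ∈ F := by
    refine ⟨?_, ?_⟩
    · rintro z (hz | rfl | rfl)
      · exact hM.prop.1 hz.1
      · exact hxT
      · exact hyT
    · rw [Subgroup.closure_union, sup_comm]
      exact hsup
  obtain ⟨Q, hQ1, hQ⟩ := hext _ hDF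
  have hlt : ∀ X, Maximal (· ∈ F) X → D ⊆ X → ∀ z ∈ X, z ∈ ({x, y} : Set H) → z ∉ D → X = Q := by
    intro X hX hDX z hz hzxy hzD
    by_contra hne
    have h3 := hmax (X, Q) ⟨hX, hQ, hne⟩
    simp only at h3
    have h4 : D ⊂ X ∩ Q := by
      refine ⟨fun d hd => ⟨hDX hd, hQ1 (Or.inl hd)⟩, fun h => hzD (h ⟨hz, hQ1 (Or.inr hzxy)⟩)⟩
    exact absurd (Set.ncard_lt_ncard h4 (Set.toFinite _)) (not_lt.2 h3)
  have e1 := hlt M hM Set.inter_subset_left x hxM (Or.inl rfl) hxD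
  have e2 := hlt N hN Set.inter_subset_right y hyN (Or.inr rfl) hyD
  exact hMN (e1.trans e2.symm)

end Pool.Agent.FourGp.FF.Qt
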