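import Pool.Agent.Lib.MP_fb3619_al.QQ.Iface

/-!
# MP_fb3619_al, board QQ, row FXP (paper 5): a finite `p`-group on an infinite elementary abelian
`p`-group has infinitely many fixed points
-/

set_option autoImplicit false

universe u

namespace Pool.Agent.FourGp.FF.Qt

/-- One element which acts with order `p` on an infinite invariant subgroup. -/
theorem fxp_step {p : ℕ} (hp : p.Prime) {M : Type*} [AddCommGroup M] (hM : ∀ m : M, p • m = 0)
    {Γ : Type*} [Group Γ] [DistribMulAction Γ M] (g : Γ) (A : AddSubgroup M)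
    (hA : ∀ m ∈ A, g • m ∈ A) (hg : ∀ m ∈ A, g ^ p • m = m) (hinf : (A : Set M).Infinite) :
    {m | m ∈ A ∧ g • m = m}.Infinite := by
  intro hfin
  have hfp : Fact p.Prime := ⟨hp⟩
  obtain ⟨m0, hm0, hm0'⟩ : ∃ m ∈ (A : Set M), m ≠ 0 := by
    by_contra hcon
    push Not at hcon
    exact hinf ((Set.finite_singleton (0 : M)).subset fun m hm => hcon m hm)
  have hch : CharP (AddMonoid.End M) p := by
    refine ⟨fun x => ⟨fun h => ?_, fun h => ?_⟩⟩
    · have h1 : x • m0 = 0 := by
        have h2 := DFunLike.congr_fun h m0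
        rwa [AddMonoid.End.natCast_apply] at h2
      have h2 : addOrderOf m0 = p := addOrderOf_eq_prime (hM m0) hm0'
      rw [← h2]
      exact addOrderOf_dvd_of_nsmul_eq_zero h1
    · obtain ⟨k, rfl⟩ := h
      ext m
      rw [AddMonoid.End.natCast_apply, mul_smul]
      rw [hM]
      rfl
  set γ : AddMonoid.End M := DistribMulAction.toAddMonoidEnd Γ M g with hγ
  have hγm : ∀ m, γ m = g • m := fun m => rfl
  have hγp : ∀ m, (γ ^ p) m = g ^ p • m := by
    intro m
    rw [hγ, ← map_pow]
    rfl
  have hpow : (γ - 1) ^ p = γ ^ p - 1 := by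
    rw [sub_pow_char_of_commute p (Commute.one_right γ), one_pow]
  have hsub : ∀ m, (γ - 1) m = g • m - m := fun m => rfl
  have hfinA : ∀ i : ℕ, {m | m ∈ A ∧ ((γ - 1) ^ i) m = 0}.Finite := by
    intro i
    induction i with
    | zero =>
      refine (Set.finite_singleton (0 : M)).subset ?_
      rintro m ⟨-, h⟩
      exact h
    | succ i ih =>
      refine Set.Finite.of_finite_fibers (fun m => (γ - 1) m) ?_ ?_
      · refine ih.subset ?_
        rintro x ⟨m, ⟨h1, h2⟩, rfl⟩
        refine ⟨?_, ?_⟩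
        · show g • m - m ∈ A
          exact A.sub_mem (hA m h1) h1
        · rw [pow_succ] at h2
          exact h2
      · rintro x ⟨m1, ⟨h1, h2⟩, rfl⟩
        refine (hfin.image fun y => y + m1).subset ?_
        rintro m ⟨⟨h3, -⟩, h5⟩
        refine ⟨m - m1, ⟨A.sub_mem h3 h1, ?_⟩, by simp⟩
        have h6 : g • m - m = g • m1 - m1 := h5
        rw [smul_sub]
        have h7 : g • m = g • m1 - m1 + m := by rw [← h6]; abel
        rw [h7]
        abel
  refine hinf ((hfinA p).subset fun m hm => ⟨hm, ?_⟩)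
  rw [hpow]
  show (γ ^ p) m - m = 0
  rw [hγp, hg m hm, sub_self]

/-- The theorem for a `p`-group. -/
theorem fxp_core {p : ℕ} (hp : p.Prime) {M : Type*} [AddCommGroup M] [Infinite M]
    (hM : ∀ m : M, p • m = 0) {Γ : Type*} [Group Γ] [Finite Γ] [DistribMulAction Γ M]
    (hP : IsPGroup p Γ) : {m : M | ∀ g : Γ, g • m = m}.Infinite := by
  have hfp : Fact p.Prime := ⟨hp⟩
  let Z : Subgroup Γ → Set M := fun S => {m | ∀ g ∈ S, g • m = m}
  have hne : (⊥ : Subgroup Γ) ∈ {S | (Z S).Infinite} := by
    show (Z ⊥).Infinite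
    have h1 : Z ⊥ = Set.univ := by
      ext m
      refine ⟨fun _ => trivial, fun _ g hg => ?_⟩
      rw [Subgroup.mem_bot.1 hg, one_smul]
    rw [h1]
    exact Set.infinite_univ
  obtain ⟨S, hS, hmax⟩ := WellFounded.has_min (wellFounded_gt (α := Subgroup Γ))
    {S | (Z S).Infinite} ⟨⊥, hne⟩
  by_cases hT : S = ⊤
  · have hS' : (Z S).Infinite := hS
    refine hS'.mono (fun m (hm : ∀ g ∈ S, g • m = m) g => hm g ?_)
    rw [hT]
    trivial
  · exfalso
    have hnil : Group.IsNilpotent Γ := hP.isNilpotent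
    have h1 := Group.normalizerCondition_of_isNilpotent (G := Γ) S (lt_top_iff_ne_top.2 hT)
    obtain ⟨-, g, hgN, hgS⟩ := SetLike.lt_iff_le_and_exists.1 h1
    have hex : ∃ k, g ^ p ^ k ∈ S := by
      obtain ⟨k, hk⟩ := hP g
      exact ⟨k, by rw [hk]; exact S.one_mem⟩
    classical
    have hk := Nat.find_spec hex
    set k := Nat.find hex with hkdef
    have hk0 : k ≠ 0 := by
      intro h0
      rw [h0, pow_zero, pow_one] at hk
      exact hgS hk
    have hk1 : g ^ p ^ (k - 1) ∉ S := Nat.find_min hex (by omega)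
    have hk2 : (g ^ p ^ (k - 1)) ^ p ∈ S := by
      rw [← pow_mul, ← pow_succ]
      have h2 : k - 1 + 1 = k := by omega
      rw [h2]
      exact hk
    set x := g ^ p ^ (k - 1) with hx
    have hxN : x ∈ Subgroup.normalizer (S : Set Γ) := Subgroup.pow_mem _ hgN _
    let A : AddSubgroup M :=
      { carrier := Z S
        add_mem' := by
          intro m m' hm hm' s hs
          rw [smul_add, hm s hs, hm' s hs]
        zero_mem' := fun s _ => smul_zero s
        neg_mem' := by
          intro m hm s hs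
          rw [smul_neg, hm s hs] }
    have hAx : ∀ m ∈ A, x • m ∈ A := by
      intro m hm s hs
      have h2 : x⁻¹ * s * x ∈ S := (Subgroup.mem_normalizer_iff''.1 hxN s).1 hs
      have h3 : s • (x • m) = x • ((x⁻¹ * s * x) • m) := by
        rw [smul_smul, smul_smul]
        congr 1
        group
      rw [h3, hm _ h2]
    have h4 := fxp_step hp hM x A hAx (fun m hm => hm _ hk2) hS
    refine hmax (S ⊔ Subgroup.zpowers x) ?_ ?_
    · show (Z (S ⊔ Subgroup.zpowers x)).Infinite
      refine h4.mono ?_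
      rintro m ⟨hm1, hm2⟩
      have h5 : S ⊔ Subgroup.zpowers x ≤ MulAction.stabilizer Γ m := by
        refine sup_le (fun s hs => ?_) ?_
        · rw [MulAction.mem_stabilizer_iff]
          exact hm1 s hs
        · rw [Subgroup.zpowers_le, MulAction.mem_stabilizer_iff]
          exact hm2
      exact fun y hy => MulAction.mem_stabilizer_iff.1 (h5 hy)
    · show S < S ⊔ Subgroup.zpowers x
      refine lt_of_le_of_ne le_sup_left fun h5 => hk1 ?_
      rw [h5]
      exact Subgroup.mem_sup_right (Subgroup.mem_zpowers x)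

/-- FXP (paper 5). -/
theorem fxp : FxpS.{u} := by
  intro p hp M _ H _ _ _ hM hinf hpow
  let Γ := (MulAction.toPermHom H M).range
  have hmem : ∀ γ : Γ, ∃ h : H, ∀ m, γ.1 m = h • m := by
    rintro ⟨γ, h, rfl⟩
    exact ⟨h, fun m => rfl⟩
  let _ : DistribMulAction Γ M :=
    { smul := fun γ m => γ.1 m
      one_smul := fun m => rfl
      mul_smul := fun γ γ' m => rfl
      smul_zero := fun γ => by
        obtain ⟨h, hh⟩ := hmem γ
        show γ.1 0 = 0
        rw [hh, smul_zero]
      smul_add := fun γ m m' => by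
        obtain ⟨h, hh⟩ := hmem γ
        show γ.1 (m + m') = γ.1 m + γ.1 m'
        rw [hh, hh, hh, smul_add] }
  have hfin : Finite Γ :=
    Finite.of_surjective _ (MulAction.toPermHom H M).rangeRestrict_surjective
  have hP : IsPGroup p Γ := by
    intro γ
    obtain ⟨h, rfl⟩ := (MulAction.toPermHom H M).rangeRestrict_surjective γ
    obtain ⟨k, hk⟩ := hpow h
    refine ⟨k, ?_⟩
    rw [← map_pow]
    apply Subtype.ext
    apply Equiv.ext
    intro m
    exact hk m
  have h1 := fxp_core hp hM (Γ := Γ) hP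
  refine h1.mono ?_
  intro m hm h
  exact hm ((MulAction.toPermHom H M).rangeRestrict h)

end Pool.Agent.FourGp.FF.Qt
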