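import Pool.Agent.Lib.MP_fb3619_al.QQ.Base

/-!
# MP_fb3619_al, board QQ, row GC: finitely many conjugates of a subgroup `≠ 1` of `F` generate `K`;
the end of the proof of THEOREM Q
-/

set_option autoImplicit false

universe u

namespace Pool.Agent.FourGp.FF.Qt

open Pool.Agent.FourGp.H47 (Odd' inv_of_sq conj_inv_pow mul_inv_self odd_conj comm_of_inv
  mul_inv_self' comm_pow comm_inv conj_comm comm_conj)
open Pool.Agent.FourGp.H99 (LF)
open Pool.Agent.FourGp.FF.Abo
open Pool.Agent.FourGp.FF.Bs (Min0 MinC EeS)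

variable {G : Type u} [Group G] {K : Subgroup G} {a b c : G}

/-- The conjugates of the elements of `Q` by the elements of `T`. -/
def gcj (T : Set G) (Q : Subgroup G) : Set G := {x | ∃ g ∈ T, ∃ q ∈ Q, x = g⁻¹ * q * g}

theorem gcj_mono {T T' : Set G} (h : T ⊆ T') (Q : Subgroup G) : gcj T Q ⊆ gcj T' Q := by
  rintro x ⟨g, hg, q, hq, e⟩
  exact ⟨g, h hg, q, hq, e⟩

/-- The group generated by the conjugates of `Q` is `K`. -/
theorem gc_top (m : MinC K a b c) {Q : Subgroup G} (hQ : Q ≤ Fx K a b) (hne : Q ≠ ⊥) :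
    Subgroup.closure (gcj (K : Set G) Q) = K := by
  have h := m.fr
  have hle : Subgroup.closure (gcj (K : Set G) Q) ≤ K := by
    rw [Subgroup.closure_le]
    rintro x ⟨g, hg, q, hq, rfl⟩
    exact K.mul_mem (K.mul_mem (K.inv_mem hg) (mem_Fx.1 (hQ hq)).1) hg
  have hV : ∀ y : G, y * y = 1 → (∀ q ∈ Q, q * y = y * q) →
      ∀ u ∈ Subgroup.closure (gcj (K : Set G) Q),
        y * u * y ∈ Subgroup.closure (gcj (K : Set G) Q) := by
    intro y hy hyq u hu
    induction hu using Subgroup.closure_induction with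
    | mem x hx =>
      obtain ⟨g, hg, q, hq, rfl⟩ := hx
      refine Subgroup.subset_closure ⟨y * g * y, h.cjmem hy hg, q, hq, ?_⟩
      rw [cj_mul hy, cj_mul hy, cj_inv hy, cj_fix hy (hyq q hq)]
    | one =>
      have : y * 1 * y = 1 := by rw [mul_one, hy]
      rw [this]
      exact Subgroup.one_mem _
    | mul x z _ _ hx hz =>
      rw [cj_mul hy]
      exact Subgroup.mul_mem _ hx hz
    | inv x _ hx =>
      rw [cj_inv hy]
      exact Subgroup.inv_mem _ hx
  have hN : ∀ k ∈ K, ∀ n ∈ Subgroup.closure (gcj (K : Set G) Q),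
      k⁻¹ * n * k ∈ Subgroup.closure (gcj (K : Set G) Q) := by
    intro k hk n hn
    induction hn using Subgroup.closure_induction with
    | mem x hx =>
      obtain ⟨g, hg, q, hq, rfl⟩ := hx
      exact Subgroup.subset_closure ⟨g * k, K.mul_mem hg hk, q, hq, by group⟩
    | one =>
      have : k⁻¹ * 1 * k = 1 := by group
      rw [this]
      exact Subgroup.one_mem _
    | mul x z _ _ hx hz =>
      have : k⁻¹ * (x * z) * k = (k⁻¹ * x * k) * (k⁻¹ * z * k) := by group
      rw [this]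
      exact Subgroup.mul_mem _ hx hz
    | inv x _ hx =>
      have : k⁻¹ * x⁻¹ * k = (k⁻¹ * x * k)⁻¹ := by group
      rw [this]
      exact Subgroup.inv_mem _ hx
  rcases m.sim _ hle ⟨hV a h.aa fun q hq => (mem_Fx.1 (hQ hq)).2.1,
    hV b h.bb fun q hq => (mem_Fx.1 (hQ hq)).2.2⟩ hN with h0 | h0
  · exfalso
    apply hne
    rw [eq_bot_iff, ← h0]
    intro q hq
    exact Subgroup.subset_closure ⟨1, K.one_mem, q, hq, by group⟩
  · exact h0

/-- An element of the group generated by the conjugates lies in the group generated by the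
conjugates by a finite set. -/
theorem gc_fin {Q : Subgroup G} {x : G} (hx : x ∈ Subgroup.closure (gcj (K : Set G) Q)) :
    ∃ T : Finset G, (∀ g ∈ T, g ∈ K) ∧ x ∈ Subgroup.closure (gcj (T : Set G) Q) := by
  classical
  induction hx using Subgroup.closure_induction with
  | mem x hx =>
    obtain ⟨g, hg, q, hq, rfl⟩ := hx
    refine ⟨{g}, ?_, Subgroup.subset_closure ⟨g, by simp, q, hq, rfl⟩⟩
    intro g' hg'
    rw [Finset.mem_singleton] at hg'
    rw [hg']
    exact hg
  | one => exact ⟨∅, by simp, Subgroup.one_mem _⟩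
  | mul x z _ _ hx hz =>
    obtain ⟨T, h1, h2⟩ := hx
    obtain ⟨T', h3, h4⟩ := hz
    refine ⟨T ∪ T', ?_, Subgroup.mul_mem _ ?_ ?_⟩
    · intro g hg
      rcases Finset.mem_union.1 hg with hg | hg
      · exact h1 g hg
      · exact h3 g hg
    · exact Subgroup.closure_mono (gcj_mono (by simp) Q) h2
    · exact Subgroup.closure_mono (gcj_mono (by simp) Q) h4
  | inv x _ hx =>
    obtain ⟨T, h1, h2⟩ := hx
    exact ⟨T, h1, Subgroup.inv_mem _ h2⟩

/-- Row GC. -/
theorem gc : GcS.{u} := by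
  classical
  intro G _ K a b c m Q hQ hne
  have h1 := gc_top m hQ hne
  obtain ⟨S, hS⟩ := m.fg
  have h2 : ∀ s : G, ∃ T : Finset G, s ∈ S → (∀ g ∈ T, g ∈ K) ∧
      s ∈ Subgroup.closure (gcj (T : Set G) Q) := by
    intro s
    by_cases hs : s ∈ S
    · have : s ∈ Subgroup.closure (gcj (K : Set G) Q) := by
        rw [h1, ← hS]
        exact Subgroup.subset_closure hs
      obtain ⟨T, h3⟩ := gc_fin this
      exact ⟨T, fun _ => h3⟩
    · exact ⟨∅, fun hs' => absurd hs' hs⟩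
  choose T hT using h2
  have hTK : ∀ g ∈ S.biUnion T, g ∈ K := by
    intro g hg
    obtain ⟨s, hs, hg'⟩ := Finset.mem_biUnion.1 hg
    exact (hT s hs).1 g hg'
  refine ⟨S.biUnion T, hTK, le_antisymm ?_ ?_⟩
  · rw [← hS, Subgroup.closure_le]
    intro s hs
    have hs' : s ∈ S := hs
    refine Subgroup.closure_mono (gcj_mono ?_ Q) (hT s hs').2
    intro g hg
    exact Finset.mem_biUnion.2 ⟨s, hs', hg⟩
  · rw [Subgroup.closure_le]
    rintro x ⟨g, hg, q, hq, rfl⟩
    exact K.mul_mem (K.mul_mem (K.inv_mem (hTK g hg)) (mem_Fx.1 (hQ hq)).1) (hTK g hg)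

/-- `D_b` normalises a homology group with centre `b`. -/
theorem ho_norm (h : Fr K a b c) {Q : Subgroup G} (hQ : Ho K b a Q) {d : G} (hd : d ∈ Cz K b) :
    ∀ q ∈ Q, d⁻¹ * q * d ∈ Q := by
  intro q hq
  obtain ⟨w, s, hw, hs, e, hwa, hsi⟩ := h.dec (X := Cz K b) cz_le h.aa
    (fun u hu => h.cz_inv h.aa h.cab hu) hd
  have hwF : w ∈ Fx K b a := mem_Fx.2 ⟨(mem_Cz.1 hw).1, (mem_Cz.1 hw).2, hwa⟩
  have h1 := hQ.nor w hwF q hq
  have h2 := hQ.cen _ h1 s ⟨hs, hsi⟩
  have h3 : d⁻¹ * q * d = w⁻¹ * q * w := by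
    calc d⁻¹ * q * d = s⁻¹ * ((w⁻¹ * q * w) * s) := by rw [e]; group
      _ = s⁻¹ * (s * (w⁻¹ * q * w)) := by rw [h2]
      _ = _ := by group
  rw [h3]
  exact h1

/-- Row LST. -/
theorem lst (h1 : GcS.{u}) (h2 : Gp1S.{u}) : LstS.{u} := by
  classical
  intro G _ K a b c m Q hQ hA
  have h := m.fr
  have hQF : Q ≤ Fx K a b := by
    have := hQ.le
    rwa [Fr.fx_swap] at this
  obtain ⟨T, hTK, hT⟩ := h1 G K a b c m Q hQF hQ.ne
  -- the decomposition
  have hdec : ∀ g : G, ∃ d α γ : G, g ∈ K →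
      d ∈ Cz K b ∧ Mi K a b α ∧ Mi K c b γ ∧ g = d * α * γ := by
    intro g
    by_cases hg : g ∈ K
    · obtain ⟨d, α, γ, hd, hα, hγ, e, i1, i2, i3, i4, i5⟩ :=
        h.swap.fac (X := K) le_rfl (fun u hu => h.cjmem h.bb hu) (fun u hu => h.cjmem h.aa hu) hg
      exact ⟨d, α, γ, fun _ => ⟨mem_Cz.2 ⟨hd, i1⟩, ⟨mem_Cz.2 ⟨hα, i2⟩, i3⟩,
        ⟨mem_Cz.2 ⟨hγ, i4⟩, i5⟩, e⟩⟩
    · exact ⟨1, 1, 1, fun hg' => absurd hg' hg⟩
  choose d α γ hd using hdec
  obtain ⟨L, hLc, hLi, hL⟩ := hA (T.image α) (by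
    intro x hx
    obtain ⟨g, hg, rfl⟩ := Finset.mem_image.1 hx
    exact (hd g (hTK g hg)).2.1)
  have hF' : (Fx K c b : Set G).Finite := by
    have e : Fx K c b = Fx K a b := Fr.fx_swap.trans h.fx_rot
    rw [e]
    exact m.fin
  have hrel : (Subgroup.centralizer ((T.image γ : Finset G) : Set G)).relIndex (Cz K c) ≠ 0 := by
    refine relIndex_centralizer _ ?_
    intro x hx
    obtain ⟨g, hg, rfl⟩ := Finset.mem_image.1 hx
    exact mi_fi shu h.rot.swap hF' (hd g (hTK g hg)).2.2.1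
  set Y := L ⊓ Subgroup.centralizer ((T.image γ : Finset G) : Set G) with hY
  have hYK : Y ≤ K := fun y hy => (mem_Cz.1 (hLc (Subgroup.mem_inf.1 hy).1)).1
  -- `Y` centralises `K`
  have hYc : ∀ y ∈ Y, ∀ k ∈ K, k * y = y * k := by
    intro y hy k hk
    obtain ⟨hy1, hy2⟩ := Subgroup.mem_inf.1 hy
    have hk' : k ∈ Subgroup.closure {x | ∃ g ∈ T, ∃ q ∈ Q, x = g⁻¹ * q * g} := by
      rw [← hT]; exact hk
    have hcen : Subgroup.closure {x | ∃ g ∈ T, ∃ q ∈ Q, x = g⁻¹ * q * g} ≤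
        Subgroup.centralizer {y} := by
      rw [Subgroup.closure_le]
      rintro x ⟨g, hg, q, hq, rfl⟩
      show g⁻¹ * q * g ∈ Subgroup.centralizer {y}
      rw [Subgroup.mem_centralizer_singleton_iff]
      obtain ⟨j1, j2, j3, j4⟩ := hd g (hTK g hg)
      have hq' := ho_norm h hQ j1 q hq
      have hc1 := hL (α g) (Finset.mem_image_of_mem α hg) _ hq' y hy1
      have hc2 : γ g * y = y * γ g := Subgroup.mem_centralizer_iff.1 hy2 _
        (Finset.mem_coe.2 (Finset.mem_image_of_mem γ hg))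
      have c1 : Commute ((α g)⁻¹ * ((d g)⁻¹ * q * d g) * α g) y := hc1
      have c2 : Commute (γ g) y := hc2
      have e : g⁻¹ * q * g = (γ g)⁻¹ * ((α g)⁻¹ * ((d g)⁻¹ * q * d g) * α g) * γ g := by
        generalize d g = D at *
        generalize α g = A at *
        generalize γ g = C at *
        rw [j4]
        group
      rw [e]
      exact (c2.inv_left.mul_left c1).mul_left c2
    exact Subgroup.mem_centralizer_singleton_iff.1 (hcen hk')
  have hYi : Infinite Y := by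
    by_contra hfin
    rw [not_infinite_iff_finite] at hfin
    have hLi' : Nat.card L = 0 := Nat.card_eq_zero_of_infinite
    have i1 : (Subgroup.centralizer ((T.image γ : Finset G) : Set G)).relIndex L ≠ 0 := by
      intro h0
      apply hrel
      exact Subgroup.relIndex_eq_zero_of_le_right hLc h0
    have i2 : Y.relIndex L ≠ 0 := by
      rw [hY, inf_comm, Subgroup.inf_relIndex_right]
      exact i1
    have i3 := Subgroup.relIndex_mul_relIndex ⊥ Y L bot_le inf_le_left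
    rw [Subgroup.relIndex_bot_left, Subgroup.relIndex_bot_left, hLi'] at i3
    rcases Nat.mul_eq_zero.1 i3 with i4 | i4
    · exact (Nat.card_pos (α := Y)).ne' i4
    · exact i2 i4
  refine h2 G K a b c m Y hYK hYi ?_
  intro k hk
  have : Y ≤ Subgroup.centralizer {k} := by
    intro y hy
    rw [Subgroup.mem_centralizer_singleton_iff]
    exact (hYc y hy k hk).symm
  unfold fi
  rw [Subgroup.relIndex_eq_one.2 this]
  exact one_ne_zero

end Pool.Agent.FourGp.FF.Qt
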