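import Pool.Agent.Lib.MP_fb3619_al.QQ.Base
import Pool.Agent.Lib.MP_fb3619_al.FF.Sh

/-!
# MP_fb3619_al, board QQ, row GP (paper 7): the generation principle
-/

set_option autoImplicit false

universe u

namespace Pool.Agent.FourGp.FF.Qt

open Pool.Agent.FourGp.H47 (Odd' inv_of_sq conj_inv_pow mul_inv_self odd_conj comm_of_inv
  mul_inv_self' comm_pow comm_inv conj_comm comm_conj)
open Pool.Agent.FourGp.H99 (LF)
open Pool.Agent.FourGp.FF.Abo
open Pool.Agent.FourGp.FF.Bs (Min0 MinC EeS)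
open Pool.Agent.FourGp.FF.Fr (fx_swap)

/-- GP1: no infinite subgroup of `K` is centralised by every element up to finite index. -/
theorem gp1 : Gp1S.{u} := by
  intro G _ K a b c hM S hSK hSinf hfi
  have h := hM.fr
  obtain ⟨T, hT⟩ := hM.fg
  have hTS : ∀ t ∈ T, fi S t := by
    intro t ht
    refine hfi t ?_
    rw [← hT]
    exact Subgroup.subset_closure ht
  have hrel := relIndex_centralizer T hTS
  -- the centre
  have hZc : ∀ z ∈ K ⊓ Subgroup.centralizer (K : Set G), ∀ k ∈ K, k * z = z * k := by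
    intro z hz k hk
    exact Subgroup.mem_centralizer_iff.1 (Subgroup.mem_inf.1 hz).2 k hk
  have hZV : ∀ y : G, y * y = 1 → ∀ z ∈ K ⊓ Subgroup.centralizer (K : Set G),
      y * z * y ∈ K ⊓ Subgroup.centralizer (K : Set G) := by
    intro y hy z hz
    refine Subgroup.mem_inf.2 ⟨h.cjmem hy (Subgroup.mem_inf.1 hz).1, ?_⟩
    rw [Subgroup.mem_centralizer_iff]
    intro k hk
    have e := hZc z hz (y * k * y) (h.cjmem hy hk)
    calc k * (y * z * y) = (y * y) * k * (y * z * y) := by rw [hy]; group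
      _ = y * ((y * k * y) * z) * y := by group
      _ = y * (z * (y * k * y)) * y := by rw [e]
      _ = y * z * y * k * (y * y) := by group
      _ = y * z * y * k := by rw [hy]; group
  have hZn : ∀ k ∈ K, ∀ n ∈ K ⊓ Subgroup.centralizer (K : Set G),
      k⁻¹ * n * k ∈ K ⊓ Subgroup.centralizer (K : Set G) := by
    intro k hk n hn
    have e : k⁻¹ * n * k = n := by
      rw [mul_assoc, ← hZc n hn k hk]
      group
    rw [e]
    exact hn
  have hZlf : LF (K ⊓ Subgroup.centralizer (K : Set G) : Subgroup G) := by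
    refine Pool.Agent.FourGp.H99.LF_of_fc ?_ ?_
    · intro g
      obtain ⟨n, hn⟩ := h.odd g.1 (Subgroup.mem_inf.1 g.2).1
      exact ⟨2 * n + 1, by omega, Subtype.ext (by simpa using hn)⟩
    · intro g
      have e : Subgroup.centralizer ({g} : Set (K ⊓ Subgroup.centralizer (K : Set G) :
          Subgroup G)) = ⊤ := by
        rw [eq_top_iff]
        intro y _
        rw [Subgroup.mem_centralizer_singleton_iff]
        exact Subtype.ext (hZc g.1 g.2 y.1 (Subgroup.mem_inf.1 y.2).1)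
      rw [e]
      infer_instance
  have hZ0 := hM.nolf _ inf_le_left ⟨hZV a h.aa, hZV b h.bb⟩ hZn hZlf
  -- the contradiction
  have hle : Subgroup.centralizer (T : Set G) ⊓ S ≤ ⊥ := by
    intro g hg
    obtain ⟨h1, h2⟩ := Subgroup.mem_inf.1 hg
    rw [← hZ0]
    refine Subgroup.mem_inf.2 ⟨hSK h2, ?_⟩
    rw [← hT, Subgroup.centralizer_closure]
    exact h1
  have hcard : (⊥ : Subgroup G).relIndex S = 0 := by
    rw [Subgroup.relIndex_bot_left]
    exact Nat.card_eq_zero_of_infinite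
  apply hrel
  rw [← Subgroup.inf_relIndex_right]
  rw [eq_bot_iff.2 hle]
  exact hcard

/-- GP2. -/
theorem gp2 : Gp2S.{u} := by
  intro G _ K a b c hM Y hYK hYV hYinf x hx hfi
  have h := hM.fr
  -- the subgroup `N`
  let N : Subgroup G :=
    { carrier := {n | n ∈ K ∧ ∀ k ∈ K, fi Y (k⁻¹ * n * k)}
      mul_mem' := by
        rintro x y ⟨hx, hx'⟩ ⟨hy, hy'⟩
        refine ⟨K.mul_mem hx hy, ?_⟩
        intro k hk
        have e : k⁻¹ * (x * y) * k = (k⁻¹ * x * k) * (k⁻¹ * y * k) := by group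
        rw [e]
        exact mem_HD.1 ((HD Y).mul_mem (mem_HD.2 (hx' k hk)) (mem_HD.2 (hy' k hk)))
      one_mem' := by
        refine ⟨K.one_mem, ?_⟩
        intro k _
        have e : k⁻¹ * 1 * k = 1 := by group
        rw [e]
        exact mem_HD.1 (HD Y).one_mem
      inv_mem' := by
        rintro x ⟨hx, hx'⟩
        refine ⟨K.inv_mem hx, ?_⟩
        intro k hk
        have e : k⁻¹ * x⁻¹ * k = (k⁻¹ * x * k)⁻¹ := by group
        rw [e]
        exact mem_HD.1 ((HD Y).inv_mem (mem_HD.2 (hx' k hk))) }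
  have memN : ∀ n, n ∈ N ↔ n ∈ K ∧ ∀ k ∈ K, fi Y (k⁻¹ * n * k) := fun n => Iff.rfl
  have hNK : N ≤ K := fun n hn => ((memN n).1 hn).1
  have hNz : ∀ z : G, z * z = 1 → (∀ d ∈ Y, z * d * z ∈ Y) → ∀ n ∈ N, z * n * z ∈ N := by
    intro z hz hzY n hn
    obtain ⟨h1, h2⟩ := (memN n).1 hn
    refine (memN _).2 ⟨h.cjmem hz h1, ?_⟩
    intro k hk
    have h3 := fi_inv hz hzY (h2 (z * k * z) (h.cjmem hz hk))
    have e : z * ((z * k * z)⁻¹ * n * (z * k * z)) * z = k⁻¹ * (z * n * z) * k := by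
      have e1 : (z * k * z)⁻¹ = z * k⁻¹ * z := by
        rw [mul_inv_rev, mul_inv_rev, inv_of_sq hz]; group
      rw [e1]
      calc z * (z * k⁻¹ * z * n * (z * k * z)) * z
          = (z * z) * k⁻¹ * (z * n * z) * k * (z * z) := by group
        _ = k⁻¹ * (z * n * z) * k := by rw [hz]; group
    rw [e] at h3
    exact h3
  have hNn : ∀ k ∈ K, ∀ n ∈ N, k⁻¹ * n * k ∈ N := by
    intro k hk n hn
    obtain ⟨h1, h2⟩ := (memN n).1 hn
    refine (memN _).2 ⟨K.mul_mem (K.mul_mem (K.inv_mem hk) h1) hk, ?_⟩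
    intro l hl
    have e : l⁻¹ * (k⁻¹ * n * k) * l = (k * l)⁻¹ * n * (k * l) := by group
    rw [e]
    exact h2 _ (K.mul_mem hk hl)
  have hxN : x ∈ N := (memN x).2 ⟨hx, hfi⟩
  rcases hM.sim N hNK ⟨hNz a h.aa hYV.1, hNz b h.bb hYV.2⟩ hNn with h0 | h0
  · rw [h0] at hxN
    exact Subgroup.mem_bot.1 hxN
  · exfalso
    refine gp1 G K a b c hM Y hYK hYinf ?_
    intro k hk
    have hkN : k ∈ N := by rw [h0]; exact hk
    have h2 := ((memN k).1 hkN).2 1 K.one_mem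
    have e : (1 : G)⁻¹ * k * 1 = k := by group
    rw [e] at h2
    exact h2

namespace GpR

variable {G : Type u} [Group G] {K : Subgroup G} {a b c : G}

/-- Elements of `F` permute `D_a⁻`. -/
theorem mi_fx {w u : G} (hw : w ∈ Fx K a b) (hu : Mi K a b u) : Mi K a b (w * u * w⁻¹) := by
  obtain ⟨hwK, hwa, hwb⟩ := mem_Fx.1 hw
  obtain ⟨hu1, hu2⟩ := hu
  obtain ⟨huK, hua⟩ := mem_Cz.1 hu1
  have c1 : Commute w a := hwa
  have c2 : Commute w b := hwb
  have c3 : Commute u a := hua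
  refine ⟨mem_Cz.2 ⟨K.mul_mem (K.mul_mem hwK huK) (K.inv_mem hwK),
    ((c1.mul_left c3).mul_left c1.inv_left).eq⟩, ?_⟩
  calc b * (w * u * w⁻¹) * b = (b * w) * u * (w⁻¹ * b) := by group
    _ = (w * b) * u * (b * w⁻¹) := by rw [c2.eq, c2.inv_left.eq]
    _ = w * (b * u * b) * w⁻¹ := by group
    _ = (w * u * w⁻¹)⁻¹ := by rw [hu2]; group

/-- `Y = ⟨C_{D_c⁻}(Q)⟩` -/
def YC (K : Subgroup G) (c a : G) (Q : Subgroup G) : Subgroup G := Subgroup.closure (YY K c a Q)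

theorem yc_le_nn {Q : Subgroup G} : YC K c a Q ≤ NN K a b c Q :=
  Subgroup.closure_mono Set.subset_union_right

theorem yc_le_cz {Q : Subgroup G} : YC K c a Q ≤ Cz K c := by
  unfold YC
  rw [Subgroup.closure_le]
  rintro u ⟨hu, -⟩
  exact hu.1

theorem yc_inv {Q : Subgroup G} {z : G} (hz : z * z = 1)
    (h1 : ∀ u, Mi K c a u → z * u * z = u⁻¹) : ∀ y ∈ YC K c a Q, z * y * z ∈ YC K c a Q := by
  intro y hy
  unfold YC at hy ⊢
  induction hy using Subgroup.closure_induction with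
  | mem x hx =>
    rw [h1 x hx.1]
    exact Subgroup.inv_mem _ (Subgroup.subset_closure hx)
  | one =>
    have : z * 1 * z = 1 := by rw [mul_one, hz]
    rw [this]
    exact Subgroup.one_mem _
  | mul x y _ _ hx hy =>
    rw [cj_mul hz]
    exact Subgroup.mul_mem _ hx hy
  | inv x _ hx =>
    rw [cj_inv hz]
    exact Subgroup.inv_mem _ hx

theorem yc_vinv (h : Fr K a b c) {Q : Subgroup G} : VInv a b (YC K c a Q) :=
  ⟨yc_inv h.aa fun _ hu => hu.2, yc_inv h.bb fun _ hu => ((mi_iff h.rot.rot).1 hu).2⟩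

theorem yc_inf {Q : Subgroup G} (hi : (YY K c a Q).Infinite) : Infinite (YC K c a Q) := by
  have h1 : ((YC K c a Q : Subgroup G) : Set G).Infinite := hi.mono Subgroup.subset_closure
  exact h1.to_subtype

/-- finite index passes to subgroups -/
theorem fi_mono {D E : Subgroup G} {s : G} (hDE : D ≤ E) (hs : fi E s) : fi D s := by
  refine fi_of_finite ((fi_finite hs).subset ?_)
  rintro x ⟨g, hg, e⟩
  exact ⟨g, hDE hg, e⟩

end GpR

open GpR in
/-- **Row GP.** -/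
theorem gp (hN : NrmS.{u}) : GpS.{u} := by
  intro G _ K a b c Q B θ hθ hθb hθn
  have h := B.fr
  have hM := B.mc
  obtain ⟨hnr, -⟩ := hN G K a b c h Q B.ho
  refine gp2 G K a b c hM (YC K c a Q) (yc_le_cz.trans cz_le) (yc_vinv h) (yc_inf B.inf) θ
    (mem_Cz.1 hθ).1 ?_
  intro k hk
  -- `k = β α γ`
  obtain ⟨β, α, γ, hβK, hαK, hγK, ek, hβb, hαa, hαb, hγc, hγb⟩ := h.swap.fac (X := K) le_rfl
    (fun u hu => h.cjmem h.bb hu) (fun u hu => h.cjmem h.aa hu) hk
  -- `β = w s`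
  obtain ⟨w, s, hw, hs, eβ, hwa, hsa⟩ := h.dec (X := Cz K b) cz_le h.aa
    (fun u hu => h.cz_inv h.aa h.cab hu) (mem_Cz.2 ⟨hβK, hβb⟩)
  have hwF : w ∈ Fx K a b := mem_Fx.2 ⟨(mem_Cz.1 hw).1, hwa, (mem_Cz.1 hw).2⟩
  -- `θ^w` commutes with `s`
  have h1 := hθb _ (mi_fx (a := b) (b := a) (by rw [fx_swap]; exact hwF) ⟨hs, hsa⟩)
  have h2 : (w⁻¹ * θ * w) * s = s * (w⁻¹ * θ * w) := by
    calc (w⁻¹ * θ * w) * s = w⁻¹ * (θ * (w * s * w⁻¹)) * w := by group
      _ = w⁻¹ * ((w * s * w⁻¹) * θ) * w := by rw [h1]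
      _ = s * (w⁻¹ * θ * w) := by group
  have h3 : β⁻¹ * θ * β = w⁻¹ * θ * w := by
    calc β⁻¹ * θ * β = s⁻¹ * ((w⁻¹ * θ * w) * s) := by rw [eβ]; group
      _ = w⁻¹ * θ * w := by rw [h2]; group
  -- conjugates of `θ` by elements of `C_K(a)` commute with `N(Q)`
  have h4 : ∀ x d : G, d ∈ Cz K a → (∀ n ∈ NN K a b c Q, x * n = n * x) →
      ∀ n ∈ NN K a b c Q, (d⁻¹ * x * d) * n = n * (d⁻¹ * x * d) := by
    intro x d hd hx n hn
    have h5 := hnr d⁻¹ ((Cz K a).inv_mem hd) n hn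
    rw [inv_inv] at h5
    have h6 := hx _ h5
    calc (d⁻¹ * x * d) * n = d⁻¹ * (x * (d * n * d⁻¹)) * d := by group
      _ = d⁻¹ * ((d * n * d⁻¹) * x) * d := by rw [h6]
      _ = n * (d⁻¹ * x * d) := by group
  have h7 := h4 θ w (mem_Cz.2 ⟨(mem_Cz.1 hw).1, hwa⟩) hθn
  have h8 := h4 _ α (mem_Cz.2 ⟨hαK, hαa⟩) h7
  have h9 : k⁻¹ * θ * k = γ⁻¹ * (α⁻¹ * (w⁻¹ * θ * w) * α) * γ := by
    rw [ek, ← h3]
    group
  rw [h9]
  set x := α⁻¹ * (w⁻¹ * θ * w) * α with hx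
  have hF' : (Fx K c b : Set G).Finite := by
    rw [fx_swap, h.fx_rot]
    exact hM.fin
  have h10 : fi (YC K c a Q) γ :=
    fi_mono yc_le_cz (mi_fi shu h.rot.swap hF' ⟨mem_Cz.2 ⟨hγK, hγc⟩, hγb⟩)
  have h11 : (Subgroup.centralizer {γ} ⊓ YC K c a Q).relIndex (YC K c a Q) ≠ 0 := by
    rw [Subgroup.inf_relIndex_right]
    exact h10
  show (Subgroup.centralizer {γ⁻¹ * x * γ}).relIndex (YC K c a Q) ≠ 0
  refine fun h0 => h11 ?_
  refine Nat.eq_zero_of_zero_dvd ?_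
  rw [← h0]
  refine Subgroup.relIndex_dvd_of_le_left _ ?_
  intro y hy
  obtain ⟨hy1, hy2⟩ := Subgroup.mem_inf.1 hy
  have c1 : Commute y γ := Subgroup.mem_centralizer_singleton_iff.1 hy1
  have c2 : Commute x y := h8 y (yc_le_nn hy2)
  exact Subgroup.mem_centralizer_singleton_iff.2
    (((c1.inv_right.mul_right c2.symm).mul_right c1).eq)

end Pool.Agent.FourGp.FF.Qt
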