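import Pool.Agent.Lib.MP_fb3619_al.BS.Iface

/-!
# MP_fb3619_al, board QQ: THEOREM Q. Statements of the rows. Paper: `QQ/Paper.md` (finding 4478).

Homology groups of a minimal counterexample have finitely many fixed points.
-/

set_option autoImplicit false

universe u v

namespace Pool.Agent.FourGp.FF.Qt

open Pool.Agent.FourGp.H47 (Odd' inv_of_sq conj_inv_pow mul_inv_self odd_conj comm_of_inv
  mul_inv_self' comm_pow comm_inv conj_comm comm_conj)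
open Pool.Agent.FourGp.H99 (LF)
open Pool.Agent.FourGp.FF.Abo
open Pool.Agent.FourGp.FF.Bs (Min0 MinC EeS)

/-- `Q` is a homology group with centre `a`: a nontrivial normal subgroup of `F` which centralises
`D_a⁻`. -/
structure Ho {G : Type u} [Group G] (K : Subgroup G) (a b : G) (Q : Subgroup G) : Prop where
  le : Q ≤ Fx K a b
  cen : ∀ e ∈ Q, ∀ u, Mi K a b u → e * u = u * e
  nor : ∀ f ∈ Fx K a b, ∀ e ∈ Q, f⁻¹ * e * f ∈ Q
  ne : Q ≠ ⊥

/-- The centralizer of `Q` in `D_c⁻`. -/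
def YY {G : Type u} [Group G] (K : Subgroup G) (c a : G) (Q : Subgroup G) : Set G :=
  {u | Mi K c a u ∧ ∀ e ∈ Q, e * u = u * e}

/-- `N(Q)` for a homology group with centre `a`. -/
def NN {G : Type u} [Group G] (K : Subgroup G) (a b c : G) (Q : Subgroup G) : Subgroup G :=
  Subgroup.closure (YY K b a Q ∪ YY K c a Q)

/-- The situation which has to be excluded: a homology group `Q` with centre `a` with infinitely
many fixed points in `D_c⁻`. -/
structure Bad {G : Type u} [Group G] (K : Subgroup G) (a b c : G) (Q : Subgroup G) : Prop where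
  mc : MinC K a b c
  ho : Ho K a b Q
  inf : (YY K c a Q).Infinite

/-- The subgroup `X = X_a`. (For the type `b` take `XD K b a X`.) -/
structure XD {G : Type u} [Group G] (K : Subgroup G) (a b : G) (X : Subgroup G) : Prop extends
    XS K a b X where
  gen : X ≤ Subgroup.closure {u | Mi K a b u}
  qi : ∀ e ∈ X, e ∈ Fx K a b → ∀ u, Mi K a b u → e * u = u * e
  com : ∀ w u, Mi K a b w → Mi K a b u → u ∈ X → ∃ e ∈ X, e ∈ Fx K a b ∧ u⁻¹ * w * u = e * w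

/-- The elements of `X⁻` which are isotropic for `g ∈ F`. -/
def Is {G : Type u} [Group G] (K : Subgroup G) (a b : G) (X : Subgroup G) (g : G) : Set G :=
  {u | u ∈ X ∧ Mi K a b u ∧ u * (g⁻¹ * u * g) = (g⁻¹ * u * g) * u}

/-- The generators `u⁻¹ u^e` of the group `S`; `u ∈ X⁻` is isotropic for `e ∈ Q`. (For the type
`b` take `Sg K b a Q X`.) -/
def Sg {G : Type u} [Group G] (K : Subgroup G) (a b : G) (Q X : Subgroup G) : Set G :=
  {s | ∃ u e, e ∈ Q ∧ u ∈ Is K a b X e ∧ s = u⁻¹ * (e⁻¹ * u * e)}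

/-- An infinite elementary abelian `p`-subgroup `E` of `D_b⁻`, which centralises `N(Q)`, `Q` a
homology group with centre `a`. -/
structure EB {G : Type u} [Group G] (K : Subgroup G) (a b c : G) (Q : Subgroup G) (p : ℕ)
    (E : Subgroup G) : Prop where
  mi : ∀ t ∈ E, Mi K b a t
  co : ∀ t ∈ E, ∀ t' ∈ E, t * t' = t' * t
  pp : ∀ t ∈ E, t ^ p = 1
  cn : ∀ t ∈ E, ∀ n ∈ NN K a b c Q, t * n = n * t
  nf : ∀ f ∈ Fx K a b, ∀ t ∈ E, f⁻¹ * t * f ∈ E
  cm : ∀ t ∈ E, ∀ m, Mi K b a m → ∃ q ∈ Fx K a b, (∀ u, Mi K b a u → q * u = u * q) ∧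
    t⁻¹ * m * t = q * m
  ix : {t | t ∈ E ∧ ∀ e ∈ Q, e * t = t * e}.Infinite

/-! ### Finite groups acting on elementary abelian groups -/

/-- BSZ (paper 1): the theorem of Baer and Suzuki. -/
def BszS : Prop := ∀ (p : ℕ), p.Prime → ∀ (H : Type u) [Group H] [Finite H] (T : Set H),
  (∀ x ∈ T, ∀ h : H, h⁻¹ * x * h ∈ T) →
  (∀ x ∈ T, ∀ y ∈ T, IsPGroup p (Subgroup.closure {x, y})) → IsPGroup p (Subgroup.closure T)

/-- FXP (paper 5): a finite `p`-group on an infinite elementary abelian `p`-group. -/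
def FxpS : Prop := ∀ (p : ℕ), p.Prime → ∀ (M : Type u) [AddCommGroup M] (H : Type u)
  [Group H] [Finite H] [DistribMulAction H M], (∀ m : M, p • m = 0) → Infinite M →
  (∀ h : H, ∃ k : ℕ, ∀ m : M, h ^ (p ^ k) • m = m) → {m : M | ∀ h : H, h • m = m}.Infinite

/-- LIN (paper 5'; helper46): an odd group `E` acting on an elementary abelian `p`-group `W`, an
involution `a` acting on both, `Q ≤ C_E(a)` trivial on `C_W(a)` and quadratic up to a finite set on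
the elements inverted by `a`. -/
def LinS : Prop := ∀ (p : ℕ), p.Prime → p ≠ 2 → ∀ (G : Type u) [Group G] (a : G), a * a = 1 →
  ∀ W E Q : Subgroup G, (∀ w ∈ W, ∀ w' ∈ W, w * w' = w' * w) → (∀ w ∈ W, w ^ p = 1) →
  (∀ w ∈ W, a * w * a ∈ W) → (∀ g ∈ E, ∀ w ∈ W, g⁻¹ * w * g ∈ W) → Finite E →
  Odd (Nat.card E) → (∀ g ∈ E, a * g * a ∈ E) → Q ≤ E → (∀ q ∈ Q, q * a = a * q) →
  (∀ q ∈ Q, ∀ w ∈ W, w * a = a * w → q * w = w * q) →
  (∀ e ∈ Q, ∀ e' ∈ Q, {z | ∃ w ∈ W, a * w * a = w⁻¹ ∧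
    z = (w⁻¹ * (e⁻¹ * w * e))⁻¹ * (e'⁻¹ * (w⁻¹ * (e⁻¹ * w * e)) * e')}.Finite) →
  {w | w ∈ W ∧ a * w * a = w⁻¹}.Infinite →
  ∃ L : Subgroup G, L ≤ W ∧ Infinite L ∧ (∀ l ∈ L, a * l * a = l⁻¹) ∧
    ∀ g ∈ E, ∀ q ∈ Q, ∀ l ∈ L, (g⁻¹ * q * g) * l = l * (g⁻¹ * q * g)

/-! ### The minimal counterexample -/

/-- NRM (paper 6): `D_a` normalises `N(Q)`. -/
def NrmS : Prop := ∀ (G : Type u) [Group G] (K : Subgroup G) (a b c : G), Fr K a b c →
  ∀ Q : Subgroup G, Ho K a b Q →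
  (∀ d ∈ Cz K a, ∀ n ∈ NN K a b c Q, d⁻¹ * n * d ∈ NN K a b c Q) ∧ VInv a b (NN K a b c Q)

/-- GP1 (paper 7). -/
def Gp1S : Prop := ∀ (G : Type u) [Group G] (K : Subgroup G) (a b c : G), MinC K a b c →
  ∀ Y : Subgroup G, Y ≤ K → Infinite Y → (∀ k ∈ K, fi Y k) → False

/-- GP2 (paper 7). -/
def Gp2S : Prop := ∀ (G : Type u) [Group G] (K : Subgroup G) (a b c : G), MinC K a b c →
  ∀ Y : Subgroup G, Y ≤ K → VInv a b Y → Infinite Y → ∀ x ∈ K,
  (∀ k ∈ K, fi Y (k⁻¹ * x * k)) → x = 1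

/-- GP (paper 7): the generation principle. -/
def GpS : Prop := ∀ (G : Type u) [Group G] (K : Subgroup G) (a b c : G) (Q : Subgroup G),
  Bad K a b c Q → ∀ θ ∈ Cz K b, (∀ u, Mi K b a u → θ * u = u * θ) →
  (∀ n ∈ NN K a b c Q, θ * n = n * θ) → θ = 1

/-- GC (paper 8): `K` is generated by finitely many conjugates of a subgroup `≠ 1` of `F`. -/
def GcS : Prop := ∀ (G : Type u) [Group G] (K : Subgroup G) (a b c : G), MinC K a b c →
  ∀ Q : Subgroup G, Q ≤ Fx K a b → Q ≠ ⊥ → ∃ T : Finset G, (∀ g ∈ T, g ∈ K) ∧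
  K = Subgroup.closure {x | ∃ g ∈ T, ∃ q ∈ Q, x = g⁻¹ * q * g}

/-- LST (paper 8): the end. -/
def LstS : Prop := ∀ (G : Type u) [Group G] (K : Subgroup G) (a b c : G), MinC K a b c →
  ∀ Q : Subgroup G, Ho K b a Q →
  (∀ A : Finset G, (∀ α ∈ A, Mi K a b α) → ∃ L : Subgroup G, L ≤ Cz K c ∧ Infinite L ∧
    ∀ α ∈ A, ∀ q ∈ Q, ∀ l ∈ L, (α⁻¹ * q * α) * l = l * (α⁻¹ * q * α)) → False

/-- XDX (paper 9): existence of `X`. -/
def XdxS : Prop := ∀ (G : Type u) [Group G] (K : Subgroup G) (a b c : G), Fr K a b c →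
  (Fx K a b : Set G).Finite → ∃ X : Subgroup G, XD K a b X

/-- ISG (paper 9): isotropic elements generate a subgroup of finite index. -/
def IsgS : Prop := ∀ (G : Type u) [Group G] (K : Subgroup G) (a b c : G), Fr K a b c →
  (Fx K a b : Set G).Finite → ∀ X : Subgroup G, XD K a b X → ∀ g ∈ Fx K a b,
  (Subgroup.closure (Is K a b X g)).relIndex (Cz K a) ≠ 0

/-- SA (paper 10): the group `S` for the type `b`, centre `a`. -/
def SaS : Prop := ∀ (G : Type u) [Group G] (K : Subgroup G) (a b c : G) (Q : Subgroup G),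
  Bad K a b c Q → ∀ X : Subgroup G, XD K b a X → ∀ s ∈ Subgroup.closure (Sg K b a Q X),
  s ∈ X ∧ Mi K b a s ∧ (∀ n ∈ NN K a b c Q, s * n = n * s) ∧
  (∀ s' ∈ Subgroup.closure (Sg K b a Q X), s * s' = s' * s) ∧
  ∀ f ∈ Fx K a b, f⁻¹ * s * f ∈ Subgroup.closure (Sg K b a Q X)

/-- QD (paper 11): the action of `Q` on `S` is trivial up to a finite set. -/
def QdS : Prop := ∀ (G : Type u) [Group G] (K : Subgroup G) (a b c : G) (Q : Subgroup G),
  Bad K a b c Q → ∀ X : Subgroup G, XD K b a X → ∀ e ∈ Q,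
  {z | ∃ t ∈ Subgroup.closure (Sg K b a Q X), z = t⁻¹ * (e⁻¹ * t * e)}.Finite

/-- SI (paper 12): `S` is infinite. -/
def SiS : Prop := ∀ (G : Type u) [Group G] (K : Subgroup G) (a b c : G) (Q : Subgroup G),
  Bad K a b c Q → ∀ X : Subgroup G, XD K b a X → ∀ e ∈ Q, e ≠ 1 →
  {s | ∃ u ∈ Is K b a X e, s = u⁻¹ * (e⁻¹ * u * e)}.Infinite

/-- SB (paper 12): the same with `b` and `c` exchanged. -/
def SbS : Prop := ∀ (G : Type u) [Group G] (K : Subgroup G) (a b c : G) (Q : Subgroup G),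
  Bad K a b c Q → (YY K b a Q).Infinite

/-- SC (paper 13): the `p`-part of `S`. -/
def ScS : Prop := ∀ (G : Type u) [Group G] (K : Subgroup G) (a b c : G) (Q : Subgroup G),
  Bad K a b c Q → ∀ X : Subgroup G, XD K b a X → ∀ p : ℕ, p.Prime →
  (∃ e ∈ Q, e ≠ 1 ∧ e ^ p = 1) → ∃ E : Subgroup G, EB K a b c Q p E

/-- ST (paper 14): a homology group with centre `b`. -/
def StS : Prop := ∀ (G : Type u) [Group G] (K : Subgroup G) (a b c : G) (Q : Subgroup G),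
  Bad K a b c Q → ∀ p : ℕ, p.Prime → ∀ E E' : Subgroup G, EB K a b c Q p E →
  EB K a c b Q p E' → ∃ Q' : Subgroup G, Ho K b a Q' ∧ (∀ q ∈ Q', q ^ p = 1) ∧
  (∀ q ∈ Q', ∀ q' ∈ Q', q * q' = q' * q) ∧ {t | t ∈ E' ∧ ∀ q ∈ Q', q * t = t * q}.Infinite

/-- WL (paper 15): fixed points of the conjugates of `Q'`. -/
def WlS : Prop := ∀ (G : Type u) [Group G] (K : Subgroup G) (a b c : G) (Q Q' : Subgroup G),
  Bad K a b c Q → Bad K b c a Q' → ∀ p : ℕ, p.Prime → p ≠ 2 → ∀ E : Subgroup G,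
  EB K a c b Q p E → (∀ q ∈ Q', q ^ p = 1) → (∀ q ∈ Q', ∀ q' ∈ Q', q * q' = q' * q) →
  ∀ A : Finset G, (∀ α ∈ A, Mi K a b α) → ∃ L : Subgroup G, L ≤ Cz K c ∧ Infinite L ∧
    ∀ α ∈ A, ∀ q ∈ Q', ∀ l ∈ L, (α⁻¹ * q * α) * l = l * (α⁻¹ * q * α)

/-- THEOREM Q. -/
def ThqS : Prop := ∀ (G : Type u) [Group G] (K : Subgroup G) (a b c : G), MinC K a b c →
  ∀ Q : Subgroup G, Ho K a b Q → (YY K b a Q).Finite ∧ (YY K c a Q).Finite

end Pool.Agent.FourGp.FF.Qt
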