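import Pool.Agent.Lib.MP_fb3619_al.QQ.LinA

/-!
# MP_fb3619_al, board QQ, row LIN, additive theorem (helper46)
-/

set_option autoImplicit false

namespace Pool.Agent.FourGp.FF.Qt

section Lin
variable {p : ℕ} {M H : Type*} [AddCommGroup M] [Group H] [DistribMulAction H M]

theorem half (hp : p.Prime) (hp2 : p ≠ 2) (hM : ∀ m : M, p • m = 0) (m : M) (h : m + m = 0) :
    m = 0 := by
  obtain ⟨k, hk⟩ := hp.odd_of_ne_two hp2
  have e : p • m = k • (m + m) + m := by
    rw [hk, add_smul, one_smul, mul_comm, mul_smul, two_smul]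
  rw [hM, h, smul_zero, zero_add] at e
  exact e.symm

/-- The elements of `M` inverted by `σ`. -/
def Mm (σ : M →+ M) : AddSubgroup M where
  carrier := {m | σ m = -m}
  add_mem' := by
    intro x y hx hy
    simp only [Set.mem_ofPred_eq] at hx hy ⊢
    rw [map_add, hx, hy]; abel
  zero_mem' := by simp
  neg_mem' := by
    intro x hx
    simp only [Set.mem_ofPred_eq] at hx ⊢
    rw [map_neg, hx]

theorem mem_Mm {σ : M →+ M} {m : M} : m ∈ Mm σ ↔ σ m = -m := Iff.rfl

/-- A normal set of quadratic elements of a group of odd order generates a group which acts as a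
`p`-group. -/
theorem hhq [Finite H] (hp : p.Prime) (hM : ∀ m : M, p • m = 0) (hodd : Odd (Nat.card H))
    (T : Set H) (hT : ∀ x ∈ T, ∀ g : H, g * x * g⁻¹ ∈ T)
    (hT2 : ∀ x ∈ T, ∀ m : M, x • (x • m) + m = x • m + x • m) :
    ∀ r ∈ Subgroup.closure T, ∃ k : ℕ, ∀ m : M, r ^ p ^ k • m = m := by
  classical
  have : Fact p.Prime := ⟨hp⟩
  set ρ : H →* AddMonoid.End M := DistribMulAction.toAddMonoidEnd H M with hρ
  have hρa : ∀ r m, ρ r m = r • m := fun r m => rfl
  have hpE : (p : AddMonoid.End M) = 0 := by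
    ext m
    have e : (p : AddMonoid.End M) = p • (1 : AddMonoid.End M) := by rw [nsmul_eq_mul, mul_one]
    rw [e]
    change p • m = 0
    exact hM _
  have hq : ∀ x ∈ T, (ρ x - 1) * (ρ x - 1) = 0 := by
    intro x hx
    ext m
    change x • (x • m - m) - (x • m - m) = 0
    have e := hT2 x hx m
    rw [smul_sub]
    have e2 : x • x • m - x • m - (x • m - m) = (x • x • m + m) - (x • m + x • m) := by abel
    rw [e2, e, sub_self]
  have hodd' : ∀ z : H, ∃ n : ℕ, z ^ (2 * n + 1) = 1 := by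
    intro z
    obtain ⟨n, hn⟩ := hodd
    exact ⟨n, by rw [← hn]; exact pow_card_eq_one'⟩
  set φ : H →* (MulAction.toPermHom H M).range := (MulAction.toPermHom H M).rangeRestrict with hφ
  have hsur : Function.Surjective φ := (MulAction.toPermHom H M).rangeRestrict_surjective
  have hone : ∀ g : H, φ g = 1 ↔ ∀ m : M, g • m = m := by
    intro g
    constructor
    · intro e m
      have e1 : (MulAction.toPermHom H M) g = 1 := congrArg Subtype.val e
      have e2 : (MulAction.toPermHom H M) g m = m := by rw [e1]; rfl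
      exact e2
    · intro e
      apply Subtype.ext
      apply Equiv.ext
      intro m
      exact e m
  have hfin : Finite (MulAction.toPermHom H M).range := Finite.of_surjective φ hsur
  have hp1 : ∀ x ∈ φ '' T, ∀ y ∈ φ '' T, IsPGroup p (Subgroup.closure {x, y}) := by
    rintro x ⟨s, hs, rfl⟩ y ⟨t, ht, rfl⟩
    rintro ⟨z, hz⟩
    have e : Subgroup.closure {φ s, φ t} = (Subgroup.closure {s, t}).map φ := by
      rw [MonoidHom.map_closure, Set.image_pair]
    rw [e] at hz
    obtain ⟨g, hg, rfl⟩ := hz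
    obtain ⟨k, hk⟩ := prl hp hpE ρ (hq s hs) (hq t ht) inferInstance (fun z _ => hodd' z)
    refine ⟨k, Subtype.ext ?_⟩
    show φ g ^ p ^ k = 1
    rw [← map_pow]
    refine (hone _).2 fun m => ?_
    have e3 := hk g hg
    rw [← map_pow] at e3
    have e4 := DFunLike.congr_fun e3 m
    exact e4
  have hc : ∀ g : (MulAction.toPermHom H M).range, ∀ x ∈ φ '' T, g * x * g⁻¹ ∈ φ '' T := by
    rintro g x ⟨s, hs, rfl⟩
    obtain ⟨g', rfl⟩ := hsur g
    refine ⟨g' * s * g'⁻¹, hT s hs g', ?_⟩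
    rw [map_mul, map_mul, map_inv]
  have hP := bsz (p := p) (φ '' T) hc hp1
  intro r hr
  have hmem : φ r ∈ Subgroup.closure (φ '' T) := by
    rw [← MonoidHom.map_closure]
    exact Subgroup.mem_map_of_mem φ hr
  obtain ⟨k, hk⟩ := hP ⟨φ r, hmem⟩
  refine ⟨k, (hone _).1 ?_⟩
  rw [map_pow]
  exact congrArg Subtype.val hk

/-- The quadratic case. -/
theorem lin2 [Finite H] (hp : p.Prime) (hp2 : p ≠ 2) (hM : ∀ m : M, p • m = 0)
    (hodd : Odd (Nat.card H)) (σ : M →+ M) (hσ : ∀ m, σ (σ m) = m)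
    (hH : ∀ h : H, ∃ h' : H, ∀ m : M, σ (h • m) = h' • σ m) (Q : Set H)
    (hQσ : ∀ q ∈ Q, ∀ m : M, σ (q • m) = q • σ m) (hQ1 : ∀ q ∈ Q, ∀ m : M, σ m = m → q • m = m)
    (hQ2 : ∀ q ∈ Q, ∀ m : M, q • (q • m) + m = q • m + q • m)
    (hinf : (Mm σ : Set M).Infinite) :
    ∃ L : AddSubgroup M, (L : Set M).Infinite ∧ L ≤ Mm σ ∧
      ∀ h : H, ∀ q ∈ Q, ∀ l ∈ L, q • (h • l) = h • l := by
  classical
  have : Fact p.Prime := ⟨hp⟩
  set T : Set H := {x | ∃ q ∈ Q, ∃ h : H, x = h * q * h⁻¹} with hTdef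
  have hT : ∀ x ∈ T, ∀ g : H, g * x * g⁻¹ ∈ T := by
    rintro x ⟨q, hq, h, rfl⟩ g
    exact ⟨q, hq, g * h, by group⟩
  have hT2 : ∀ x ∈ T, ∀ m : M, x • (x • m) + m = x • m + x • m := by
    rintro x ⟨q, hq, h, rfl⟩ m
    have e := congrArg (fun z => h • z) (hQ2 q hq (h⁻¹ • m))
    simp only [smul_add, smul_inv_smul] at e
    simp only [mul_smul, inv_smul_smul]
    exact e
  set R : Subgroup H := Subgroup.closure T with hR
  have hRp := hhq hp hM hodd T hT hT2
  have hRn : ∀ r ∈ R, ∀ g : H, g * r * g⁻¹ ∈ R := by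
    intro r hr g
    have hle : R ≤ R.comap (MulAut.conj g).toMonoidHom := by
      rw [hR, Subgroup.closure_le]
      intro x hx
      exact Subgroup.subset_closure (hT x hx g)
    exact hle hr
  -- the action of `σ` on `R`
  have hRσ : ∀ r ∈ R, ∃ r' ∈ R, ∀ m : M, σ (r • m) = r' • σ m := by
    intro r hr
    induction hr using Subgroup.closure_induction with
    | mem x hx =>
      obtain ⟨q, hq, h, rfl⟩ := hx
      obtain ⟨h', hh'⟩ := hH h
      refine ⟨h' * q * h'⁻¹, Subgroup.subset_closure ⟨q, hq, h', rfl⟩, fun m => ?_⟩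
      have e1 : h'⁻¹ • σ m = σ (h⁻¹ • m) := by
        have e := hh' (h⁻¹ • m)
        rw [smul_inv_smul] at e
        rw [e, inv_smul_smul]
      rw [mul_smul, mul_smul, hh', hQσ q hq, mul_smul, mul_smul, e1]
    | one => exact ⟨1, R.one_mem, fun m => by rw [one_smul, one_smul]⟩
    | mul u v _ _ hu hv =>
      obtain ⟨u', hu', eu⟩ := hu
      obtain ⟨v', hv', ev⟩ := hv
      exact ⟨u' * v', R.mul_mem hu' hv', fun m => by rw [mul_smul, eu, ev, mul_smul]⟩
    | inv u _ hu =>
      obtain ⟨u', hu', eu⟩ := hu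
      refine ⟨u'⁻¹, R.inv_mem hu', fun m => ?_⟩
      have e := eu (u⁻¹ • m)
      rw [smul_inv_smul] at e
      rw [e, inv_smul_smul]
  have hCH : ∀ n, ∀ h : H, ∀ m ∈ Ch R M n, h • m ∈ Ch R M n := by
    intro n
    induction n with
    | zero =>
      intro h m hm
      rw [Ch_zero] at hm ⊢
      rw [hm, smul_zero]
    | succ n ih =>
      intro h m hm s
      have hs : h⁻¹ * s * h ∈ R := by
        have e := hRn s.1 s.2 h⁻¹
        rwa [inv_inv] at e
      have e1 := ih h _ (hm ⟨_, hs⟩)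
      have e : s • h • m - h • m = h • ((⟨_, hs⟩ : R) • m - m) := by
        change s.1 • h • m - h • m = h • ((h⁻¹ * s * h) • m - m)
        rw [smul_sub, mul_smul, mul_smul, smul_inv_smul]
      rw [e]
      exact e1
  have hCσ : ∀ n, ∀ m ∈ Ch R M n, σ m ∈ Ch R M n := by
    intro n
    induction n with
    | zero =>
      intro m hm
      rw [Ch_zero] at hm ⊢
      rw [hm, map_zero]
    | succ n ih =>
      intro m hm s
      obtain ⟨s', hs', es⟩ := hRσ s.1 s.2
      have e1 := ih _ (hm ⟨s', hs'⟩)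
      have e : s • σ m - σ m = σ ((⟨s', hs'⟩ : R) • m - m) := by
        change s.1 • σ m - σ m = σ (s' • m - m)
        rw [map_sub]
        have e2 := es (σ m)
        rw [hσ] at e2
        rw [← e2, hσ]
      rw [e]
      exact e1
  obtain ⟨N, hN⟩ := Ch_top' (p := p) (R := R) hM (fun r => hRp r.1 r.2)
  have hex : ∃ n, ((Ch R M n ⊓ Mm σ : AddSubgroup M) : Set M).Infinite :=
    ⟨N, by rw [hN, top_inf_eq]; exact hinf⟩
  set i := Nat.find hex with hi
  have hi1 := Nat.find_spec hex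
  have hi0 : i ≠ 0 := by
    intro h0
    rw [← hi, h0] at hi1
    apply hi1
    have e : (Ch R M 0 ⊓ Mm σ : AddSubgroup M) = ⊥ := by
      rw [eq_bot_iff]
      intro m hm
      exact hm.1
    rw [e]
    exact Set.finite_singleton 0
  obtain ⟨j, hj⟩ := Nat.exists_eq_succ_of_ne_zero hi0
  rw [← hi, hj] at hi1
  have hΦ : ((Ch R M j ⊓ Mm σ : AddSubgroup M) : Set M).Finite := by
    have h1 := Nat.find_min hex (m := j) (by rw [← hi, hj]; exact Nat.lt_succ_self j)
    exact Set.not_infinite.1 h1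
  set s : AddSubgroup M := Ch R M (j + 1) ⊓ Mm σ with hs
  -- the maps
  set f : H × Q → M →+ M := fun x =>
    { toFun := fun m => x.2.1 • (x.1 • m - σ (x.1 • m)) - (x.1 • m - σ (x.1 • m))
      map_zero' := by simp
      map_add' := by
        intro m m'
        simp only [smul_add, map_add, smul_sub]
        abel } with hf
  have hfa : ∀ (x : H × Q) (m : M), f x m =
    x.2.1 • (x.1 • m - σ (x.1 • m)) - (x.1 • m - σ (x.1 • m)) := fun x m => rfl
  have hker := inf_ker s hi1 f (by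
    rintro ⟨h, q, hq⟩
    refine hΦ.subset ?_
    rintro _ ⟨m, hm, rfl⟩
    have hm' : h • m - σ (h • m) ∈ Ch R M (j + 1) :=
      (Ch R M (j + 1)).sub_mem (hCH _ h m hm.1) (hCσ _ _ (hCH _ h m hm.1))
    have hqR : q ∈ R := Subgroup.subset_closure ⟨q, hq, 1, by group⟩
    refine ⟨?_, ?_⟩
    · exact hm' ⟨q, hqR⟩
    · change σ (f (h, ⟨q, hq⟩) m) = -f (h, ⟨q, hq⟩) m
      rw [hfa]
      simp only
      rw [map_sub, hQσ q hq, map_sub, hσ]
      have e : σ (h • m) - h • m = -(h • m - σ (h • m)) := by abel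
      rw [e, smul_neg]
      abel)
  refine ⟨⟨⟨⟨{m | m ∈ s ∧ ∀ x, f x m = 0}, ?_⟩, ?_⟩, ?_⟩, hker, ?_, ?_⟩
  · rintro m m' ⟨h1, h2⟩ ⟨h1', h2'⟩
    exact ⟨s.add_mem h1 h1', fun x => by rw [map_add, h2, h2', add_zero]⟩
  · exact ⟨s.zero_mem, fun x => map_zero _⟩
  · rintro m ⟨h1, h2⟩
    exact ⟨s.neg_mem h1, fun x => by rw [map_neg, h2, neg_zero]⟩
  · rintro m ⟨h1, -⟩
    exact h1.2
  · rintro h q hq l ⟨-, h2⟩
    have e1 := h2 (h, ⟨q, hq⟩)
    rw [hfa] at e1
    simp only at e1
    have e2 : q • (h • l + σ (h • l)) = h • l + σ (h • l) := by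
      apply hQ1 q hq
      rw [map_add, hσ]
      abel
    have e3 : (q • h • l - h • l) + (q • h • l - h • l) = 0 := by
      have e4 : (q • h • l - h • l) + (q • h • l - h • l) =
          (q • (h • l - σ (h • l)) - (h • l - σ (h • l))) +
          (q • (h • l + σ (h • l)) - (h • l + σ (h • l))) := by
        rw [smul_sub, smul_add]; abel
      rw [e4, e1, e2, sub_self, add_zero]
    exact sub_eq_zero.1 (half hp hp2 hM _ e3)

/-- The additive form of LIN. -/
theorem lin_add [Finite H] (hp : p.Prime) (hp2 : p ≠ 2) (hM : ∀ m : M, p • m = 0)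
    (hodd : Odd (Nat.card H)) (σ : M →+ M) (hσ : ∀ m, σ (σ m) = m)
    (hH : ∀ h : H, ∃ h' : H, ∀ m : M, σ (h • m) = h' • σ m) (Q : Set H)
    (hQσ : ∀ q ∈ Q, ∀ m : M, σ (q • m) = q • σ m) (hQ1 : ∀ q ∈ Q, ∀ m : M, σ m = m → q • m = m)
    (hQ2 : ∀ q ∈ Q, ((fun m => (q • (q • m - m)) - (q • m - m)) '' (Mm σ : Set M)).Finite)
    (hinf : (Mm σ : Set M).Infinite) :
    ∃ L : AddSubgroup M, (L : Set M).Infinite ∧ L ≤ Mm σ ∧
      ∀ h : H, ∀ q ∈ Q, ∀ l ∈ L, q • (h • l) = h • l := by
  classical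
  -- the maps
  set f : H × Q → M →+ M := fun x =>
    { toFun := fun m => x.2.1 • (x.2.1 • x.1 • m - x.1 • m) - (x.2.1 • x.1 • m - x.1 • m)
      map_zero' := by simp
      map_add' := by
        intro m m'
        simp only [smul_add, smul_sub]
        abel } with hf
  have hfa : ∀ (x : H × Q) (m : M), f x m =
    x.2.1 • (x.2.1 • x.1 • m - x.1 • m) - (x.2.1 • x.1 • m - x.1 • m) := fun x m => rfl
  have hff : ∀ x : H × Q, (f x '' (Mm σ : Set M)).Finite := by
    rintro ⟨h, q, hq⟩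
    obtain ⟨k, hk⟩ := hp.odd_of_ne_two hp2
    have hdbl : ∀ m : M, ∃ m', m = m' + m' := fun m => ⟨(k + 1) • m, by
      have e : (k + 1) • m + (k + 1) • m = p • m + m := by
        rw [hk, ← add_smul]
        have : k + 1 + (k + 1) = (2 * k + 1) + 1 := by omega
        rw [this, add_smul, one_smul]
      rw [e, hM, zero_add]⟩
    refine (hQ2 q hq).subset ?_
    rintro _ ⟨m, hm, rfl⟩
    obtain ⟨m', hm'⟩ := hdbl (h • m)
    refine ⟨m' - σ m', ?_, ?_⟩
    · change σ (m' - σ m') = -(m' - σ m')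
      rw [map_sub, hσ]; abel
    · rw [hfa]
      simp only
      rw [hm']
      have e1 : q • (m' + σ m') = m' + σ m' := by
        apply hQ1 q hq
        rw [map_add, hσ]; abel
      have e2 : q • (m' + m') - (m' + m') = q • (m' - σ m') - (m' - σ m') := by
        have e3 : q • (m' + m') - (m' + m') = (q • (m' - σ m') - (m' - σ m')) +
            (q • (m' + σ m') - (m' + σ m')) := by
          rw [smul_sub, smul_add, smul_add]; abel
        rw [e3, e1, sub_self, add_zero]
      rw [e2]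
  have hker := inf_ker (Mm σ) hinf f hff
  -- the submodule
  set M0 : AddSubgroup M :=
    { carrier := {m | ∀ x, f x m = 0}
      add_mem' := by
        intro m m' h1 h2 x
        rw [map_add, h1 x, h2 x, add_zero]
      zero_mem' := fun x => map_zero _
      neg_mem' := by
        intro m h1 x
        rw [map_neg, h1 x, neg_zero] } with hM0
  have hM0m : ∀ m, m ∈ M0 ↔ ∀ x, f x m = 0 := fun m => Iff.rfl
  have hinv : ∀ h : H, ∀ m ∈ M0, h • m ∈ M0 := by
    intro h m hm x
    have e := hm (x.1 * h, x.2)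
    rw [hfa] at e ⊢
    simp only [mul_smul] at e
    exact e
  have hσinv : ∀ m ∈ M0, σ m ∈ M0 := by
    rintro m hm ⟨h, q, hq⟩
    obtain ⟨h', hh'⟩ := hH h
    have e := hm (h', ⟨q, hq⟩)
    rw [hfa] at e ⊢
    simp only at e ⊢
    have e1 : h • σ m = σ (h' • m) := by
      have e2 := hh' (σ m)
      rw [hσ] at e2
      rw [← e2, hσ]
    rw [e1, ← hQσ q hq, ← map_sub, ← hQσ q hq, ← map_sub, e, map_zero]
  let _ : DistribMulAction H M0 :=
    { smul := fun h m => ⟨h • m.1, hinv h m.1 m.2⟩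
      one_smul := fun m => Subtype.ext (one_smul H m.1)
      mul_smul := fun g h m => Subtype.ext (mul_smul g h m.1)
      smul_zero := fun h => Subtype.ext (smul_zero h)
      smul_add := fun h m m' => Subtype.ext (smul_add h m.1 m'.1) }
  have hsm : ∀ (h : H) (m : M0), ((h • m : M0) : M) = h • m.1 := fun h m => rfl
  set τ : M0 →+ M0 :=
    { toFun := fun m => ⟨σ m.1, hσinv m.1 m.2⟩
      map_zero' := Subtype.ext (map_zero σ)
      map_add' := fun m m' => Subtype.ext (map_add σ m.1 m'.1) } with hτ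
  have hτa : ∀ m : M0, ((τ m : M0) : M) = σ m.1 := fun m => rfl
  obtain ⟨L, hL1, hL2, hL3⟩ := lin2 (p := p) (M := M0) (H := H) hp hp2
    (fun m => Subtype.ext (hM m.1)) hodd τ (fun m => Subtype.ext (hσ m.1))
    (fun h => by
      obtain ⟨h', hh'⟩ := hH h
      exact ⟨h', fun m => Subtype.ext (hh' m.1)⟩) Q
    (fun q hq m => Subtype.ext (hQσ q hq m.1))
    (fun q hq m hm => Subtype.ext (hQ1 q hq m.1 (congrArg Subtype.val hm)))
    (fun q hq m => by
      apply Subtype.ext
      change q • q • m.1 + m.1 = q • m.1 + q • m.1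
      have e := m.2 (1, ⟨q, hq⟩)
      rw [hfa] at e
      simp only [one_smul, smul_sub] at e
      have e2 : q • q • m.1 + m.1 = (q • q • m.1 - q • m.1 - (q • m.1 - m.1)) +
          (q • m.1 + q • m.1) := by abel
      rw [e2, e, zero_add])
    (by
      intro hfin
      apply hker
      refine (hfin.image (fun m : M0 => m.1)).subset ?_
      rintro m ⟨h1, h2⟩
      exact ⟨⟨m, h2⟩, Subtype.ext h1, rfl⟩)
  refine ⟨L.map M0.subtype, ?_, ?_, ?_⟩
  · have e : ((L.map M0.subtype : AddSubgroup M) : Set M) = (fun m : M0 => m.1) '' (L : Set M0) :=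
      rfl
    rw [e]
    exact hL1.image (Subtype.val_injective.injOn)
  · rintro _ ⟨m, hm, rfl⟩
    exact congrArg Subtype.val (hL2 hm)
  · rintro h q hq _ ⟨m, hm, rfl⟩
    exact congrArg Subtype.val (hL3 h q hq m hm)

end Lin

end Pool.Agent.FourGp.FF.Qt
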