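import Pool.Agent.Lib.MP_fb3619_al.QQ.Iface
import Pool.Agent.Lib.MP_fb3619_al.QQ.LinB

/-!
# MP_fb3619_al, board QQ, row LIN (helper46)
-/

set_option autoImplicit false

universe u

namespace Pool.Agent.FourGp.FF.Qt

theorem lin : LinS.{u} := by
  intro p hp hp2 G _ a ha W E Q hcom hexp hWa hWE hEfin hodd hEa hQE hQa hQ1 hQ2 hinf
  classical
  have hai : a⁻¹ = a := inv_eq_of_mul_eq_one_left ha
  have hWE' : ∀ g ∈ E, ∀ w ∈ W, g * w * g⁻¹ ∈ W := by
    intro g hg w hw
    have e := hWE g⁻¹ (E.inv_mem hg) w hw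
    rwa [inv_inv] at e
  let _ : CommGroup W :=
    { (inferInstance : Group W) with
      mul_comm := fun x y => Subtype.ext (hcom x.1 x.2 y.1 y.2) }
  let _ : DistribMulAction E (Additive W) :=
    { smul := fun g m => Additive.ofMul ⟨g.1 * (Additive.toMul m).1 * g.1⁻¹,
        hWE' g.1 g.2 _ (Additive.toMul m).2⟩
      one_smul := fun m => by
        apply Additive.toMul.injective
        apply Subtype.ext
        change (1 : G) * (Additive.toMul m).1 * (1 : G)⁻¹ = (Additive.toMul m).1
        simp
      mul_smul := fun g h m => by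
        apply Additive.toMul.injective
        apply Subtype.ext
        change (g.1 * h.1) * (Additive.toMul m).1 * (g.1 * h.1)⁻¹ =
          g.1 * (h.1 * (Additive.toMul m).1 * h.1⁻¹) * g.1⁻¹
        group
      smul_zero := fun g => by
        apply Additive.toMul.injective
        apply Subtype.ext
        change g.1 * 1 * g.1⁻¹ = 1
        group
      smul_add := fun g m n => by
        apply Additive.toMul.injective
        apply Subtype.ext
        change g.1 * ((Additive.toMul m).1 * (Additive.toMul n).1) * g.1⁻¹ =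
          (g.1 * (Additive.toMul m).1 * g.1⁻¹) * (g.1 * (Additive.toMul n).1 * g.1⁻¹)
        group }
  set v : Additive W → G := fun m => (Additive.toMul m).1 with hv
  have vinj : Function.Injective v := fun m n h =>
    Additive.toMul.injective (Subtype.ext h)
  have vsm : ∀ (g : E) (m : Additive W), v (g • m) = g.1 * v m * g.1⁻¹ := fun g m => rfl
  have vadd : ∀ m n : Additive W, v (m + n) = v m * v n := fun m n => rfl
  have vneg : ∀ m : Additive W, v (-m) = (v m)⁻¹ := fun m => rfl
  have vzero : v 0 = 1 := rfl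
  have vmem : ∀ m, v m ∈ W := fun m => (Additive.toMul m).2
  have vsur : ∀ w ∈ W, ∃ m, v m = w := fun w hw => ⟨Additive.ofMul ⟨w, hw⟩, rfl⟩
  have vnsm : ∀ (n : ℕ) (m : Additive W), v (n • m) = v m ^ n := by
    intro n m
    induction n with
    | zero => rw [zero_smul, pow_zero, vzero]
    | succ n ih => rw [add_smul, one_smul, vadd, ih, pow_succ]
  set σ : Additive W →+ Additive W :=
    { toFun := fun m => Additive.ofMul ⟨a * v m * a, hWa _ (vmem m)⟩
      map_zero' := by
        apply vinj
        change a * 1 * a = 1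
        rw [mul_one, ha]
      map_add' := by
        intro m n
        apply vinj
        change a * (v m * v n) * a = (a * v m * a) * (a * v n * a)
        calc a * (v m * v n) * a = a * v m * 1 * v n * a := by group
          _ = a * v m * (a * a) * v n * a := by rw [ha]
          _ = (a * v m * a) * (a * v n * a) := by group } with hσdef
  have vσ : ∀ m, v (σ m) = a * v m * a := fun m => rfl
  have hconj : ∀ x y : G, a * (x * y) * a = (a * x * a) * (a * y * a) := by
    intro x y
    calc a * (x * y) * a = a * x * 1 * y * a := by group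
      _ = a * x * (a * a) * y * a := by rw [ha]
      _ = (a * x * a) * (a * y * a) := by group
  have hconji : ∀ x : G, a * x⁻¹ * a = (a * x * a)⁻¹ := by
    intro x
    rw [mul_inv_rev, mul_inv_rev, hai]; group
  have haa : ∀ x : G, a * (a * x * a) * a = x := by
    intro x
    calc a * (a * x * a) * a = (a * a) * x * (a * a) := by group
      _ = x := by rw [ha]; group
  obtain ⟨L, hL1, hL2, hL3⟩ := lin_add (p := p) (M := Additive W) (H := E) hp hp2
    (fun m => by
      apply vinj
      rw [vnsm, vzero]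
      exact hexp _ (vmem m)) hodd σ
    (fun m => by
      apply vinj
      rw [vσ, vσ, haa])
    (fun h => ⟨⟨a * h.1 * a, hEa h.1 h.2⟩, fun m => by
      apply vinj
      rw [vσ, vsm, vsm, vσ]
      simp only
      rw [hconj, hconj, hconji]⟩)
    {q : E | q.1 ∈ Q}
    (fun q hq m => by
      apply vinj
      rw [vσ, vsm, vsm, vσ]
      have hq' : q.1 * a = a * q.1 := hQa q.1 hq
      have hq2 : a * q.1 * a = q.1 := by rw [← hq', mul_assoc, ha, mul_one]
      rw [hconj, hconj, hconji, hq2])
    (fun q hq m hm => by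
      apply vinj
      have e := congrArg v hm
      rw [vσ] at e
      rw [vsm]
      have e2 : v m * a = a * v m := by
        calc v m * a = (a * v m * a) * a := by rw [e]
          _ = a * v m * (a * a) := by group
          _ = a * v m := by rw [ha, mul_one]
      have e3 := hQ1 q.1 hq (v m) (vmem m) e2
      rw [e3, mul_assoc, mul_inv_cancel, mul_one])
    (fun q hq => by
      have h1 := hQ2 q.1⁻¹ (Q.inv_mem hq) q.1⁻¹ (Q.inv_mem hq)
      refine Set.Finite.subset (h1.preimage (f := v) vinj.injOn) ?_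
      rintro _ ⟨m, hm, rfl⟩
      refine ⟨v m, vmem m, ?_, ?_⟩
      · have e := congrArg v hm
        rw [vσ, vneg] at e
        exact e
      · simp only [sub_eq_add_neg, vadd, vneg, vsm, inv_inv]
        have e1 : q.1 * v m * q.1⁻¹ * (v m)⁻¹ = (v m)⁻¹ * (q.1 * v m * q.1⁻¹) :=
          hcom _ (hWE' _ q.2 _ (vmem m)) _ (W.inv_mem (vmem m))
        have hu : q.1 * v m * q.1⁻¹ * (v m)⁻¹ ∈ W :=
          W.mul_mem (hWE' _ q.2 _ (vmem m)) (W.inv_mem (vmem m))
        rw [← e1]
        exact hcom _ (hWE' _ q.2 _ hu) _ (W.inv_mem hu))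
    (by
      intro hfin
      apply hinf
      refine (hfin.image v).subset ?_
      rintro w ⟨hw, hw'⟩
      obtain ⟨m, rfl⟩ := vsur w hw
      refine ⟨m, ?_, rfl⟩
      change σ m = -m
      apply vinj
      rw [vσ, vneg]
      exact hw')
  refine ⟨{ carrier := v '' (L : Set (Additive W))
            mul_mem' := ?_, one_mem' := ?_, inv_mem' := ?_ }, ?_, ?_, ?_, ?_⟩
  · rintro _ _ ⟨m, hm, rfl⟩ ⟨n, hn, rfl⟩
    exact ⟨m + n, L.add_mem hm hn, rfl⟩
  · exact ⟨0, L.zero_mem, rfl⟩
  · rintro _ ⟨m, hm, rfl⟩
    exact ⟨-m, L.neg_mem hm, rfl⟩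
  · rintro _ ⟨m, hm, rfl⟩
    exact vmem m
  · exact (hL1.image vinj.injOn).to_subtype
  · rintro _ ⟨m, hm, rfl⟩
    have e := congrArg v (hL2 hm)
    rw [vσ, vneg] at e
    exact e
  · rintro g hg q hq _ ⟨m, hm, rfl⟩
    have e := congrArg v (hL3 ⟨g, hg⟩ ⟨q, hQE hq⟩ hq m hm)
    rw [vsm, vsm] at e
    simp only at e
    calc g⁻¹ * q * g * v m = g⁻¹ * (q * (g * v m * g⁻¹) * q⁻¹) * q * g := by group
      _ = g⁻¹ * (g * v m * g⁻¹) * q * g := by rw [e]
      _ = v m * (g⁻¹ * q * g) := by group

end Pool.Agent.FourGp.FF.Qt
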