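import Pool.Agent.Lib.MP_fb3619_al.QQ.Slf

/-!
# MP_fb3619_al, Theorem Q, finite part: row PRL

Two elements `x, y` of a finite group of odd order which act with `(x - 1)^2 = (y - 1)^2 = 0`
in characteristic `p` generate a group which acts as a `p`-group.
-/

set_option autoImplicit false

universe u v w

namespace Pool.Agent.FourGp.FF.Qt

/-! ### Algebras -/

section Alg

variable {P : Type u} {R : Type v} [CommRing P] [Ring R] [Algebra P R]

/-- `X^2 = Y^2 = 0`, `XY + YX = t` -/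
structure XYT (X Y : R) (t : P) : Prop where
  xx : X * X = 0
  yy : Y * Y = 0
  xy : X * Y + Y * X = t • (1 : R)

namespace XYT

variable {X Y : R} {t : P}

theorem symm (h : XYT X Y t) : XYT Y X t := ⟨h.yy, h.xx, by rw [add_comm, h.xy]⟩

theorem xyx (h : XYT X Y t) : X * Y * X = t • X := by
  have e : X * (X * Y + Y * X) = X * (t • (1 : R)) := by rw [h.xy]
  rw [mul_add, ← mul_assoc, h.xx, zero_mul, zero_add, ← mul_assoc, mul_smul_comm, mul_one] at e
  exact e

theorem yxy (h : XYT X Y t) : Y * X * Y = t • Y := h.symm.xyx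

end XYT

/-- the elements of `P` killed by a power of `t` -/
def tor (R : Type v) [Ring R] [Algebra P R] (t : P) : Ideal P where
  carrier := {f | ∃ n : ℕ, (f * t ^ n) • (1 : R) = 0}
  add_mem' := by
    rintro f g ⟨n, hn⟩ ⟨m, hm⟩
    refine ⟨n + m, ?_⟩
    have e : (f + g) * t ^ (n + m) = t ^ m * (f * t ^ n) + t ^ n * (g * t ^ m) := by
      rw [pow_add]; ring
    rw [e, add_smul, mul_smul, hn, mul_smul, hm, smul_zero, smul_zero, add_zero]
  zero_mem' := ⟨0, by rw [zero_mul, zero_smul]⟩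
  smul_mem' := by
    rintro c f ⟨n, hn⟩
    refine ⟨n, ?_⟩
    rw [smul_eq_mul, mul_assoc, mul_smul, hn, smul_zero]

theorem mem_tor {t f : P} : f ∈ tor R t ↔ ∃ n : ℕ, (f * t ^ n) • (1 : R) = 0 := Iff.rfl

variable {X Y : R} {t : P}

theorem tor_aux (h : XYT X Y t) {f : P} (hf : f • X = 0) : f ∈ tor R t := by
  refine mem_tor.2 ⟨1, ?_⟩
  have e1 : f • (X * Y) = 0 := by rw [← smul_mul_assoc, hf, zero_mul]
  have e2 : f • (Y * X) = 0 := by rw [← mul_smul_comm, hf, mul_zero]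
  rw [pow_one, mul_smul, ← h.xy, smul_add, e1, e2, add_zero]

theorem tor_mul {f : P} (hf : f * t ∈ tor R t) : f ∈ tor R t := by
  obtain ⟨n, hn⟩ := mem_tor.1 hf
  refine mem_tor.2 ⟨n + 1, ?_⟩
  rw [pow_succ', ← mul_assoc]
  exact hn

theorem tor_of (h : XYT X Y t) {f g : P} (hfg : f • (X * Y) + g • Y = 0) :
    f ∈ tor R t ∧ g ∈ tor R t := by
  have hg : g ∈ tor R t := by
    have e1 : g • (X * Y) = 0 := by
      have e : X * (f • (X * Y) + g • Y) = 0 := by rw [hfg, mul_zero]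
      rw [mul_add, mul_smul_comm, mul_smul_comm, ← mul_assoc, h.xx, zero_mul, smul_zero,
        zero_add] at e
      exact e
    have e2 : (g * t) • X = 0 := by
      have e : g • (X * Y) * X = 0 := by rw [e1, zero_mul]
      rw [smul_mul_assoc, h.xyx, ← mul_smul] at e
      exact e
    exact tor_mul (tor_aux h e2)
  refine ⟨?_, hg⟩
  have e1 : (f * t) • Y = 0 := by
    have e : Y * (f • (X * Y) + g • Y) = 0 := by rw [hfg, mul_zero]
    rw [mul_add, mul_smul_comm, mul_smul_comm, h.yy, smul_zero, add_zero, ← mul_assoc, h.yxy,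
      ← mul_smul] at e
    exact e
  exact tor_mul (tor_aux h.symm e1)

/-- the matrix `g` describes the left multiplication by `a` on `R Y` -/
def Rep (X Y : R) (t : P) (a : R) (g : SL2 (P ⧸ tor R t)) : Prop :=
  ∃ A B C D : P, Ideal.Quotient.mk _ A = g.1 0 0 ∧ Ideal.Quotient.mk _ B = g.1 0 1 ∧
    Ideal.Quotient.mk _ C = g.1 1 0 ∧ Ideal.Quotient.mk _ D = g.1 1 1 ∧
    a * (X * Y) = A • (X * Y) + C • Y ∧ a * Y = B • (X * Y) + D • Y

theorem Rep.mul {a b : R} {g g' : SL2 (P ⧸ tor R t)} (h1 : Rep X Y t a g)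
    (h2 : Rep X Y t b g') : Rep X Y t (a * b) (g * g') := by
  obtain ⟨A, B, C, D, hA, hB, hC, hD, e1, e2⟩ := h1
  obtain ⟨A', B', C', D', hA', hB', hC', hD', e1', e2'⟩ := h2
  refine ⟨A * A' + B * C', A * B' + B * D', C * A' + D * C', C * B' + D * D',
    ?_, ?_, ?_, ?_, ?_, ?_⟩
  · rw [mul00, map_add, map_mul, map_mul, hA, hB, hA', hC']
  · rw [mul01, map_add, map_mul, map_mul, hA, hB, hB', hD']
  · rw [mul10, map_add, map_mul, map_mul, hC, hD, hA', hC']
  · rw [mul11, map_add, map_mul, map_mul, hC, hD, hB', hD']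
  · rw [mul_assoc, e1', mul_add, mul_smul_comm, mul_smul_comm, e1, e2]
    module
  · rw [mul_assoc, e2', mul_add, mul_smul_comm, mul_smul_comm, e1, e2]
    module

theorem rep_one : Rep X Y t (1 : R) (1 : SL2 (P ⧸ tor R t)) :=
  ⟨1, 0, 0, 1, rfl, rfl, rfl, rfl, by rw [one_mul, one_smul, zero_smul, add_zero],
    by rw [one_mul, one_smul, zero_smul, zero_add]⟩

theorem Rep.pow {a : R} {g : SL2 (P ⧸ tor R t)} (h : Rep X Y t a g) (n : ℕ) :
    Rep X Y t (a ^ n) (g ^ n) := by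
  induction n with
  | zero => rw [pow_zero, pow_zero]; exact rep_one
  | succ n ih => rw [pow_succ, pow_succ]; exact ih.mul h

theorem Rep.uniq (h : XYT X Y t) {a : R} {g g' : SL2 (P ⧸ tor R t)} (h1 : Rep X Y t a g)
    (h2 : Rep X Y t a g') : g = g' := by
  obtain ⟨A, B, C, D, hA, hB, hC, hD, e1, e2⟩ := h1
  obtain ⟨A', B', C', D', hA', hB', hC', hD', e1', e2'⟩ := h2
  have k1 : (A - A') • (X * Y) + (C - C') • Y = 0 := by
    have e := e1.symm.trans e1'
    rw [← sub_eq_zero] at e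
    rw [← e]
    module
  have k2 : (B - B') • (X * Y) + (D - D') • Y = 0 := by
    have e := e2.symm.trans e2'
    rw [← sub_eq_zero] at e
    rw [← e]
    module
  obtain ⟨l1, l2⟩ := tor_of h k1
  obtain ⟨l3, l4⟩ := tor_of h k2
  apply sl_ext
  · rw [← hA, ← hA']; exact Ideal.Quotient.eq.2 l1
  · rw [← hB, ← hB']; exact Ideal.Quotient.eq.2 l3
  · rw [← hC, ← hC']; exact Ideal.Quotient.eq.2 l2
  · rw [← hD, ← hD']; exact Ideal.Quotient.eq.2 l4

theorem lo_inv {k : Type u} [CommRing k] (c : k) : (lo c)⁻¹ = lo (-c) := by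
  rw [inv_eq_iff_mul_eq_one]
  apply sl_ext
  · rw [mul00]
    change 1 * 1 + 0 * -c = (1 : k)
    ring
  · rw [mul01]
    change 1 * 0 + 0 * 1 = (0 : k)
    ring
  · rw [mul10]
    change c * 1 + 1 * -c = (0 : k)
    ring
  · rw [mul11]
    change c * 0 + 1 * 1 = (1 : k)
    ring

/-- `t` is nilpotent. -/
theorem nil (h : XYT X Y t) {H : Type w} [Group H] (ρ : H →* R) {x y : H} (hx : ρ x = 1 + X)
    (hy : ρ y = 1 + Y) (hfin : Finite (Subgroup.closure {x, y}))
    (hodd : ∀ z ∈ Subgroup.closure {x, y}, ∃ n : ℕ, z ^ (2 * n + 1) = 1) :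
    ∃ n : ℕ, t ^ n • (1 : R) = 0 := by
  by_contra hne
  have hnt : Nontrivial (P ⧸ tor R t) := by
    refine Ideal.Quotient.nontrivial_iff.2 fun htop => ?_
    have h1 : (1 : P) ∈ tor R t := by rw [htop]; exact Submodule.mem_top
    obtain ⟨n, hn⟩ := mem_tor.1 h1
    rw [one_mul] at hn
    exact hne ⟨n, hn⟩
  set τ : P ⧸ tor R t := Ideal.Quotient.mk _ t with hτ
  have hreg : ∀ c : P ⧸ tor R t, c * τ = 0 → c = 0 := by
    intro c hc
    obtain ⟨f, rfl⟩ := Ideal.Quotient.mk_surjective c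
    rw [hτ, ← map_mul] at hc
    exact Ideal.Quotient.eq_zero_iff_mem.2 (tor_mul (Ideal.Quotient.eq_zero_iff_mem.1 hc))
  have hxr : Rep X Y t (ρ x) (up 1) := by
    refine ⟨1, 1, 0, 1, rfl, rfl, rfl, rfl, ?_, ?_⟩
    · rw [hx, add_mul, one_mul, ← mul_assoc, h.xx, zero_mul, add_zero, one_smul, zero_smul,
        add_zero]
    · rw [hx, add_mul, one_mul, one_smul, one_smul, add_comm]
  have hyr : Rep X Y t (ρ y) (lo τ) := by
    refine ⟨1, 0, t, 1, rfl, rfl, rfl, rfl, ?_, ?_⟩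
    · rw [hy, add_mul, one_mul, ← mul_assoc, h.yxy, one_smul]
    · rw [hy, add_mul, one_mul, h.yy, zero_smul, one_smul, add_zero, zero_add]
  set Γ : Subgroup (SL2 (P ⧸ tor R t)) := Subgroup.closure {up 1, lo τ} with hΓ
  have hpow1 : ∀ {z : H} {g : SL2 (P ⧸ tor R t)} {n : ℕ}, Rep X Y t (ρ z) g → z ^ n = 1 →
      g ^ n = 1 := by
    intro z g n hz hn
    have h1 := hz.pow n
    rw [← map_pow, hn, map_one] at h1
    exact h1.uniq h rep_one
  have hrep : ∀ g ∈ Γ, ∃ z ∈ Subgroup.closure {x, y}, Rep X Y t (ρ z) g := by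
    intro g hg
    refine Subgroup.closure_induction
      (p := fun g _ => ∃ z ∈ Subgroup.closure {x, y}, Rep X Y t (ρ z) g) ?_ ?_ ?_ ?_ hg
    · intro g hg
      simp only [Set.mem_insert_iff, Set.mem_singleton_iff] at hg
      rcases hg with rfl | rfl
      · exact ⟨x, Subgroup.subset_closure (by simp), hxr⟩
      · exact ⟨y, Subgroup.subset_closure (by simp), hyr⟩
    · exact ⟨1, Subgroup.one_mem _, by rw [map_one]; exact rep_one⟩
    · rintro g g' _ _ ⟨z, hz, h1⟩ ⟨z', hz', h2⟩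
      exact ⟨z * z', Subgroup.mul_mem _ hz hz', by rw [map_mul]; exact h1.mul h2⟩
    · rintro g _ ⟨z, hz, h1⟩
      obtain ⟨n, hn⟩ := hodd z hz
      have h2 := hpow1 h1 hn
      have e : g⁻¹ = g ^ (2 * n) := by
        rw [inv_eq_iff_mul_eq_one, ← pow_succ', h2]
      refine ⟨z ^ (2 * n), Subgroup.pow_mem _ hz _, ?_⟩
      rw [e, map_pow]
      exact h1.pow _
  choose! ζ hζ1 hζ2 using hrep
  have hΓfin : Finite Γ := by
    refine Finite.of_injective (fun g : Γ => (⟨ζ g.1, hζ1 g.1 g.2⟩ : Subgroup.closure {x, y})) ?_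
    intro g g' e
    have e1 : ζ g.1 = ζ g'.1 := congrArg Subtype.val e
    have h1 := hζ2 g.1 g.2
    have h2 := hζ2 g'.1 g'.2
    rw [← e1] at h2
    exact Subtype.ext (h1.uniq h h2)
  have hΓodd : ∀ g ∈ Γ, ∃ n : ℕ, g ^ (2 * n + 1) = 1 := by
    intro g hg
    obtain ⟨n, hn⟩ := hodd _ (hζ1 g hg)
    exact ⟨n, hpow1 (hζ2 g hg) hn⟩
  have hΓsg : ∀ g ∈ Γ, sg g ∈ Γ := by
    intro g hg
    refine Subgroup.closure_induction (p := fun g _ => sg g ∈ Γ) ?_ ?_ ?_ ?_ hg
    · intro g hg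
      simp only [Set.mem_insert_iff, Set.mem_singleton_iff] at hg
      rcases hg with rfl | rfl
      · have e : sg (up (1 : P ⧸ tor R t)) = (up 1)⁻¹ := by
          rw [up_inv]
          apply sl_ext
          · rfl
          · rfl
          · exact neg_zero
          · rfl
        rw [e]
        exact Γ.inv_mem (Subgroup.subset_closure (by simp))
      · have e : sg (lo τ) = (lo τ)⁻¹ := by
          rw [lo_inv]
          apply sl_ext
          · rfl
          · exact neg_zero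
          · rfl
          · rfl
        rw [e]
        exact Γ.inv_mem (Subgroup.subset_closure (by simp))
    · have e : sg (1 : SL2 (P ⧸ tor R t)) = 1 := map_one (sgh (k := P ⧸ tor R t))
      rw [e]
      exact Γ.one_mem
    · intro g g' _ _ h1 h2
      rw [sg_mul]
      exact Γ.mul_mem h1 h2
    · intro g _ h1
      rw [sg_inv]
      exact Γ.inv_mem h1
  exact slf hreg Γ hΓfin hΓodd hΓsg (Subgroup.subset_closure (by simp))
    (Subgroup.subset_closure (by simp))

/-- the span of `X, Y, XY, YX` -/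
def InJ (P : Type u) {R : Type v} [CommRing P] [Ring R] [Algebra P R] (X Y a : R) : Prop :=
  ∃ α β γ δ : P, a = α • X + β • Y + γ • (X * Y) + δ • (Y * X)

theorem InJ.add {a b : R} (ha : InJ P X Y a) (hb : InJ P X Y b) : InJ P X Y (a + b) := by
  obtain ⟨α, β, γ, δ, rfl⟩ := ha
  obtain ⟨α', β', γ', δ', rfl⟩ := hb
  refine ⟨α + α', β + β', γ + γ', δ + δ', ?_⟩
  module

theorem mul_form (h : XYT X Y t) (α β γ δ α' β' γ' δ' : P) :
    (α • X + β • Y + γ • (X * Y) + δ • (Y * X)) *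
      (α' • X + β' • Y + γ' • (X * Y) + δ' • (Y * X)) =
    (t * (α * δ' + γ * α')) • X + (t * (β * γ' + δ * β')) • Y +
      (α * β' + t * (γ * γ')) • (X * Y) + (β * α' + t * (δ * δ')) • (Y * X) := by
  have m1 : X * (X * Y) = 0 := by rw [← mul_assoc, h.xx, zero_mul]
  have m2 : X * (Y * X) = t • X := by rw [← mul_assoc, h.xyx]
  have m3 : Y * (X * Y) = t • Y := by rw [← mul_assoc, h.yxy]
  have m4 : Y * (Y * X) = 0 := by rw [← mul_assoc, h.yy, zero_mul]
  have m5 : X * Y * X = t • X := h.xyx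
  have m6 : X * Y * Y = 0 := by rw [mul_assoc, h.yy, mul_zero]
  have m7 : X * Y * (X * Y) = t • (X * Y) := by rw [← mul_assoc, h.xyx, smul_mul_assoc]
  have m8 : X * Y * (Y * X) = 0 := by rw [mul_assoc, m4, mul_zero]
  have m9 : Y * X * X = 0 := by rw [mul_assoc, h.xx, mul_zero]
  have m10 : Y * X * Y = t • Y := h.yxy
  have m11 : Y * X * (X * Y) = 0 := by rw [mul_assoc, m1, mul_zero]
  have m12 : Y * X * (Y * X) = t • (Y * X) := by rw [← mul_assoc, h.yxy, smul_mul_assoc]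
  simp only [add_mul, mul_add, smul_mul_assoc, mul_smul_comm, h.xx, h.yy, m1, m2, m3, m4, m5, m6,
    m7, m8, m9, m10, m11, m12, smul_zero, add_zero, zero_add]
  module

theorem InJ.mul (h : XYT X Y t) {a b : R} (ha : InJ P X Y a) (hb : InJ P X Y b) :
    InJ P X Y (a * b) := by
  obtain ⟨α, β, γ, δ, rfl⟩ := ha
  obtain ⟨α', β', γ', δ', rfl⟩ := hb
  exact ⟨_, _, _, _, mul_form h _ _ _ _ _ _ _ _⟩

theorem InJ.sq (h : XYT X Y t) {a : R} (ha : InJ P X Y a) : ∃ b : R, a * a = t • b := by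
  obtain ⟨α, β, γ, δ, rfl⟩ := ha
  rw [mul_form h]
  refine ⟨(α * δ + γ * α) • X + (β * γ + δ * β) • Y + (γ * γ) • (X * Y) + (δ * δ) • (Y * X) +
    (α * β) • (1 : R), ?_⟩
  have e : t • (α * β) • (1 : R) = (α * β) • (X * Y) + (α * β) • (Y * X) := by
    rw [smul_comm, ← h.xy, smul_add]
  rw [smul_add, e]
  module

theorem inJ_closure (h : XYT X Y t) {H : Type w} [Group H] (ρ : H →* R) {x y : H}
    (hx : ρ x = 1 + X) (hy : ρ y = 1 + Y)
    (hodd : ∀ z ∈ Subgroup.closure {x, y}, ∃ n : ℕ, z ^ (2 * n + 1) = 1) :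
    ∀ z ∈ Subgroup.closure {x, y}, InJ P X Y (ρ z - 1) := by
  have hmul : ∀ z z' : H, InJ P X Y (ρ z - 1) → InJ P X Y (ρ z' - 1) →
      InJ P X Y (ρ (z * z') - 1) := by
    intro z z' h1 h2
    have e : ρ (z * z') - 1 = (ρ z - 1) + (ρ z' - 1) + (ρ z - 1) * (ρ z' - 1) := by
      rw [map_mul]; noncomm_ring
    rw [e]
    exact (h1.add h2).add (h1.mul h h2)
  have hone : InJ P X Y (ρ (1 : H) - 1) := by
    refine ⟨0, 0, 0, 0, ?_⟩
    rw [map_one, sub_self]
    module
  have hpow : ∀ z : H, InJ P X Y (ρ z - 1) → ∀ n : ℕ, InJ P X Y (ρ (z ^ n) - 1) := by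
    intro z hz n
    induction n with
    | zero => rw [pow_zero]; exact hone
    | succ n ih => rw [pow_succ]; exact hmul _ _ ih hz
  intro z hz
  refine Subgroup.closure_induction (p := fun z _ => InJ P X Y (ρ z - 1)) ?_ hone ?_ ?_ hz
  · intro z hz
    simp only [Set.mem_insert_iff, Set.mem_singleton_iff] at hz
    rcases hz with rfl | rfl
    · refine ⟨1, 0, 0, 0, ?_⟩
      rw [hx]
      module
    · refine ⟨0, 1, 0, 0, ?_⟩
      rw [hy]
      module
  · intro z z' _ _ h1 h2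
    exact hmul z z' h1 h2
  · intro z hz h1
    obtain ⟨n, hn⟩ := hodd z hz
    have e : z⁻¹ = z ^ (2 * n) := by
      rw [inv_eq_iff_mul_eq_one, ← pow_succ', hn]
    rw [e]
    exact hpow z h1 _

/-- `x` and `y` generate a group which acts unipotently. -/
theorem unip (h : XYT X Y t) {H : Type w} [Group H] (ρ : H →* R) {x y : H} (hx : ρ x = 1 + X)
    (hy : ρ y = 1 + Y) (hfin : Finite (Subgroup.closure {x, y}))
    (hodd : ∀ z ∈ Subgroup.closure {x, y}, ∃ n : ℕ, z ^ (2 * n + 1) = 1) :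
    ∃ N : ℕ, ∀ z ∈ Subgroup.closure {x, y}, (ρ z - 1) ^ (2 * N) = 0 := by
  obtain ⟨N, hN⟩ := nil h ρ hx hy hfin hodd
  refine ⟨N, fun z hz => ?_⟩
  obtain ⟨b, hb⟩ := (inJ_closure h ρ hx hy hodd z hz).sq h
  rw [pow_mul, pow_two, hb, smul_pow]
  calc t ^ N • b ^ N = t ^ N • (1 * b ^ N) := by rw [one_mul]
    _ = (t ^ N • (1 : R)) * b ^ N := by rw [smul_mul_assoc]
    _ = 0 := by rw [hN, zero_mul]

end Alg

/-! ### Any ring -/

theorem unip' {R : Type v} [Ring R] {H : Type w} [Group H] (ρ : H →* R) {x y : H}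
    (hx : (ρ x - 1) * (ρ x - 1) = 0) (hy : (ρ y - 1) * (ρ y - 1) = 0)
    (hfin : Finite (Subgroup.closure {x, y}))
    (hodd : ∀ z ∈ Subgroup.closure {x, y}, ∃ n : ℕ, z ^ (2 * n + 1) = 1) :
    ∃ N : ℕ, ∀ z ∈ Subgroup.closure {x, y}, (ρ z - 1) ^ (2 * N) = 0 := by
  set X : R := ρ x - 1 with hX
  set Y : R := ρ y - 1 with hY
  set t : R := X * Y + Y * X with ht
  have cX : t * X = X * t := by
    rw [ht, add_mul, mul_add, ← mul_assoc, ← mul_assoc, hx, zero_mul, zero_add, mul_assoc Y, hx,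
      mul_zero, add_zero]
  have cY : t * Y = Y * t := by
    rw [ht, add_mul, mul_add, ← mul_assoc, ← mul_assoc, hy, zero_mul, add_zero, mul_assoc X, hy,
      mul_zero, zero_add]
  let R' : Subring R := Subring.centralizer {t}
  have memR : ∀ {a : R}, t * a = a * t → a ∈ R' := by
    intro a ha
    refine Subring.mem_centralizer_iff.2 fun s hs => ?_
    rw [Set.mem_singleton_iff.1 hs]
    exact ha
  have hxR : ρ x ∈ R' := memR (by
    have e : ρ x = X + 1 := by rw [hX]; noncomm_ring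
    rw [e, mul_add t X 1, add_mul X 1 t, cX, mul_one, one_mul])
  have hyR : ρ y ∈ R' := memR (by
    have e : ρ y = Y + 1 := by rw [hY]; noncomm_ring
    rw [e, mul_add t Y 1, add_mul Y 1 t, cY, mul_one, one_mul])
  have hXR : X ∈ R' := memR cX
  have hYR : Y ∈ R' := memR cY
  have htR : t ∈ R' := memR rfl
  -- the group
  let C : Subgroup H := Subgroup.closure {x, y}
  have hCR : ∀ z ∈ C, ρ z ∈ R' := by
    intro z hz
    refine Subgroup.closure_induction (p := fun z _ => ρ z ∈ R') ?_ ?_ ?_ ?_ hz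
    · intro z hz
      simp only [Set.mem_insert_iff, Set.mem_singleton_iff] at hz
      rcases hz with rfl | rfl
      · exact hxR
      · exact hyR
    · rw [map_one]; exact R'.one_mem
    · intro z z' _ _ h1 h2
      rw [map_mul]; exact R'.mul_mem h1 h2
    · intro z hz h1
      obtain ⟨n, hn⟩ := hodd z hz
      have e : z⁻¹ = z ^ (2 * n) := by
        rw [inv_eq_iff_mul_eq_one, ← pow_succ', hn]
      rw [e, map_pow]
      exact R'.pow_mem h1 _
  let ρ' : C →* R' :=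
    { toFun := fun z => ⟨ρ z.1, hCR z.1 z.2⟩
      map_one' := Subtype.ext (map_one ρ)
      map_mul' := fun z z' => Subtype.ext (map_mul ρ z.1 z'.1) }
  have hxC : x ∈ C := Subgroup.subset_closure (by simp)
  have hyC : y ∈ C := Subgroup.subset_closure (by simp)
  have htc : (⟨t, htR⟩ : R') ∈ Subring.center R' := by
    refine Subring.mem_center_iff.2 fun a => ?_
    have h1 := Subring.mem_centralizer_iff.1 a.2 t rfl
    exact Subtype.ext h1.symm
  have hxyt : XYT (⟨X, hXR⟩ : R') (⟨Y, hYR⟩ : R') (⟨⟨t, htR⟩, htc⟩ : Subring.center R') := by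
    refine ⟨Subtype.ext hx, Subtype.ext hy, ?_⟩
    apply Subtype.ext
    change X * Y + Y * X = t * 1
    rw [mul_one]
  have hcl : Subgroup.closure {(⟨x, hxC⟩ : C), (⟨y, hyC⟩ : C)} = ⊤ := by
    have := Subgroup.closure_closure_coe_preimage (k := ({x, y} : Set H))
    rw [← this]
    congr 1
    ext z
    simp only [Set.mem_insert_iff, Set.mem_singleton_iff, Set.mem_preimage, Subtype.ext_iff]
  obtain ⟨N, hN⟩ := unip hxyt ρ' (x := ⟨x, hxC⟩) (y := ⟨y, hyC⟩)
    (Subtype.ext (by change ρ x = 1 + X; rw [hX]; noncomm_ring))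
    (Subtype.ext (by change ρ y = 1 + Y; rw [hY]; noncomm_ring))
    (by
      have : Finite C := hfin
      infer_instance)
    (by
      intro z _
      obtain ⟨n, hn⟩ := hodd z.1 z.2
      exact ⟨n, Subtype.ext hn⟩)
  refine ⟨N, fun z hz => ?_⟩
  have h1 := hN ⟨z, hz⟩ (by rw [hcl]; exact Subgroup.mem_top _)
  exact congrArg Subtype.val h1

/-- PRL -/
theorem prl {R : Type v} [Ring R] {p : ℕ} (hp : p.Prime) (hpR : (p : R) = 0) {H : Type w}
    [Group H] (ρ : H →* R) {x y : H} (hx : (ρ x - 1) * (ρ x - 1) = 0)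
    (hy : (ρ y - 1) * (ρ y - 1) = 0) (hfin : Finite (Subgroup.closure {x, y}))
    (hodd : ∀ z ∈ Subgroup.closure {x, y}, ∃ n : ℕ, z ^ (2 * n + 1) = 1) :
    ∃ n : ℕ, ∀ z ∈ Subgroup.closure {x, y}, ρ z ^ p ^ n = 1 := by
  obtain ⟨N, hN⟩ := unip' ρ hx hy hfin hodd
  refine ⟨2 * N, fun z hz => ?_⟩
  rcases subsingleton_or_nontrivial R with hs | hs
  · exact Subsingleton.elim _ _
  have hc : CharP R p := (CharP.charP_iff_prime_eq_zero hp).2 hpR
  have : Fact p.Prime := ⟨hp⟩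
  have e : ρ z = 1 + (ρ z - 1) := by noncomm_ring
  rw [e, add_pow_expChar_pow_of_commute p (2 * N) (Commute.one_left _), one_pow]
  have h1 : 2 * N ≤ p ^ (2 * N) := (Nat.lt_pow_self hp.one_lt).le
  rw [pow_eq_zero_of_le h1 (hN z hz), add_zero]

end Pool.Agent.FourGp.FF.Qt
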