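import Pool.Agent.Lib.MP_fb3619_al.QQ.Bsz
import Pool.Agent.Lib.MP_fb3619_al.QQ.Prl

/-!
# MP_fb3619_al, board QQ, row LIN, additive part (helper46)

A finite group `H` of odd order acts on an elementary abelian `p`-group `M`, with an involution
`σ` acting on both, `Q ≤ C_H(σ)` trivial on `C_M(σ)` and quadratic up to a finite set on the
elements inverted by `σ`.
-/

set_option autoImplicit false

namespace Pool.Agent.FourGp.FF.Qt

section Fix

/-- Kernels of finitely many additive maps with finite images. -/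
theorem inf_ker {M : Type*} [AddCommGroup M] (s : AddSubgroup M) (hs : (s : Set M).Infinite)
    {J : Type*} [Finite J] (f : J → M →+ M) (hf : ∀ j, (f j '' (s : Set M)).Finite) :
    {m | m ∈ s ∧ ∀ j, f j m = 0}.Infinite := by
  intro hfin
  apply hs
  apply Set.Finite.of_finite_fibers (fun m (j : J) => f j m)
  · refine (Set.Finite.pi hf).subset ?_
    rintro _ ⟨m, hm, rfl⟩ j -
    exact ⟨m, hm, rfl⟩
  · rintro _ ⟨m0, hm0, rfl⟩
    refine ((hfin.image (fun m => m0 + m))).subset ?_
    rintro m ⟨hm, he⟩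
    refine ⟨m - m0, ⟨s.sub_mem hm hm0, fun j => ?_⟩, add_sub_cancel m0 m⟩
    have e := congrFun (Set.mem_singleton_iff.1 he) j
    simp only at e
    rw [map_sub, e, sub_self]

/-- Fixed points of a group all of whose elements act with `p`-power order. -/
theorem fixp {p : ℕ} [Fact p.Prime] {R X : Type*} [Group R] [Finite X] [MulAction R X]
    (h : ∀ r : R, ∃ k : ℕ, ∀ x : X, r ^ p ^ k • x = x) :
    Nat.card X ≡ Nat.card (MulAction.fixedPoints R X) [MOD p] := by
  classical
  set P := (MulAction.toPermHom R X).range with hP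
  have hp : IsPGroup p P := by
    rintro ⟨g, r, rfl⟩
    obtain ⟨k, hk⟩ := h r
    refine ⟨k, Subtype.ext (Equiv.ext fun x => ?_)⟩
    have e : ((MulAction.toPermHom R X) r ^ p ^ k) x = x := by
      rw [← map_pow]; exact hk x
    exact e
  have h1 := hp.card_modEq_card_fixedPoints X
  have h2 : MulAction.fixedPoints P X = MulAction.fixedPoints R X := by
    ext x
    simp only [MulAction.mem_fixedPoints]
    constructor
    · intro hx r
      exact hx ⟨MulAction.toPermHom R X r, r, rfl⟩
    · rintro hx ⟨g, r, rfl⟩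
      exact hx r
  rwa [h2] at h1

/-- Fixed points in a quotient. -/
theorem fixq {p : ℕ} [Fact p.Prime] {R A : Type*} [Group R] [AddCommGroup A] [Finite A]
    [DistribMulAction R A] (hA : ∀ a : A, p • a = 0)
    (h : ∀ r : R, ∃ k : ℕ, ∀ x : A, r ^ p ^ k • x = x) (B : AddSubgroup A)
    (hB : ∀ r : R, ∀ x ∈ B, r • x ∈ B) (hne : B ≠ ⊤) :
    ∃ a, a ∉ B ∧ ∀ r : R, r • a - a ∈ B := by
  classical
  let _ : MulAction R (A ⧸ B) :=
    { smul := fun r => QuotientAddGroup.map B B (DistribSMul.toAddMonoidHom A r)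
        (fun x hx => hB r x hx)
      one_smul := by
        rintro ⟨a⟩
        exact congrArg (QuotientAddGroup.mk) (one_smul R a)
      mul_smul := by
        rintro r s ⟨a⟩
        exact congrArg (QuotientAddGroup.mk) (mul_smul r s a) }
  have hsm : ∀ (r : R) (a : A), r • (a : A ⧸ B) = ((r • a : A) : A ⧸ B) := fun r a => rfl
  have h1 := fixp (p := p) (R := R) (X := A ⧸ B) (by
    intro r
    obtain ⟨k, hk⟩ := h r
    refine ⟨k, ?_⟩
    rintro ⟨a⟩
    exact congrArg (QuotientAddGroup.mk) (hk a))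
  have hpos : 0 < p := (Fact.out : p.Prime).pos
  -- the cardinal of the quotient
  have hpd : p ∣ Nat.card (A ⧸ B) := by
    have : Nontrivial (A ⧸ B) := by
      obtain ⟨a, ha⟩ : ∃ a, a ∉ B := by
        by_contra hcon
        push Not at hcon
        exact hne (eq_top_iff.2 fun a _ => hcon a)
      exact ⟨⟨(a : A ⧸ B), 0, fun e => ha ((QuotientAddGroup.eq_zero_iff a).1 e)⟩⟩
    obtain ⟨x, hx⟩ := exists_ne (0 : A ⧸ B)
    have hx' : addOrderOf x = p := by
      apply addOrderOf_eq_prime _ hx
      obtain ⟨a, rfl⟩ := QuotientAddGroup.mk_surjective x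
      rw [← QuotientAddGroup.mk_nsmul, hA]; rfl
    rw [← hx']
    exact addOrderOf_dvd_natCard x
  have hz : (0 : A ⧸ B) ∈ MulAction.fixedPoints R (A ⧸ B) := by
    intro r
    have : r • ((0 : A) : A ⧸ B) = ((0 : A) : A ⧸ B) := by rw [hsm, smul_zero]
    exact this
  have h2 : p ∣ Nat.card (MulAction.fixedPoints R (A ⧸ B)) :=
    (Nat.modEq_zero_iff_dvd.1 (h1.symm.trans (Nat.modEq_zero_iff_dvd.2 hpd)))
  have h3 : 1 < Nat.card (MulAction.fixedPoints R (A ⧸ B)) := by
    have : Nonempty (MulAction.fixedPoints R (A ⧸ B)) := ⟨⟨0, hz⟩⟩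
    have h4 : 0 < Nat.card (MulAction.fixedPoints R (A ⧸ B)) := Nat.card_pos
    have h5 := Nat.le_of_dvd h4 h2
    have h6 := (Fact.out : p.Prime).one_lt
    omega
  have : Nontrivial (MulAction.fixedPoints R (A ⧸ B)) := Finite.one_lt_card_iff_nontrivial.1 h3
  obtain ⟨y, hy⟩ := exists_ne (⟨0, hz⟩ : MulAction.fixedPoints R (A ⧸ B))
  obtain ⟨a, ha⟩ := QuotientAddGroup.mk_surjective (y : A ⧸ B)
  refine ⟨a, fun haB => hy (Subtype.ext ?_), fun r => ?_⟩
  · rw [← ha]; exact (QuotientAddGroup.eq_zero_iff a).2 haB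
  · have e := y.2 r
    rw [← ha, hsm] at e
    have e2 := (QuotientAddGroup.eq.1 e)
    have e3 := B.neg_mem e2
    have e4 : -(-(r • a) + a) = r • a - a := by abel
    rwa [e4] at e3

end Fix

/-! ### The chain -/

/-- The ascending chain of iterated fixed points. -/
def Ch (R M : Type*) [Group R] [AddCommGroup M] [DistribMulAction R M] : ℕ → AddSubgroup M
  | 0 => ⊥
  | n + 1 =>
    { carrier := {m | ∀ r : R, r • m - m ∈ Ch R M n}
      add_mem' := by
        intro x y hx hy r
        have e : r • (x + y) - (x + y) = (r • x - x) + (r • y - y) := by rw [smul_add]; abel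
        rw [e]
        exact (Ch R M n).add_mem (hx r) (hy r)
      zero_mem' := by
        intro r
        rw [smul_zero, sub_zero]
        exact (Ch R M n).zero_mem
      neg_mem' := by
        intro x hx r
        have e : r • (-x) - (-x) = -(r • x - x) := by rw [smul_neg]; abel
        rw [e]
        exact (Ch R M n).neg_mem (hx r) }

section Chain
variable {R M : Type*} [Group R] [AddCommGroup M] [DistribMulAction R M]

theorem mem_Ch_succ {n : ℕ} {m : M} : m ∈ Ch R M (n + 1) ↔ ∀ r : R, r • m - m ∈ Ch R M n :=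
  Iff.rfl

theorem Ch_zero {m : M} : m ∈ Ch R M 0 ↔ m = 0 := AddSubgroup.mem_bot

theorem Ch_inv (n : ℕ) : ∀ r : R, ∀ m ∈ Ch R M n, r • m ∈ Ch R M n := by
  induction n with
  | zero =>
    intro r m hm
    rw [Ch_zero] at hm ⊢
    rw [hm, smul_zero]
  | succ n ih =>
    intro r m hm s
    have e : s • r • m - r • m = r • ((r⁻¹ * s * r) • m - m) := by
      rw [smul_sub, mul_smul, mul_smul, smul_inv_smul]
    rw [e]
    exact ih r _ (hm _)

theorem Ch_le_succ (n : ℕ) : Ch R M n ≤ Ch R M (n + 1) := by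
  intro m hm r
  exact (Ch R M n).sub_mem (Ch_inv n r m hm) hm

theorem Ch_mono {n k : ℕ} (h : n ≤ k) : Ch R M n ≤ Ch R M k :=
  monotone_nat_of_le_succ Ch_le_succ h

/-- A finite elementary abelian group with an action by a `p`-group. -/
theorem Ch_top {p : ℕ} [Fact p.Prime] [Finite M] (hA : ∀ a : M, p • a = 0)
    (h : ∀ r : R, ∃ k : ℕ, ∀ x : M, r ^ p ^ k • x = x) : ∃ n, Ch R M n = ⊤ := by
  by_contra hcon
  push Not at hcon
  have hlt : ∀ n, Ch R M n < Ch R M (n + 1) := by
    intro n
    refine lt_of_le_of_ne (Ch_le_succ n) fun e => ?_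
    obtain ⟨a, ha, ha'⟩ := fixq hA h (Ch R M n) (Ch_inv n) (hcon n)
    apply ha
    rw [e]
    exact ha'
  have hsm : StrictMono (Ch R M) := strictMono_nat_of_lt_succ hlt
  have hinj := hsm.injective
  have : Finite (AddSubgroup M) := inferInstance
  exact not_injective_infinite_finite _ hinj

end Chain

/-- The uniform bound for an infinite module. -/
theorem Ch_top' {p : ℕ} [Fact p.Prime] {R M : Type*} [Group R] [Finite R] [AddCommGroup M]
    [DistribMulAction R M] (hM : ∀ m : M, p • m = 0)
    (h : ∀ r : R, ∃ k : ℕ, ∀ x : M, r ^ p ^ k • x = x) : ∃ n, Ch R M n = ⊤ := by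
  classical
  set ρ : R →* AddMonoid.End M := DistribMulAction.toAddMonoidEnd R M with hρ
  have hρa : ∀ r m, ρ r m = r • m := fun r m => rfl
  have hpE : ∀ x : AddMonoid.End M, p • x = 0 := by
    intro x
    ext m
    change p • (x m) = 0
    exact hM _
  set A : AddSubgroup (AddMonoid.End M) := AddSubgroup.closure (Set.range ρ) with hA
  have hAfin : Finite A := by
    have : AddGroup.FG A := by
      rw [AddGroup.fg_iff_addSubgroup_fg]
      exact ⟨(Set.finite_range ρ).toFinset, by simp [hA]⟩
    apply AddCommGroup.finite_of_fg_isAddTorsion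
    intro x
    rw [isOfFinAddOrder_iff_nsmul_eq_zero]
    exact ⟨p, (Fact.out : p.Prime).pos, Subtype.ext (hpE x.1)⟩
  have hmulA : ∀ r : R, ∀ x ∈ A, ρ r * x ∈ A := by
    intro r x hx
    induction hx using AddSubgroup.closure_induction with
    | mem y hy =>
      obtain ⟨s, rfl⟩ := hy
      rw [← map_mul]
      exact AddSubgroup.subset_closure ⟨_, rfl⟩
    | zero => rw [mul_zero]; exact A.zero_mem
    | add u v _ _ hu hv => rw [mul_add]; exact A.add_mem hu hv
    | neg u _ hu => rw [mul_neg]; exact A.neg_mem hu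
  let _ : DistribMulAction R A :=
    { smul := fun r x => ⟨ρ r * x.1, hmulA r x.1 x.2⟩
      one_smul := fun x => Subtype.ext (by
        change ρ 1 * x.1 = x.1
        rw [map_one, one_mul])
      mul_smul := fun r s x => Subtype.ext (by
        change ρ (r * s) * x.1 = ρ r * (ρ s * x.1)
        rw [map_mul, mul_assoc])
      smul_zero := fun r => Subtype.ext (by
        change ρ r * 0 = 0
        rw [mul_zero])
      smul_add := fun r x y => Subtype.ext (by
        change ρ r * (x.1 + y.1) = ρ r * x.1 + ρ r * y.1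
        rw [mul_add]) }
  have hsm : ∀ (r : R) (x : A), ((r • x : A) : AddMonoid.End M) = ρ r * x.1 := fun r x => rfl
  obtain ⟨n, hn⟩ := Ch_top (p := p) (R := R) (M := A) (fun a => Subtype.ext (hpE a.1)) (by
    intro r
    obtain ⟨k, hk⟩ := h r
    refine ⟨k, fun x => Subtype.ext ?_⟩
    rw [hsm]
    have e : ρ (r ^ p ^ k) = 1 := by
      ext m
      exact hk m
    rw [e, one_mul])
  have key : ∀ i, ∀ x ∈ Ch R A i, ∀ m : M, x.1 m ∈ Ch R M i := by
    intro i
    induction i with
    | zero =>
      intro x hx m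
      rw [Ch_zero] at hx
      rw [hx]
      exact (Ch R M 0).zero_mem
    | succ i ih =>
      intro x hx m r
      have e := ih _ (hx r) m
      have e2 : ((r • x - x : A) : AddMonoid.End M) m = r • (x.1 m) - x.1 m := by
        rw [AddSubgroup.coe_sub, hsm]
        rfl
      rw [e2] at e
      exact e
  refine ⟨n, eq_top_iff.2 fun m _ => ?_⟩
  have h1 : (1 : AddMonoid.End M) ∈ A := by
    rw [← map_one ρ]
    exact AddSubgroup.subset_closure ⟨1, rfl⟩
  have h2 := key n ⟨1, h1⟩ (by rw [hn]; exact AddSubgroup.mem_top _) m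
  exact h2

end Pool.Agent.FourGp.FF.Qt
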