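import Pool.Agent.Lib.MP_fb3619_al.QQ.Iface
import Pool.Agent.Lib.MP_fb3619_al.BS.Sd
import Pool.Agent.Lib.MP_fb3619_al.AB.Upr

/-!
# MP_fb3619_al, board QQ, row NRM (paper 6): `D_a` normalises `N(Q)`
-/

set_option autoImplicit false

universe u

namespace Pool.Agent.FourGp.FF.Qt

open Pool.Agent.FourGp.FF.Bs (SD sd)

variable {G : Type u} [Group G] {K : Subgroup G} {a b c : G}

/-- Conjugation by an element of `F`. -/
theorem nrm_mi {f v s u : G} (hfK : f ∈ K) (hv : f * v = v * f) (hs : f * s = s * f)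
    (hu : Mi K v s u) : Mi K v s (f⁻¹ * u * f) :=
  AB.upr_mi hfK hv hs hu

theorem nrm_yy {Q : Subgroup G} (hQ : Ho K a b Q) {v s f u : G} (hf : f ∈ Fx K a b)
    (hv : f * v = v * f) (hs : f * s = s * f) (hu : u ∈ YY K v s Q) :
    f⁻¹ * u * f ∈ YY K v s Q := by
  refine ⟨nrm_mi (mem_Fx.1 hf).1 hv hs hu.1, ?_⟩
  intro e he
  have h1 : (f⁻¹)⁻¹ * e * f⁻¹ ∈ Q := hQ.nor f⁻¹ ((Fx K a b).inv_mem hf) e he
  have h2 := hu.2 _ h1
  rw [inv_inv] at h2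
  calc e * (f⁻¹ * u * f) = f⁻¹ * ((f * e * f⁻¹) * u) * f := by group
    _ = f⁻¹ * (u * (f * e * f⁻¹)) * f := by rw [h2]
    _ = (f⁻¹ * u * f) * e := by group

theorem nrm_cl {S : Set G} {f : G} (hS : ∀ x ∈ S, f⁻¹ * x * f ∈ S) {n : G}
    (hn : n ∈ Subgroup.closure S) : f⁻¹ * n * f ∈ Subgroup.closure S := by
  refine Subgroup.closure_induction (p := fun n _ => f⁻¹ * n * f ∈ Subgroup.closure S)
    ?_ ?_ ?_ ?_ hn
  · exact fun x hx => Subgroup.subset_closure (hS x hx)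
  · have e : f⁻¹ * 1 * f = 1 := by group
    rw [e]
    exact Subgroup.one_mem _
  · intro x y _ _ hx hy
    have e : f⁻¹ * (x * y) * f = (f⁻¹ * x * f) * (f⁻¹ * y * f) := by group
    rw [e]
    exact Subgroup.mul_mem _ hx hy
  · intro x _ hx
    have e : f⁻¹ * x⁻¹ * f = (f⁻¹ * x * f)⁻¹ := by group
    rw [e]
    exact Subgroup.inv_mem _ hx

/-- Row NRM. -/
theorem nrm : NrmS.{u} := by
  intro G _ K a b c h Q hQ
  have hFa : ∀ e ∈ Q, e * a = a * e := fun e he => (mem_Fx.1 (hQ.le he)).2.1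
  have hFb : ∀ e ∈ Q, e * b = b * e := fun e he => (mem_Fx.1 (hQ.le he)).2.2
  -- the centralizer of `Q`
  set L : Subgroup G := K ⊓ Subgroup.centralizer (Q : Set G) with hL
  have memL : ∀ {u : G}, u ∈ L ↔ u ∈ K ∧ ∀ e ∈ Q, e * u = u * e := by
    intro u
    rw [hL, Subgroup.mem_inf, Subgroup.mem_centralizer_iff]
    rfl
  have hLK : L ≤ K := inf_le_left
  have invL : ∀ z : G, z * z = 1 → (∀ e ∈ Q, e * z = z * e) → ∀ u ∈ L, z * u * z ∈ L := by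
    intro z hz hze u hu
    obtain ⟨h1, h2⟩ := memL.1 hu
    refine memL.2 ⟨h.cjmem hz h1, ?_⟩
    intro e he
    have c1 : Commute e z := hze e he
    have c2 : Commute e u := h2 e he
    exact (c1.mul_right c2).mul_right c1
  have hLV : VInv a b L := ⟨invL a h.aa hFa, invL b h.bb hFb⟩
  obtain ⟨Q', _, K', a', b', c', ι, hS⟩ := sd G K a b c h L hLK hLV
  obtain ⟨hU1, hU2⟩ := AB.upr Q' K' b' a' c' hS.fr.swap
  -- the image of `Uc`
  have hmap : (Uc K' b' a' c').map ι = NN K a b c Q := by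
    unfold Uc NN
    rw [MonoidHom.map_closure]
    congr 1
    have key : ∀ (v' : Q') (v : G), ι v' = v → ∀ u : G,
        (∃ u', Mi K' v' a' u' ∧ ι u' = u) ↔ u ∈ YY K v a Q := by
      intro v' v hv u
      constructor
      · rintro ⟨u', ⟨h1, h2⟩, rfl⟩
        obtain ⟨h3, h4⟩ := mem_Cz.1 h1
        have h5 := (hS.mem u').1 h3
        refine ⟨⟨mem_Cz.2 ⟨hLK h5, ?_⟩, ?_⟩, (memL.1 h5).2⟩
        · rw [← hv, ← map_mul, h4, map_mul]
        · rw [← hS.ea, ← map_mul, ← map_mul, h2, map_inv]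
      · rintro ⟨⟨h1, h2⟩, h3⟩
        obtain ⟨h4, h5⟩ := mem_Cz.1 h1
        obtain ⟨u', rfl⟩ := hS.sur u (memL.2 ⟨h4, h3⟩)
        refine ⟨u', ⟨mem_Cz.2 ⟨(hS.mem u').2 (memL.2 ⟨h4, h3⟩), ?_⟩, ?_⟩, rfl⟩
        · apply hS.inj
          rw [map_mul, map_mul, hv]
          exact h5
        · apply hS.inj
          rw [map_mul, map_mul, map_inv, hS.ea]
          exact h2
    ext u
    constructor
    · rintro ⟨u', hu' | hu', rfl⟩
      · exact Or.inl ((key b' b hS.eb _).1 ⟨u', hu', rfl⟩)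
      · exact Or.inr ((key c' c hS.ec _).1 ⟨u', hu', rfl⟩)
    · rintro (hu | hu)
      · obtain ⟨u', h1, h2⟩ := (key b' b hS.eb u).2 hu
        exact ⟨u', Or.inl h1, h2⟩
      · obtain ⟨u', h1, h2⟩ := (key c' c hS.ec u).2 hu
        exact ⟨u', Or.inr h1, h2⟩
  have hN : ∀ n, n ∈ NN K a b c Q ↔ ∃ n' ∈ Uc K' b' a' c', ι n' = n := by
    intro n
    rw [← hmap, Subgroup.mem_map]
  refine ⟨?_, ?_, ?_⟩
  · intro d hd n hn
    obtain ⟨w, s, hw, hs, e, h1, h2⟩ := h.dec (X := Cz K a) Fr.cz_le2 h.bb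
      (fun u hu => h.cz_inv2 hu) hd
    obtain ⟨hwK, hwa⟩ := mem_Cz.1 hw
    have hwF : w ∈ Fx K a b := mem_Fx.2 ⟨hwK, hwa, h1⟩
    have hwc : w * c = c * w := h.comm3 hwa h1
    -- `w` normalises
    have hwn : w⁻¹ * n * w ∈ NN K a b c Q := by
      refine nrm_cl ?_ hn
      rintro x (hx | hx)
      · exact Or.inl (nrm_yy hQ hwF h1 hwa hx)
      · exact Or.inr (nrm_yy hQ hwF hwc hwa hx)
    -- `s` commutes with `Q`
    have hsL : s ∈ L := memL.2 ⟨(mem_Cz.1 hs).1, fun e he => hQ.cen e he s ⟨hs, h2⟩⟩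
    obtain ⟨s', hs'⟩ := hS.sur s hsL
    obtain ⟨n', hn', hn2⟩ := (hN _).1 hwn
    have hs'K : s' ∈ K' := (hS.mem s').2 (by rw [hs']; exact hsL)
    refine (hN _).2 ⟨s'⁻¹ * n' * s', hU1 s' hs'K n' hn', ?_⟩
    rw [map_mul, map_mul, map_inv, hs', hn2, e]
    group
  · intro u hu
    obtain ⟨u', hu', rfl⟩ := (hN _).1 hu
    refine (hN _).2 ⟨a' * u' * a', hU2.2 u' hu', ?_⟩
    rw [map_mul, map_mul, hS.ea]
  · intro u hu
    obtain ⟨u', hu', rfl⟩ := (hN _).1 hu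
    refine (hN _).2 ⟨b' * u' * b', hU2.1 u' hu', ?_⟩
    rw [map_mul, map_mul, hS.eb]

end Pool.Agent.FourGp.FF.Qt
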