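import Pool.Agent.Lib.MP_fb3619_al.QQ.Base

/-!
# MP_fb3619_al, board QQ: row QD (paper 11)

The action of a homology group on `S` is trivial up to a finite set.
-/

set_option autoImplicit false

universe u

namespace Pool.Agent.FourGp.FF.Qt

open Pool.Agent.FourGp.H47 (Odd' inv_of_sq conj_inv_pow mul_inv_self odd_conj comm_of_inv
  mul_inv_self' comm_pow comm_inv conj_comm comm_conj)
open Pool.Agent.FourGp.H99 (LF)
open Pool.Agent.FourGp.FF.Abo
open Pool.Agent.FourGp.FF.Bs (Min0 MinC EeS)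
open Pool.Agent.FourGp.FF.Fr (fx_swap)

theorem qd_mi_inv {G : Type u} [Group G] {K : Subgroup G} {a b u : G} (h : Mi K a b u)
    (hb : b * b = 1) : Mi K a b u⁻¹ := by
  refine ⟨(Cz K a).inv_mem h.1, ?_⟩
  rw [cj_inv hb, h.2]

theorem qd (h1 : SaS.{u}) (h2 : GpS.{u}) (h3 : IsgS.{u}) : QdS.{u} := by
  intro G _ K a b c Q B X hX e he
  classical
  have h := B.fr
  set S := Subgroup.closure (Sg K b a Q X) with hS
  have hsa := h1 G K a b c Q B X hX
  have heF : e ∈ Fx K a b := B.ho.le he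
  -- `z` commutes with the isotropic elements
  have hcomm : ∀ t ∈ S, ∀ v ∈ Is K b a X e⁻¹,
      (t⁻¹ * (e⁻¹ * t * e)) * v = v * (t⁻¹ * (e⁻¹ * t * e)) := by
    intro t ht v hv
    obtain ⟨htX, htM, -, htS, -⟩ := hsa t ht
    have hs2 : v⁻¹ * (e * v * e⁻¹) ∈ S := by
      refine Subgroup.subset_closure ⟨v, e⁻¹, Q.inv_mem he, hv, ?_⟩
      group
    have htM' := qd_mi_inv htM h.aa
    obtain ⟨q, hqX, hqF, hq⟩ := hX.com v t⁻¹ hv.2.1 htM' (X.inv_mem htX)
    rw [inv_inv] at hq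
    have hqF' : q ∈ Fx K a b := by rw [← fx_swap]; exact hqF
    have hqc : ∀ u, Mi K b a u → q * u = u * q := fun u hu => hX.qi q hqX hqF u hu
    have ceq : e * q = q * e := ho_comm B.mc B.ho he hqF' hqc
    have cts : t * (v⁻¹ * (e * v * e⁻¹)) = (v⁻¹ * (e * v * e⁻¹)) * t := htS _ hs2
    have e1 : (e⁻¹ * t * e) * v * (e⁻¹ * t * e)⁻¹ = q * v := by
      calc (e⁻¹ * t * e) * v * (e⁻¹ * t * e)⁻¹
          = e⁻¹ * ((t * v * t⁻¹) * (t * (v⁻¹ * (e * v * e⁻¹)) * t⁻¹)) * e := by group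
        _ = e⁻¹ * ((q * v) * ((v⁻¹ * (e * v * e⁻¹)) * t * t⁻¹)) * e := by rw [hq, cts]
        _ = e⁻¹ * (q * e) * v := by group
        _ = e⁻¹ * (e * q) * v := by rw [ceq]
        _ = q * v := by group
    have e2 : (e⁻¹ * t * e) * v * (e⁻¹ * t * e)⁻¹ = t * v * t⁻¹ := by rw [e1, hq]
    calc (t⁻¹ * (e⁻¹ * t * e)) * v
        = t⁻¹ * ((e⁻¹ * t * e) * v * (e⁻¹ * t * e)⁻¹) * (e⁻¹ * t * e) := by group
      _ = t⁻¹ * (t * v * t⁻¹) * (e⁻¹ * t * e) := by rw [e2]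
      _ = v * (t⁻¹ * (e⁻¹ * t * e)) := by group
  -- the subgroup of finite index and representatives
  set X' := Subgroup.closure (Is K b a X e⁻¹) with hX'
  have hind : X'.relIndex (Cz K b) ≠ 0 := by
    refine h3 G K b a c h.swap ?_ X hX e⁻¹ ?_
    · rw [fx_swap]; exact B.mc.fin
    · rw [fx_swap]; exact (Fx K a b).inv_mem heF
  obtain ⟨R, hRf, hRM, hR⟩ := xs_rep (b := a) hind
  haveI : Finite R := hRf.to_subtype
  -- the elements of the set
  have hZ : ∀ z, z ∈ {z | ∃ t ∈ S, z = t⁻¹ * (e⁻¹ * t * e)} → z ∈ S ∧ ∀ x ∈ X', z * x = x * z := by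
    rintro z ⟨t, ht, rfl⟩
    refine ⟨S.mul_mem (S.inv_mem ht) ((hsa t ht).2.2.2.2 e heF), ?_⟩
    intro x hx
    have hle : X' ≤ Subgroup.centralizer {t⁻¹ * (e⁻¹ * t * e)} := by
      rw [hX', Subgroup.closure_le]
      intro v hv
      rw [SetLike.mem_coe, Subgroup.mem_centralizer_singleton_iff]
      exact (hcomm t ht v hv).symm
    exact (Subgroup.mem_centralizer_singleton_iff.1 (hle hx)).symm
  refine Set.Finite.of_injOn (t := {g : R → G | ∀ m, g m ∈ (Fx K a b : Set G)})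
    (f := fun z => fun m : R => z⁻¹ * m.1 * z * m.1⁻¹) ?_ ?_ ?_
  · intro z hz m
    obtain ⟨hzS, -⟩ := hZ z hz
    obtain ⟨hzX, hzM, -, -, -⟩ := hsa z hzS
    obtain ⟨q, -, hqF, hq⟩ := hX.com m.1 z (hRM m.1 m.2) hzM hzX
    have e1 : z⁻¹ * m.1 * z * m.1⁻¹ = q := by rw [hq]; group
    show z⁻¹ * m.1 * z * m.1⁻¹ ∈ (Fx K a b : Set G)
    rw [e1, SetLike.mem_coe, ← fx_swap]
    exact hqF
  · intro z hz z' hz' heq
    obtain ⟨hzS, hzc⟩ := hZ z hz
    obtain ⟨hzS', hzc'⟩ := hZ z' hz'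
    obtain ⟨hzX, hzM, hzN, -, -⟩ := hsa z hzS
    obtain ⟨hzX', hzM', hzN', -, -⟩ := hsa z' hzS'
    have hth : z' * z⁻¹ = 1 := by
      refine h2 G K a b c Q B (z' * z⁻¹) ((Cz K b).mul_mem hzM'.1 ((Cz K b).inv_mem hzM.1)) ?_ ?_
      · intro u hu
        obtain ⟨m, hm, hum⟩ := hR u hu
        have c1 : Commute z (u * m⁻¹) := hzc _ hum
        have c2 : Commute z' (u * m⁻¹) := hzc' _ hum
        have c3 : Commute (z' * z⁻¹) (u * m⁻¹) := c2.mul_left c1.inv_left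
        have e1 : z⁻¹ * m * z * m⁻¹ = z'⁻¹ * m * z' * m⁻¹ := congrFun heq ⟨m, hm⟩
        have e2 : z⁻¹ * m * z = z'⁻¹ * m * z' := mul_right_cancel e1
        have c4 : Commute (z' * z⁻¹) m := by
          show z' * z⁻¹ * m = m * (z' * z⁻¹)
          calc z' * z⁻¹ * m = z' * (z⁻¹ * m * z) * z⁻¹ := by group
            _ = z' * (z'⁻¹ * m * z') * z⁻¹ := by rw [e2]
            _ = m * (z' * z⁻¹) := by group
        have c5 := c3.mul_right c4
        have e3 : u * m⁻¹ * m = u := by group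
        rw [e3] at c5
        exact c5
      · intro n hn
        have c1 : Commute z n := hzN n hn
        have c2 : Commute z' n := hzN' n hn
        exact c2.mul_left c1.inv_left
    exact (mul_inv_eq_one.1 hth).symm
  · exact Set.Finite.pi' fun _ => B.mc.fin

end Pool.Agent.FourGp.FF.Qt
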