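import Pool.Agent.Lib.MP_fb3619_al.QQ.Iface
import Pool.Agent.Lib.MP_fb3619_al.PQ.Iso
import Pool.Agent.Lib.MP_fb3619_al.FF.Shu

/-!
# MP_fb3619_al, board QQ, rows XDX and ISG (paper 9)
-/

set_option autoImplicit false

universe u

namespace Pool.Agent.FourGp.FF.Qt

open Pool.Agent.FourGp.H47 (Odd' inv_of_sq conj_inv_pow mul_inv_self odd_conj comm_of_inv
  mul_inv_self' comm_pow comm_inv conj_comm comm_conj)
open Pool.Agent.FourGp.H99 (LF)
open Pool.Agent.FourGp.FF.Abo

namespace XdxR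

variable {G : Type u} [Group G] {K : Subgroup G} {a b c : G}

/-- A map of the form `x ↦ g⁻¹ x g` which maps generators into the closure maps the closure into
itself. -/
theorem cl_conj {S : Set G} {g : G} (hS : ∀ x ∈ S, g⁻¹ * x * g ∈ Subgroup.closure S) :
    ∀ x ∈ Subgroup.closure S, g⁻¹ * x * g ∈ Subgroup.closure S := by
  intro x hx
  induction hx using Subgroup.closure_induction with
  | mem x hx => exact hS x hx
  | one =>
    have e : g⁻¹ * 1 * g = 1 := by group
    rw [e]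
    exact Subgroup.one_mem _
  | mul x y _ _ h1 h2 =>
    have e : g⁻¹ * (x * y) * g = (g⁻¹ * x * g) * (g⁻¹ * y * g) := by group
    rw [e]
    exact Subgroup.mul_mem _ h1 h2
  | inv x _ h1 =>
    have e : g⁻¹ * x⁻¹ * g = (g⁻¹ * x * g)⁻¹ := by group
    rw [e]
    exact Subgroup.inv_mem _ h1

/-- The subgroup generated by the inverted elements is normal in `C_K(a)`. -/
theorem cl_nor (h : Fr K a b c) :
    ∀ d ∈ Cz K a, ∀ x ∈ Subgroup.closure {u | Mi K a b u},
      d⁻¹ * x * d ∈ Subgroup.closure {u | Mi K a b u} := by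
  intro d hd x hx
  obtain ⟨w, s, hw, hs, e, h1, h2⟩ := h.dec (X := Cz K a) cz_le h.bb
    (fun u hu => h.cz_inv h.bb h.cab.symm hu) hd
  have hwF : w ∈ Fx K a b := mem_Fx.2 ⟨(mem_Cz.1 hw).1, (mem_Cz.1 hw).2, h1⟩
  have hsM : s ∈ Subgroup.closure {u | Mi K a b u} := Subgroup.subset_closure ⟨hs, h2⟩
  have h3 : w⁻¹ * x * w ∈ Subgroup.closure {u | Mi K a b u} :=
    cl_conj (fun y hy => Subgroup.subset_closure (Pq.IsoR.mi_conj hwF hy)) x hx
  have e1 : d⁻¹ * x * d = s⁻¹ * (w⁻¹ * x * w) * s := by rw [e]; group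
  rw [e1]
  exact Subgroup.mul_mem _ (Subgroup.mul_mem _ (Subgroup.inv_mem _ hsM) h3) hsM

/-- ... and invariant under `b`. -/
theorem cl_inv (h : Fr K a b c) :
    ∀ x ∈ Subgroup.closure {u | Mi K a b u}, b * x * b ∈ Subgroup.closure {u | Mi K a b u} := by
  intro x hx
  have e : b * x * b = b⁻¹ * x * b := by rw [inv_of_sq h.bb]
  rw [e]
  refine cl_conj (g := b) ?_ x hx
  intro y hy
  have hy' : Mi K a b y := hy
  have e1 : b⁻¹ * y * b = y⁻¹ := by rw [inv_of_sq h.bb]; exact hy'.2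
  rw [e1]
  exact Subgroup.inv_mem _ (Subgroup.subset_closure hy)

/-- ... and of finite index. -/
theorem cl_ind (h : Fr K a b c) (hF : (Fx K a b : Set G).Finite) :
    (Subgroup.closure {u | Mi K a b u}).relIndex (Cz K a) ≠ 0 := by
  refine relIndex_of_cover (Fx K a b : Set G) hF ?_
  intro g hg
  obtain ⟨w, s, hw, hs, e, h1, h2⟩ := h.dec (X := Cz K a) cz_le h.bb
    (fun u hu => h.cz_inv h.bb h.cab.symm hu) ((Cz K a).inv_mem hg)
  have hwF : w ∈ Fx K a b := mem_Fx.2 ⟨(mem_Cz.1 hw).1, (mem_Cz.1 hw).2, h1⟩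
  refine ⟨w⁻¹, (Fx K a b).inv_mem hwF, ?_⟩
  have e1 : g * (w⁻¹)⁻¹ = s⁻¹ := by
    have : g = (w * s)⁻¹ := by rw [← e, inv_inv]
    rw [this]; group
  rw [e1]
  exact Subgroup.inv_mem _ (Subgroup.subset_closure ⟨hs, h2⟩)

/-- Elements commuting with all inverted elements commute with the closure. -/
theorem cl_com {e : G} (he : ∀ u, Mi K a b u → e * u = u * e) :
    ∀ x ∈ Subgroup.closure {u | Mi K a b u}, e * x = x * e := by
  intro x hx
  have h1 : Subgroup.closure {u | Mi K a b u} ≤ Subgroup.centralizer {e} := by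
    rw [Subgroup.closure_le]
    intro u hu
    exact Subgroup.mem_centralizer_singleton_iff.2 (he u hu).symm
  exact (Subgroup.mem_centralizer_singleton_iff.1 (h1 hx)).symm

end XdxR

open XdxR in
/-- **Row XDX.** -/
theorem xdx : XdxS.{u} := by
  intro G _ K a b c h hF
  obtain ⟨X, hX, hqi, hcom⟩ := xs_ex shu h hF
  refine ⟨X ⊓ Subgroup.closure {u | Mi K a b u}, ?_⟩
  exact
    { le := inf_le_left.trans hX.le
      ind := Subgroup.relIndex_inf_ne_zero hX.ind (cl_ind h hF)
      nor := fun d hd x hx => ⟨hX.nor d hd x hx.1, cl_nor h d hd x hx.2⟩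
      inv := fun x hx => ⟨hX.inv x hx.1, cl_inv h x hx.2⟩
      gen := inf_le_right
      qi := fun e he heF u hu => hqi e he.1 heF u hu
      com := by
        intro w u hw hu huX
        obtain ⟨e, he, heF, h1⟩ := hcom w u hw hu huX.1
        refine ⟨e, ⟨he, ?_⟩, heF, h1⟩
        have e1 : e = u⁻¹ * w * u * w⁻¹ := by rw [h1]; group
        rw [e1]
        have hu' : u ∈ Subgroup.closure {u | Mi K a b u} := Subgroup.subset_closure hu
        have hw' : w ∈ Subgroup.closure {u | Mi K a b u} := Subgroup.subset_closure hw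
        exact Subgroup.mul_mem _ (Subgroup.mul_mem _ (Subgroup.mul_mem _
          (Subgroup.inv_mem _ hu') hw') hu') (Subgroup.inv_mem _ hw') }

/-- The elements of `X ∩ F` commute with `X`. -/
theorem xd_cen {G : Type u} [Group G] {K : Subgroup G} {a b : G} {X : Subgroup G}
    (hX : XD K a b X) {e : G} (he : e ∈ X) (heF : e ∈ Fx K a b) :
    ∀ x ∈ X, e * x = x * e := fun x hx => XdxR.cl_com (hX.qi e he heF) x (hX.gen hx)

open XdxR in
/-- **Row ISG.** -/
theorem isg : IsgS.{u} := by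
  intro G _ K a b c h hF X hX g hg hY
  obtain ⟨u, huX, hu, h1, h2⟩ := Pq.iso G K a b c h hF g hg X hX.toXS hX.qi hX.com
    (fun e he heF f hf _ => xd_cen hX he heF f hf) (Subgroup.closure (Is K a b X g))
    (by
      rw [Subgroup.closure_le]
      rintro u ⟨hu, -, -⟩
      exact hu) hY
  exact h2 (Subgroup.subset_closure ⟨huX, hu, h1⟩)

end Pool.Agent.FourGp.FF.Qt
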