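import Pool.Agent.Lib.MP_fb3619_al.QQ.Base
import Pool.Agent.Lib.MP_fb3619_al.QQ.Xdx

/-!
# MP_fb3619_al, board QQ, row SA (paper 10)
-/

set_option autoImplicit false

universe u

namespace Pool.Agent.FourGp.FF.Qt

open Pool.Agent.FourGp.H47 (Odd' inv_of_sq conj_inv_pow mul_inv_self odd_conj comm_of_inv
  mul_inv_self' comm_pow comm_inv conj_comm comm_conj)
open Pool.Agent.FourGp.H99 (LF)
open Pool.Agent.FourGp.FF.Abo
open Pool.Agent.FourGp.FF.Bs (Min0 MinC EeS)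
open Pool.Agent.FourGp.FF.Fr (fx_swap)

namespace SaR

variable {G : Type u} [Group G] {K : Subgroup G} {a b c : G} {Q : Subgroup G}

theorem mi_inv {x : G} (hbb : b * b = 1) (hx : Mi K a b x) : Mi K a b x⁻¹ :=
  ⟨(Cz K a).inv_mem hx.1, by rw [cj_inv hbb, hx.2]⟩

/-- The generators lie in `X` and are inverted. -/
theorem gen_mem (B : Bad K a b c Q) {X : Subgroup G} (hX : XD K b a X) {u e : G} (he : e ∈ Q)
    (hu : u ∈ Is K b a X e) :
    u⁻¹ * (e⁻¹ * u * e) ∈ X ∧ Mi K b a (u⁻¹ * (e⁻¹ * u * e)) ∧ Mi K b a (e⁻¹ * u * e) := by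
  obtain ⟨huX, hui, huc⟩ := hu
  have h := B.fr
  have heF : e ∈ Fx K b a := by rw [fx_swap]; exact B.ho.le he
  have heZ : e ∈ Cz K b := mem_Cz.2 ⟨(mem_Fx.1 heF).1, (mem_Fx.1 heF).2.1⟩
  have h1 : Mi K b a (e⁻¹ * u * e) := Pq.IsoR.mi_conj heF hui
  refine ⟨X.mul_mem (X.inv_mem huX) (hX.nor e heZ u huX), ?_, h1⟩
  refine Pq.IsoR.mi_mul h.aa (mi_inv h.aa hui) h1 ?_
  have c1 : Commute u (e⁻¹ * u * e) := huc
  exact c1.inv_left.eq

/-- A generator commutes with the elements of `D_c⁻` which commute with `Q`. -/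
theorem gen_c (hEe : EeS.{u}) (B : Bad K a b c Q) {X : Subgroup G} (hX : XD K b a X) {u e : G}
    (he : e ∈ Q) (hu : u ∈ Is K b a X e) {y : G} (hy : y ∈ YY K c a Q) :
    (u⁻¹ * (e⁻¹ * u * e)) * y = y * (u⁻¹ * (e⁻¹ * u * e)) := by
  have h := B.fr
  obtain ⟨hyi, hyQ⟩ := hy
  obtain ⟨-, hs, -⟩ := gen_mem B hX he hu
  have hui : Mi K b a u := hu.2.1
  obtain ⟨hyK, hyc⟩ := mem_Cz.1 hyi.1
  obtain ⟨huK, hub⟩ := mem_Cz.1 hui.1
  have hkK : y⁻¹ * u * y ∈ K := K.mul_mem (K.mul_mem (K.inv_mem hyK) huK) hyK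
  obtain ⟨w, w0, hw, hw0, e1, h1, h2⟩ := h.dec (X := K) le_rfl h.aa
    (fun x hx => h.cjmem h.aa hx) hkK
  have hcu : c * u * c = u⁻¹ := (mi_c h.swap hui).2
  have hk : c * (y⁻¹ * u * y) * c = (y⁻¹ * u * y)⁻¹ := by
    rw [cj_conj h.cc hyc, hcu]; group
  have hwc : c * w * c = w⁻¹ := comp_inv h h.cc h.cac.symm hk hw0 e1 h1 h2
  have hwi : Mi K a b w := (mi_iff h).2 ⟨mem_Cz.2 ⟨hw, h1⟩, hwc⟩
  refine hEe G K a b c h e y u w w0 (B.ho.le he) hyi (hyQ e he).symm hui hs e1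
    (mem_Cz.2 ⟨hw, h1⟩) h2 (B.ho.cen e he w hwi).symm

/-- A generator commutes with the elements of `D_b⁻` which commute with `Q`. -/
theorem gen_b (B : Bad K a b c Q) {X : Subgroup G} (hX : XD K b a X) {u e : G}
    (he : e ∈ Q) (hu : u ∈ Is K b a X e) {y : G} (hy : y ∈ YY K b a Q) :
    (u⁻¹ * (e⁻¹ * u * e)) * y = y * (u⁻¹ * (e⁻¹ * u * e)) := by
  obtain ⟨hyi, hyQ⟩ := hy
  obtain ⟨-, -, hue⟩ := gen_mem B hX he hu
  obtain ⟨huX, hui, huc⟩ := hu
  obtain ⟨q, hq, hqF, h1⟩ := hX.com y u hyi hui huX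
  have hqc := hX.qi q hq hqF
  have c1 : Commute q u := hqc u hui
  have c2 : Commute q y := hqc y hyi
  have c3 : Commute e q := ho_comm B.mc B.ho he (by rw [← fx_swap]; exact hqF) hqc
  have c4 : Commute q (e⁻¹ * u * e) := hqc _ hue
  have c5 : Commute e y := hyQ e he
  have e2 : u * y * u⁻¹ = q⁻¹ * y := by
    have e3 : y = u * (q * y) * u⁻¹ := by rw [← h1]; group
    have e4 : u * (q * y) * u⁻¹ = q * (u * y * u⁻¹) := by
      calc u * (q * y) * u⁻¹ = (u * q) * y * u⁻¹ := by group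
        _ = (q * u) * y * u⁻¹ := by rw [c1.eq]
        _ = _ := by group
    calc u * y * u⁻¹ = q⁻¹ * (q * (u * y * u⁻¹)) := by group
      _ = q⁻¹ * y := by rw [← e4, ← e3]
  have e5 : (e⁻¹ * u * e)⁻¹ * y * (e⁻¹ * u * e) = q * y := by
    calc (e⁻¹ * u * e)⁻¹ * y * (e⁻¹ * u * e) = e⁻¹ * u⁻¹ * (e * y) * e⁻¹ * u * e := by group
      _ = e⁻¹ * u⁻¹ * (y * e) * e⁻¹ * u * e := by rw [c5.eq]
      _ = e⁻¹ * (u⁻¹ * y * u) * e := by group
      _ = e⁻¹ * (q * y) * e := by rw [h1]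
      _ = e⁻¹ * (q * y * e) := by group
      _ = e⁻¹ * (e * (q * y)) := by rw [(c3.mul_right c5).eq]
      _ = q * y := by group
  set s := u⁻¹ * (e⁻¹ * u * e) with hs
  have e6 : s⁻¹ * y * s = y := by
    calc s⁻¹ * y * s = (e⁻¹ * u * e)⁻¹ * (u * y * u⁻¹) * (e⁻¹ * u * e) := by rw [hs]; group
      _ = (e⁻¹ * u * e)⁻¹ * (q⁻¹ * y) * (e⁻¹ * u * e) := by rw [e2]
      _ = ((e⁻¹ * u * e)⁻¹ * q⁻¹) * y * (e⁻¹ * u * e) := by group
      _ = (q⁻¹ * (e⁻¹ * u * e)⁻¹) * y * (e⁻¹ * u * e) := by rw [c4.inv_inv.eq]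
      _ = q⁻¹ * ((e⁻¹ * u * e)⁻¹ * y * (e⁻¹ * u * e)) := by group
      _ = q⁻¹ * (q * y) := by rw [e5]
      _ = y := by group
  calc s * y = s * (s⁻¹ * y * s) := by rw [e6]
    _ = y * s := by group

/-- A generator commutes with `N(Q)`. -/
theorem gen_n (hEe : EeS.{u}) (B : Bad K a b c Q) {X : Subgroup G} (hX : XD K b a X) {s : G}
    (hs : s ∈ Sg K b a Q X) : ∀ n ∈ NN K a b c Q, s * n = n * s := by
  obtain ⟨u, e, he, hu, rfl⟩ := hs
  intro n hn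
  have h1 : NN K a b c Q ≤ Subgroup.centralizer {u⁻¹ * (e⁻¹ * u * e)} := by
    unfold NN
    rw [Subgroup.closure_le]
    rintro y (hy | hy)
    · exact Subgroup.mem_centralizer_singleton_iff.2 (gen_b B hX he hu hy).symm
    · exact Subgroup.mem_centralizer_singleton_iff.2 (gen_c hEe B hX he hu hy).symm
  exact (Subgroup.mem_centralizer_singleton_iff.1 (h1 hn)).symm

/-- The generators commute with each other. -/
theorem gen_comm (hEe : EeS.{u}) (hGp : GpS.{u}) (B : Bad K a b c Q) {X : Subgroup G}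
    (hX : XD K b a X) {s s' : G} (hs : s ∈ Sg K b a Q X) (hs' : s' ∈ Sg K b a Q X) :
    s * s' = s' * s := by
  have hn := gen_n hEe B hX hs
  have hn' := gen_n hEe B hX hs'
  obtain ⟨u, e, he, hu, rfl⟩ := hs
  obtain ⟨u', e', he', hu', rfl⟩ := hs'
  obtain ⟨-, hsi, -⟩ := gen_mem B hX he hu
  obtain ⟨hsX', hsi', -⟩ := gen_mem B hX he' hu'
  set s := u⁻¹ * (e⁻¹ * u * e)
  set s' := u'⁻¹ * (e'⁻¹ * u' * e')
  obtain ⟨q, hq, hqF, h1⟩ := hX.com s s' hsi hsi' hsX'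
  have hq1 : q = 1 := by
    refine hGp G K a b c Q B q ?_ (hX.qi q hq hqF) ?_
    · exact mem_Cz.2 ⟨(mem_Fx.1 hqF).1, (mem_Fx.1 hqF).2.1⟩
    · intro n hnn
      have c1 : Commute s n := hn n hnn
      have c2 : Commute s' n := hn' n hnn
      have e1 : q = s'⁻¹ * s * s' * s⁻¹ := by rw [h1]; group
      rw [e1]
      exact (((c2.inv_left.mul_left c1).mul_left c2).mul_left c1.inv_left).eq
  rw [hq1, one_mul] at h1
  calc s * s' = s' * (s'⁻¹ * s * s') := by group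
    _ = s' * s := by rw [h1]

end SaR

open SaR in
/-- **Row SA.** -/
theorem sa (h1 : EeS.{u}) (h2 : GpS.{u}) : SaS.{u} := by
  intro G _ K a b c Q B X hX
  have h := B.fr
  have hle : Subgroup.closure (Sg K b a Q X) ≤ X := by
    rw [Subgroup.closure_le]
    rintro _ ⟨u, e, he, hu, rfl⟩
    exact (gen_mem B hX he hu).1
  -- the closure is abelian
  have hab1 : ∀ s ∈ Sg K b a Q X, ∀ s' ∈ Subgroup.closure (Sg K b a Q X), s * s' = s' * s := by
    intro s hs s' hs'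
    have h3 : Subgroup.closure (Sg K b a Q X) ≤ Subgroup.centralizer {s} := by
      rw [Subgroup.closure_le]
      intro t ht
      exact Subgroup.mem_centralizer_singleton_iff.2 (gen_comm h1 h2 B hX ht hs)
    exact (Subgroup.mem_centralizer_singleton_iff.1 (h3 hs')).symm
  have hab : ∀ s ∈ Subgroup.closure (Sg K b a Q X), ∀ s' ∈ Subgroup.closure (Sg K b a Q X),
      s * s' = s' * s := by
    intro s hs s' hs'
    have h3 : Subgroup.closure (Sg K b a Q X) ≤ Subgroup.centralizer {s'} := by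
      rw [Subgroup.closure_le]
      intro t ht
      exact Subgroup.mem_centralizer_singleton_iff.2 (hab1 t ht s' hs')
    exact Subgroup.mem_centralizer_singleton_iff.1 (h3 hs)
  have hmi : ∀ s ∈ Subgroup.closure (Sg K b a Q X), Mi K b a s := by
    intro s hs
    induction hs using Subgroup.closure_induction with
    | mem x hx =>
      obtain ⟨u, e, he, hu, rfl⟩ := hx
      exact (gen_mem B hX he hu).2.1
    | one =>
      refine ⟨(Cz K b).one_mem, ?_⟩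
      rw [mul_one, h.aa, inv_one]
    | mul x y hx hy i1 i2 => exact Pq.IsoR.mi_mul h.aa i1 i2 (hab x hx y hy)
    | inv x _ i1 => exact mi_inv h.aa i1
  have hnn : ∀ s ∈ Subgroup.closure (Sg K b a Q X), ∀ n ∈ NN K a b c Q, s * n = n * s := by
    intro s hs n hn
    have h3 : Subgroup.closure (Sg K b a Q X) ≤ Subgroup.centralizer {n} := by
      rw [Subgroup.closure_le]
      intro t ht
      exact Subgroup.mem_centralizer_singleton_iff.2 (gen_n h1 B hX ht n hn)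
    exact Subgroup.mem_centralizer_singleton_iff.1 (h3 hs)
  intro s hs
  refine ⟨hle hs, hmi s hs, hnn s hs, hab s hs, ?_⟩
  intro f hf
  have hf' : f ∈ Fx K b a := by rw [fx_swap]; exact hf
  have hfZ : f ∈ Cz K b := mem_Cz.2 ⟨(mem_Fx.1 hf').1, (mem_Fx.1 hf').2.1⟩
  refine XdxR.cl_conj (g := f) ?_ s hs
  rintro _ ⟨u, e, he, ⟨huX, hui, huc⟩, rfl⟩
  refine Subgroup.subset_closure ⟨f⁻¹ * u * f, f⁻¹ * e * f, B.ho.nor f hf e he,
    ⟨hX.nor f hfZ u huX, Pq.IsoR.mi_conj hf' hui, ?_⟩, ?_⟩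
  · have e1 : (f⁻¹ * e * f)⁻¹ * (f⁻¹ * u * f) * (f⁻¹ * e * f) = f⁻¹ * (e⁻¹ * u * e) * f := by
      group
    rw [e1]
    calc (f⁻¹ * u * f) * (f⁻¹ * (e⁻¹ * u * e) * f) = f⁻¹ * (u * (e⁻¹ * u * e)) * f := by group
      _ = f⁻¹ * ((e⁻¹ * u * e) * u) * f := by rw [huc]
      _ = _ := by group
  · group

end Pool.Agent.FourGp.FF.Qt
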