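import Pool.Agent.Lib.MP_fb3619_al.QQ.Base

/-!
# MP_fb3619_al, board QQ, row SC (paper 13): the `p`-part of `S`
-/

set_option autoImplicit false

universe u

namespace Pool.Agent.FourGp.FF.Qt

open Pool.Agent.FourGp.FF.Abo
open Pool.Agent.FourGp.FF.Bs (Min0 MinC EeS)
open Pool.Agent.FourGp.FF.Fr (fx_swap)

/-- A finitely generated torsion abelian subgroup is finite. -/
theorem sc_fin {G : Type u} [Group G] {S : Subgroup G} (hS : ∀ x ∈ S, ∀ y ∈ S, x * y = y * x)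
    (htor : ∀ x ∈ S, ∃ n : ℕ, n ≠ 0 ∧ x ^ n = 1) {Z : Set G} (hZ : Z.Finite)
    (hZS : ∀ z ∈ Z, z ∈ S) : (Subgroup.closure Z : Set G).Finite := by
  have hle : Subgroup.closure Z ≤ S := (Subgroup.closure_le S).2 hZS
  letI : CommGroup (Subgroup.closure Z) :=
    { (inferInstance : Group (Subgroup.closure Z)) with
      mul_comm := fun x y => Subtype.ext (hS x (hle x.2) y (hle y.2)) }
  haveI : Group.FG (Subgroup.closure Z) :=
    (Group.fg_iff_subgroup_fg _).2 ⟨hZ.toFinset, by rw [hZ.coe_toFinset]⟩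
  have ht : Monoid.IsTorsion (Subgroup.closure Z) := by
    intro x
    obtain ⟨n, hn, h1⟩ := htor x (hle x.2)
    rw [isOfFinOrder_iff_pow_eq_one]
    exact ⟨n, Nat.pos_of_ne_zero hn, Subtype.ext (by simpa using h1)⟩
  haveI := CommGroup.finite_of_fg_torsion (Subgroup.closure Z) ht
  exact Set.toFinite _

/-- The abstract counting argument. -/
theorem sc_abs {G : Type u} [Group G] {S : Subgroup G} (hS : ∀ x ∈ S, ∀ y ∈ S, x * y = y * x)
    (htor : ∀ x ∈ S, ∃ n : ℕ, n ≠ 0 ∧ x ^ n = 1) {Q : Set G} (hQ : Q.Finite)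
    (hQS : ∀ e ∈ Q, ∀ t ∈ S, e⁻¹ * t * e ∈ S)
    (hfin : ∀ e ∈ Q, {z | ∃ t ∈ S, z = t⁻¹ * (e⁻¹ * t * e)}.Finite) {T : Set G}
    (hTS : ∀ t ∈ T, t ∈ S) (hTi : T.Infinite) (p : ℕ)
    (hp : ∀ t ∈ T, t ^ p ∈ Subgroup.closure {z | ∃ e ∈ Q, ∃ t ∈ S, z = t⁻¹ * (e⁻¹ * t * e)}) :
    {t | (t ∈ Subgroup.closure T ∧ t ^ p = 1) ∧ ∀ e ∈ Q, e * t = t * e}.Infinite := by
  classical
  intro hD
  set Zs : Set G := {z | ∃ e ∈ Q, ∃ t ∈ S, z = t⁻¹ * (e⁻¹ * t * e)} with hZs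
  have hZfin : Zs.Finite := by
    refine (hQ.biUnion hfin).subset ?_
    rintro z ⟨e, he, t, ht, rfl⟩
    exact Set.mem_biUnion he ⟨t, ht, rfl⟩
  have hZS : ∀ z ∈ Zs, z ∈ S := by
    rintro z ⟨e, he, t, ht, rfl⟩
    exact S.mul_mem (S.inv_mem ht) (hQS e he t ht)
  have hΦ : (Subgroup.closure Zs : Set G).Finite := sc_fin hS htor hZfin hZS
  have hTS' : Subgroup.closure T ≤ S := (Subgroup.closure_le S).2 hTS
  have hpow : ∀ t ∈ Subgroup.closure T, t ^ p ∈ Subgroup.closure Zs := by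
    intro t ht
    refine Subgroup.closure_induction (p := fun t _ => t ^ p ∈ Subgroup.closure Zs)
      (fun x hx => hp x hx) ?_ ?_ ?_ ht
    · rw [one_pow]
      exact Subgroup.one_mem _
    · intro x y hx hy h1 h2
      have c1 : Commute x y := hS x (hTS' hx) y (hTS' hy)
      rw [c1.mul_pow]
      exact Subgroup.mul_mem _ h1 h2
    · intro x _ h1
      rw [inv_pow]
      exact Subgroup.inv_mem _ h1
  haveI : Finite Q := hQ
  let f : G → G × (Q → G) := fun t => (t ^ p, fun e => t⁻¹ * ((e : G)⁻¹ * t * e))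
  have himg : (f '' (Subgroup.closure T : Set G)).Finite := by
    refine (hΦ.prod (Set.Finite.pi' (fun e : Q => hfin e.1 e.2))).subset ?_
    rintro _ ⟨t, ht, rfl⟩
    exact ⟨hpow t ht, fun e => ⟨t, hTS' ht, rfl⟩⟩
  refine hTi ((Set.Finite.of_finite_fibers (s := (Subgroup.closure T : Set G)) f himg ?_).subset
    Subgroup.subset_closure)
  rintro _ ⟨x, hx, rfl⟩
  refine (hD.image (fun d => x * d)).subset ?_
  rintro y ⟨hy, hyx⟩
  have hxS := hTS' hx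
  have hyS := hTS' hy
  have e1 : y ^ p = x ^ p := congrArg Prod.fst hyx
  have e2 : ∀ e ∈ Q, y⁻¹ * (e⁻¹ * y * e) = x⁻¹ * (e⁻¹ * x * e) := fun e he =>
    congrFun (congrArg Prod.snd hyx) ⟨e, he⟩
  refine ⟨x⁻¹ * y, ⟨⟨Subgroup.mul_mem _ (Subgroup.inv_mem _ hx) hy, ?_⟩, ?_⟩, ?_⟩
  · have c1 : Commute x⁻¹ y := by
      have c : Commute x y := hS x hxS y hyS
      exact c.inv_left
    rw [c1.mul_pow, e1, inv_pow, inv_mul_cancel]
  · intro e he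
    have h3 := e2 e he
    set z := x⁻¹ * (e⁻¹ * x * e) with hz
    have hzS : z ∈ S := S.mul_mem (S.inv_mem hxS) (hQS e he x hxS)
    have h4 : e⁻¹ * x * e = x * z := by rw [hz]; group
    have h5 : e⁻¹ * y * e = y * z := by rw [← h3]; group
    have h6 : e⁻¹ * (x⁻¹ * y) * e = x⁻¹ * y := by
      have c1 : Commute (x⁻¹ * y) z := hS _ (S.mul_mem (S.inv_mem hxS) hyS) z hzS
      calc e⁻¹ * (x⁻¹ * y) * e = (e⁻¹ * x * e)⁻¹ * (e⁻¹ * y * e) := by group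
        _ = (x * z)⁻¹ * (y * z) := by rw [h4, h5]
        _ = z⁻¹ * ((x⁻¹ * y) * z) := by group
        _ = z⁻¹ * (z * (x⁻¹ * y)) := by rw [c1.eq]
        _ = x⁻¹ * y := by group
    calc e * (x⁻¹ * y) = e * (e⁻¹ * (x⁻¹ * y) * e) := by rw [h6]
      _ = x⁻¹ * y * e := by group
  · simp

/-- The `p`-th power of a generator. -/
theorem sc_pow {G : Type u} [Group G] {S Q : Subgroup G}
    (hS : ∀ x ∈ S, ∀ y ∈ S, x * y = y * x) (hQS : ∀ e ∈ Q, ∀ t ∈ S, e⁻¹ * t * e ∈ S)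
    {u e t : G} (he : e ∈ Q) (htS : t ∈ S) (ht : t = u⁻¹ * (e⁻¹ * u * e)) {p : ℕ}
    (hep : e ^ p = 1) :
    t ^ p ∈ Subgroup.closure {z | ∃ e ∈ (Q : Set G), ∃ t ∈ S, z = t⁻¹ * (e⁻¹ * t * e)} := by
  set Φ := Subgroup.closure {z | ∃ e ∈ (Q : Set G), ∃ t ∈ S, z = t⁻¹ * (e⁻¹ * t * e)} with hΦ
  have hΦS : Φ ≤ S := by
    refine (Subgroup.closure_le S).2 ?_
    rintro z ⟨e, he, t, ht, rfl⟩
    exact S.mul_mem (S.inv_mem ht) (hQS e he t ht)
  have key : ∀ n : ℕ, ∃ z ∈ Φ, u⁻¹ * ((e ^ n)⁻¹ * u * e ^ n) = t ^ n * z := by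
    intro n
    induction n with
    | zero => exact ⟨1, Φ.one_mem, by simp⟩
    | succ n ih =>
      obtain ⟨z, hz, h1⟩ := ih
      have h2 : t⁻¹ * ((e ^ n)⁻¹ * t * e ^ n) ∈ Φ :=
        Subgroup.subset_closure ⟨e ^ n, Q.pow_mem he n, t, htS, rfl⟩
      refine ⟨z * (t⁻¹ * ((e ^ n)⁻¹ * t * e ^ n)), Φ.mul_mem hz h2, ?_⟩
      have c1 : z * t = t * z := hS z (hΦS hz) t htS
      calc u⁻¹ * ((e ^ (n + 1))⁻¹ * u * e ^ (n + 1))
          = (u⁻¹ * ((e ^ n)⁻¹ * u * e ^ n)) *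
            ((e ^ n)⁻¹ * (u⁻¹ * (e⁻¹ * u * e)) * e ^ n) := by
            rw [pow_succ']; group
        _ = (t ^ n * z) * ((e ^ n)⁻¹ * t * e ^ n) := by rw [h1, ← ht]
        _ = t ^ n * (z * t) * (t⁻¹ * ((e ^ n)⁻¹ * t * e ^ n)) := by group
        _ = t ^ n * (t * z) * (t⁻¹ * ((e ^ n)⁻¹ * t * e ^ n)) := by rw [c1]
        _ = t ^ (n + 1) * (z * (t⁻¹ * ((e ^ n)⁻¹ * t * e ^ n))) := by
            rw [pow_succ]; simp only [mul_assoc]
  obtain ⟨z, hz, h1⟩ := key p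
  rw [hep] at h1
  have h2 : t ^ p = z⁻¹ := by
    have : t ^ p * z = 1 := by rw [← h1]; group
    exact eq_inv_of_mul_eq_one_left this
  rw [h2]
  exact Φ.inv_mem hz

/-- Conjugation by `F` preserves the inverted elements. -/
theorem sc_mi {G : Type u} [Group G] {K : Subgroup G} {a b f u : G}
    (hf : f ∈ K ∧ f * a = a * f ∧ f * b = b * f) (hu : Mi K a b u) : Mi K a b (f⁻¹ * u * f) := by
  obtain ⟨hfK, ha, hb⟩ := hf
  obtain ⟨hu1, hu2⟩ := hu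
  obtain ⟨huK, hua⟩ := mem_Cz.1 hu1
  have c1 : Commute f a := ha
  have c2 : Commute u a := hua
  have c3 : Commute f b := hb
  refine ⟨mem_Cz.2 ⟨K.mul_mem (K.mul_mem (K.inv_mem hfK) huK) hfK, ?_⟩, ?_⟩
  · exact ((c1.inv_left.mul_left c2).mul_left c1).eq
  · calc b * (f⁻¹ * u * f) * b = (b * f⁻¹) * u * (f * b) := by group
      _ = (f⁻¹ * b) * u * (b * f) := by rw [c3.inv_left.eq, hb]
      _ = f⁻¹ * (b * u * b) * f := by group
      _ = (f⁻¹ * u * f)⁻¹ := by rw [hu2]; group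

/-- Row SC. -/
theorem sc (h1 : SaS.{u}) (h2 : QdS.{u}) (h3 : SiS.{u}) : ScS.{u} := by
  rintro G _ K a b c Q B X hX p hp ⟨e0, he0, he01, he0p⟩
  have h := B.fr
  have hSA := h1 G K a b c Q B X hX
  set S := Subgroup.closure (Sg K b a Q X) with hSdef
  have hS : ∀ x ∈ S, ∀ y ∈ S, x * y = y * x := fun x hx y hy => (hSA x hx).2.2.2.1 y hy
  have hSK : ∀ x ∈ S, x ∈ K := fun x hx => (mem_Cz.1 (hSA x hx).2.1.1).1
  have htor : ∀ x ∈ S, ∃ n : ℕ, n ≠ 0 ∧ x ^ n = 1 := by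
    intro x hx
    obtain ⟨n, hn⟩ := h.odd x (hSK x hx)
    exact ⟨2 * n + 1, by omega, hn⟩
  have hFS : ∀ f ∈ Fx K a b, ∀ s ∈ S, f⁻¹ * s * f ∈ S := fun f hf s hs => (hSA s hs).2.2.2.2 f hf
  have hQS : ∀ e ∈ (Q : Set G), ∀ t ∈ S, e⁻¹ * t * e ∈ S := fun e he t ht =>
    hFS e (B.ho.le he) t ht
  have hQf : (Q : Set G).Finite := B.mc.fin.subset B.ho.le
  -- the generators
  set T : Set G := {s | ∃ u e, (e ∈ Q ∧ e ^ p = 1) ∧ u ∈ Is K b a X e ∧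
    s = u⁻¹ * (e⁻¹ * u * e)} with hT
  have hTS : ∀ t ∈ T, t ∈ S := by
    rintro t ⟨u, e, ⟨he, -⟩, hu, rfl⟩
    exact Subgroup.subset_closure ⟨u, e, he, hu, rfl⟩
  have hTi : T.Infinite := by
    refine (h3 G K a b c Q B X hX e0 he0 he01).mono ?_
    rintro s ⟨u, hu, rfl⟩
    exact ⟨u, e0, ⟨he0, he0p⟩, hu, rfl⟩
  have hTS' : Subgroup.closure T ≤ S := (Subgroup.closure_le S).2 hTS
  have hinf := sc_abs hS htor hQf hQS (fun e he => h2 G K a b c Q B X hX e he) hTS hTi p (by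
    rintro t ⟨u, e, ⟨he, hep⟩, hu, ht⟩
    exact sc_pow hS hQS he (hTS t ⟨u, e, ⟨he, hep⟩, hu, ht⟩) ht hep)
  -- conjugation by `F`
  have hFT : ∀ f ∈ Fx K a b, ∀ s ∈ Subgroup.closure T, f⁻¹ * s * f ∈ Subgroup.closure T := by
    intro f hf s hs
    have hfb : f ∈ Fx K b a := by rw [fx_swap]; exact hf
    obtain ⟨hfK, hfa, hfb'⟩ := mem_Fx.1 hf
    refine Subgroup.closure_induction (p := fun s _ => f⁻¹ * s * f ∈ Subgroup.closure T)
      ?_ ?_ ?_ ?_ hs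
    · rintro s ⟨u, e, ⟨he, hep⟩, ⟨hu1, hu2, hu3⟩, rfl⟩
      refine Subgroup.subset_closure ⟨f⁻¹ * u * f, f⁻¹ * e * f, ⟨B.ho.nor f hf e he, ?_⟩,
        ⟨?_, ?_, ?_⟩, by group⟩
      · have : ∀ n : ℕ, (f⁻¹ * e * f) ^ n = f⁻¹ * e ^ n * f := by
          intro n
          induction n with
          | zero => simp
          | succ n ih => rw [pow_succ, ih, pow_succ]; group
        rw [this, hep]; group
      · exact hX.nor f (mem_Cz.2 ⟨hfK, hfb'⟩) u hu1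
      · exact sc_mi (mem_Fx.1 hfb) hu2
      · have e1 : (f⁻¹ * e * f)⁻¹ * (f⁻¹ * u * f) * (f⁻¹ * e * f) = f⁻¹ * (e⁻¹ * u * e) * f := by
          group
        rw [e1]
        calc f⁻¹ * u * f * (f⁻¹ * (e⁻¹ * u * e) * f) = f⁻¹ * (u * (e⁻¹ * u * e)) * f := by group
          _ = f⁻¹ * ((e⁻¹ * u * e) * u) * f := by rw [hu3]
          _ = f⁻¹ * (e⁻¹ * u * e) * f * (f⁻¹ * u * f) := by group
    · have : f⁻¹ * 1 * f = 1 := by group
      rw [this]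
      exact Subgroup.one_mem _
    · intro x y _ _ hx hy
      have : f⁻¹ * (x * y) * f = (f⁻¹ * x * f) * (f⁻¹ * y * f) := by group
      rw [this]
      exact Subgroup.mul_mem _ hx hy
    · intro x _ hx
      have : f⁻¹ * x⁻¹ * f = (f⁻¹ * x * f)⁻¹ := by group
      rw [this]
      exact Subgroup.inv_mem _ hx
  -- the subgroup
  let E : Subgroup G :=
    { carrier := {t | t ∈ Subgroup.closure T ∧ t ^ p = 1}
      one_mem' := ⟨Subgroup.one_mem _, one_pow p⟩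
      mul_mem' := by
        rintro x y ⟨hx, hx1⟩ ⟨hy, hy1⟩
        have c1 : Commute x y := hS x (hTS' hx) y (hTS' hy)
        exact ⟨Subgroup.mul_mem _ hx hy, by rw [c1.mul_pow, hx1, hy1, one_mul]⟩
      inv_mem' := by
        rintro x ⟨hx, hx1⟩
        exact ⟨Subgroup.inv_mem _ hx, by rw [inv_pow, hx1, inv_one]⟩ }
  have hE : ∀ t, t ∈ E ↔ t ∈ Subgroup.closure T ∧ t ^ p = 1 := fun t => Iff.rfl
  have hES : ∀ t ∈ E, t ∈ S := fun t ht => hTS' ((hE t).1 ht).1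
  refine ⟨E, ?_, ?_, ?_, ?_, ?_, ?_, ?_⟩
  · exact fun t ht => (hSA t (hES t ht)).2.1
  · exact fun t ht t' ht' => hS t (hES t ht) t' (hES t' ht')
  · exact fun t ht => ((hE t).1 ht).2
  · exact fun t ht n hn => (hSA t (hES t ht)).2.2.1 n hn
  · intro f hf t ht
    obtain ⟨ht1, ht2⟩ := (hE t).1 ht
    refine (hE _).2 ⟨hFT f hf t ht1, ?_⟩
    have : ∀ n : ℕ, (f⁻¹ * t * f) ^ n = f⁻¹ * t ^ n * f := by
      intro n
      induction n with
      | zero => simp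
      | succ n ih => rw [pow_succ, ih, pow_succ]; group
    rw [this, ht2]; group
  · intro t ht m hm
    obtain ⟨q, hqX, hqF, hq⟩ := hX.com m t hm (hSA t (hES t ht)).2.1 (hSA t (hES t ht)).1
    exact ⟨q, by rw [← fx_swap]; exact hqF, fun u hu => hX.qi q hqX hqF u hu, hq⟩
  · exact hinf

end Pool.Agent.FourGp.FF.Qt
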