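import Pool.Agent.Lib.MP_fb3619_al.QQ.Base

/-!
# MP_fb3619_al, board QQ, row ST: a homology group with centre `b` (paper 14)
-/

set_option autoImplicit false

universe u

namespace Pool.Agent.FourGp.FF.Qt

open Pool.Agent.FourGp.H47 (Odd' inv_of_sq conj_inv_pow mul_inv_self odd_conj comm_of_inv
  mul_inv_self' comm_pow comm_inv conj_comm comm_conj)
open Pool.Agent.FourGp.H99 (LF)
open Pool.Agent.FourGp.FF.Abo
open Pool.Agent.FourGp.FF.Bs (Min0 MinC EeS)
open Pool.Agent.FourGp.FF.Fr (fx_swap)

/-- A finite group of exponent `p` acting by conjugation on an infinite elementary abelian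
`p`-group has infinitely many fixed points. -/
theorem st_fix (hF : FxpS.{u}) {G : Type u} [Group G] (p : ℕ) (hp : p.Prime) (E Q : Subgroup G)
    (hE : Infinite E) (hQ : Finite Q) (hc : ∀ t ∈ E, ∀ t' ∈ E, t * t' = t' * t)
    (he : ∀ t ∈ E, t ^ p = 1) (hq : ∀ q ∈ Q, q ^ p = 1)
    (hn : ∀ q ∈ Q, ∀ t ∈ E, q * t * q⁻¹ ∈ E) :
    {t | t ∈ E ∧ ∀ q ∈ Q, q * t = t * q}.Infinite := by
  let cg : CommGroup E :=
    { (inferInstance : Group E) with mul_comm := fun x y => Subtype.ext (hc x x.2 y y.2) }
  let act : DistribMulAction Q (Additive E) :=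
    { smul := fun q x => Additive.ofMul
        (⟨(q : G) * ((Additive.toMul x : E) : G) * (q : G)⁻¹, hn q q.2 _ (Additive.toMul x).2⟩ : E)
      one_smul := by
        intro x
        refine congrArg Additive.ofMul (Subtype.ext ?_)
        show ((1 : Q) : G) * _ * ((1 : Q) : G)⁻¹ = _
        rw [OneMemClass.coe_one, one_mul, inv_one, mul_one]
        rfl
      mul_smul := by
        intro q r x
        refine congrArg Additive.ofMul (Subtype.ext ?_)
        show ((q * r : Q) : G) * _ * ((q * r : Q) : G)⁻¹ = _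
        rw [Subgroup.coe_mul]
        show (q : G) * r * _ * ((q : G) * r)⁻¹ = (q : G) * ((r : G) * _ * (r : G)⁻¹) * (q : G)⁻¹
        group
      smul_zero := by
        intro q
        refine congrArg Additive.ofMul (Subtype.ext ?_)
        show (q : G) * ((1 : E) : G) * (q : G)⁻¹ = 1
        rw [OneMemClass.coe_one, mul_one, mul_inv_cancel]
      smul_add := by
        intro q x y
        refine congrArg Additive.ofMul (Subtype.ext ?_)
        show (q : G) * (((Additive.toMul x : E) : G) * ((Additive.toMul y : E) : G)) * (q : G)⁻¹ =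
          ((q : G) * ((Additive.toMul x : E) : G) * (q : G)⁻¹) *
          ((q : G) * ((Additive.toMul y : E) : G) * (q : G)⁻¹)
        group }
  have key := hF p hp (Additive E) Q (by
      intro m
      refine congrArg Additive.ofMul (Subtype.ext ?_ : (Additive.toMul m : E) ^ p = 1)
      show (((Additive.toMul m : E) ^ p : E) : G) = 1
      rw [Subgroup.coe_pow]
      exact he _ (Additive.toMul m).2) (by
      exact Infinite.of_injective (fun x : E => Additive.ofMul x)
        (fun x y hxy => congrArg Additive.toMul hxy)) (by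
      intro h
      refine ⟨1, fun m => ?_⟩
      have e1 : h ^ (p ^ 1) = 1 := by
        rw [pow_one]
        exact Subtype.ext (hq h h.2)
      rw [e1]
      exact one_smul Q m)
  intro hfin
  refine key ?_
  have h2 : ((fun m : Additive E => ((Additive.toMul m : E) : G)) ''
      {m : Additive E | ∀ h : Q, h • m = m}).Finite := by
    refine hfin.subset ?_
    rintro _ ⟨m, hm, rfl⟩
    refine ⟨(Additive.toMul m).2, fun q hq' => ?_⟩
    have h3 : (q : G) * ((Additive.toMul m : E) : G) * q⁻¹ = ((Additive.toMul m : E) : G) :=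
      congrArg (fun z : Additive E => ((Additive.toMul z : E) : G)) (hm ⟨q, hq'⟩)
    calc q * ((Additive.toMul m : E) : G) = q * ((Additive.toMul m : E) : G) * q⁻¹ * q := by group
      _ = ((Additive.toMul m : E) : G) * q := by rw [h3]
  refine Set.Finite.of_finite_image h2 ?_
  intro x _ y _ hxy
  exact congrArg Additive.ofMul (Subtype.ext hxy)

variable {G : Type u} [Group G] {K : Subgroup G} {a b c : G}

/-- `F` permutes the elements of `D_b⁻`. -/
theorem st_mi {f m : G} (hf : f ∈ Fx K b a) (hm : Mi K b a m) : Mi K b a (f⁻¹ * m * f) := by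
  obtain ⟨hK, hb, ha⟩ := mem_Fx.1 hf
  obtain ⟨hm1, hm2⟩ := hm
  obtain ⟨hmK, hmb⟩ := mem_Cz.1 hm1
  have c1 : Commute f b := hb
  have c2 : Commute f a := ha
  have c3 : Commute m b := hmb
  refine ⟨mem_Cz.2 ⟨K.mul_mem (K.mul_mem (K.inv_mem hK) hmK) hK, ?_⟩, ?_⟩
  · exact ((c1.inv_left.mul_left c3).mul_left c1).eq
  · calc a * (f⁻¹ * m * f) * a = (a * f⁻¹) * m * (f * a) := by group
      _ = (f⁻¹ * a) * m * (a * f) := by rw [c2.inv_left.eq, c2.eq]
      _ = f⁻¹ * (a * m * a) * f := by group
      _ = (f⁻¹ * m * f)⁻¹ := by rw [hm2]; group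

/-- The generators of `Q'`. -/
def StG (K E : Subgroup G) (a b : G) : Set G :=
  {q | ∃ t ∈ E, ∃ m, Mi K b a m ∧ q = t⁻¹ * m * t * m⁻¹}

theorem st (h1 : GpS.{u}) (h2 : FxpS.{u}) : StS.{u} := by
  intro G _ K a b c Q B p hp E E' hE hE'
  have h := B.fr
  -- generators
  have gen : ∀ q ∈ StG K E a b, q ∈ Fx K b a ∧ ∀ u, Mi K b a u → q * u = u * q := by
    rintro q ⟨t, ht, m, hm, rfl⟩
    obtain ⟨q, hq, hq', e1⟩ := hE.cm t ht m hm
    have e2 : t⁻¹ * m * t * m⁻¹ = q := by rw [e1]; group
    rw [e2]
    exact ⟨by rw [fx_swap]; exact hq, hq'⟩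
  have hle : Subgroup.closure (StG K E a b) ≤ Fx K b a := by
    rw [Subgroup.closure_le]
    exact fun q hq => (gen q hq).1
  have hcen : ∀ e ∈ Subgroup.closure (StG K E a b), ∀ u, Mi K b a u → e * u = u * e := by
    intro e he
    induction he using Subgroup.closure_induction with
    | mem x hx => exact (gen x hx).2
    | one => intro u _; rw [one_mul, mul_one]
    | mul x y _ _ hx hy =>
      intro u hu
      rw [mul_assoc, hy u hu, ← mul_assoc, hx u hu, mul_assoc]
    | inv x _ hx =>
      intro u hu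
      have c1 : Commute x u := hx u hu
      exact c1.inv_left
  have hpow : ∀ q ∈ StG K E a b, q ^ p = 1 := by
    rintro q ⟨t, ht, m, hm, rfl⟩
    obtain ⟨q, hq, hq', e1⟩ := hE.cm t ht m hm
    have e2 : t⁻¹ * m * t * m⁻¹ = q := by rw [e1]; group
    rw [e2]
    have ct : q * t = t * q := hq' t (hE.mi t ht)
    have e3 : ∀ n : ℕ, (t ^ n)⁻¹ * m * t ^ n = q ^ n * m := by
      intro n
      induction n with
      | zero => simp
      | succ n ih =>
        have c1 : Commute (q ^ n) t := (show Commute q t from ct).pow_left n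
        calc (t ^ (n + 1))⁻¹ * m * t ^ (n + 1) = t⁻¹ * ((t ^ n)⁻¹ * m * t ^ n) * t := by
              rw [pow_succ]; group
          _ = t⁻¹ * q ^ n * m * t := by rw [ih]; group
          _ = q ^ n * t⁻¹ * m * t := by rw [c1.inv_right.eq]
          _ = q ^ n * (t⁻¹ * m * t) := by group
          _ = q ^ (n + 1) * m := by rw [e1, pow_succ]; group
    have e4 := e3 p
    rw [hE.pp t ht, inv_one, one_mul, mul_one] at e4
    calc q ^ p = q ^ p * m * m⁻¹ := by group
      _ = 1 := by rw [← e4, mul_inv_cancel]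
  have hcom1 : ∀ x ∈ StG K E a b, ∀ e ∈ Subgroup.closure (StG K E a b), e * x = x * e := by
    rintro x ⟨t, ht, m, hm, rfl⟩ e he
    have c1 : Commute e t := hcen e he t (hE.mi t ht)
    have c2 : Commute e m := hcen e he m hm
    exact (((c1.inv_right.mul_right c2).mul_right c1).mul_right c2.inv_right).eq
  have hcom : ∀ q ∈ Subgroup.closure (StG K E a b), ∀ q' ∈ Subgroup.closure (StG K E a b),
      q * q' = q' * q := by
    intro q hq q' hq'
    induction hq' using Subgroup.closure_induction with
    | mem x hx => exact hcom1 x hx q hq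
    | one => rw [one_mul, mul_one]
    | mul x y _ _ hx hy => rw [← mul_assoc, hx, mul_assoc, hy, mul_assoc]
    | inv x _ hx =>
      have c1 : Commute q x := hx
      exact c1.inv_right
  have hpp : ∀ q ∈ Subgroup.closure (StG K E a b), q ^ p = 1 := by
    intro q hq
    induction hq using Subgroup.closure_induction with
    | mem x hx => exact hpow x hx
    | one => exact one_pow p
    | mul x y hx' hy' hx hy =>
      have c1 : Commute x y := hcom x hx' y hy'
      rw [c1.mul_pow, hx, hy, one_mul]
    | inv x _ hx => rw [inv_pow, hx, inv_one]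
  have hinf : Infinite E := by
    have h3 : (E : Set G).Infinite := hE.ix.mono fun t ht => ht.1
    exact h3.to_subtype
  have hinf' : Infinite E' := by
    have h3 : (E' : Set G).Infinite := hE'.ix.mono fun t ht => ht.1
    exact h3.to_subtype
  refine ⟨Subgroup.closure (StG K E a b), ⟨hle, hcen, ?_, ?_⟩, hpp, hcom, ?_⟩
  · -- normalised by `F`
    intro f hf e he
    have hf' : f ∈ Fx K a b := by rw [← fx_swap]; exact hf
    induction he using Subgroup.closure_induction with
    | mem x hx =>
      obtain ⟨t, ht, m, hm, rfl⟩ := hx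
      refine Subgroup.subset_closure ⟨f⁻¹ * t * f, hE.nf f hf' t ht, f⁻¹ * m * f, st_mi hf hm, ?_⟩
      group
    | one =>
      have e1 : f⁻¹ * 1 * f = 1 := by group
      rw [e1]
      exact Subgroup.one_mem _
    | mul x y _ _ hx hy =>
      have e1 : f⁻¹ * (x * y) * f = (f⁻¹ * x * f) * (f⁻¹ * y * f) := by group
      rw [e1]
      exact Subgroup.mul_mem _ hx hy
    | inv x _ hx =>
      have e1 : f⁻¹ * x⁻¹ * f = (f⁻¹ * x * f)⁻¹ := by group
      rw [e1]
      exact Subgroup.inv_mem _ hx
  · -- nontrivial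
    intro hbot
    obtain ⟨t, ht, ht1⟩ : ∃ t ∈ E, t ≠ 1 := by
      by_contra hcon
      push Not at hcon
      refine (hE.ix.mono fun t ht => ht.1) ((Set.finite_singleton (1 : G)).subset ?_)
      intro t ht
      exact hcon t ht
    refine ht1 (h1 G K a b c Q B t (hE.mi t ht).1 ?_ (hE.cn t ht))
    intro m hm
    have h4 : t⁻¹ * m * t * m⁻¹ ∈ (⊥ : Subgroup G) := by
      rw [← hbot]
      exact Subgroup.subset_closure ⟨t, ht, m, hm, rfl⟩
    rw [Subgroup.mem_bot] at h4
    calc t * m = t * ((t⁻¹ * m * t * m⁻¹) * m) := by rw [h4, one_mul]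
      _ = m * t := by group
  · -- fixed points on `E'`
    refine st_fix h2 p hp E' _ hinf' ?_ hE'.co hE'.pp hpp ?_
    · have h5 : ((Subgroup.closure (StG K E a b) : Subgroup G) : Set G).Finite := by
        refine B.mc.fin.subset ?_
        intro x hx
        have := hle hx
        rw [fx_swap] at this
        exact this
      exact h5.to_subtype
    · intro q hq t ht
      have hq1 : q⁻¹ ∈ Fx K a c := by
        rw [fx_ac h, ← fx_swap]
        exact Subgroup.inv_mem _ (hle hq)
      have := hE'.nf _ hq1 t ht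
      rwa [inv_inv] at this

end Pool.Agent.FourGp.FF.Qt
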