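import Pool.Agent.Lib.MP_fb3619_al.QQ.Base
import Pool.Agent.Lib.MP_fb3619_al.QQ.Xdx
import Pool.Agent.Lib.MP_fb3619_al.FF.Util
import Pool.Agent.Lib.MP_fb3619_al.FF.Shu

/-!
# MP_fb3619_al, board QQ, row WL (paper 15): fixed points of the conjugates of `Q'`
-/

set_option autoImplicit false

universe u

namespace Pool.Agent.FourGp.FF.Qt

open Pool.Agent.FourGp.H47 (Odd' inv_of_sq conj_inv_pow mul_inv_self odd_conj comm_of_inv
  mul_inv_self' comm_pow comm_inv conj_comm comm_conj)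
open Pool.Agent.FourGp.H99 (LF)
open Pool.Agent.FourGp.FF.Abo
open Pool.Agent.FourGp.FF.Bs (Min0 MinC EeS)
open Pool.Agent.FourGp.FF.Fr (fx_swap)

namespace WlR

theorem conj_pow' {G : Type u} [Group G] (f t : G) (n : ℕ) :
    (f⁻¹ * t * f) ^ n = f⁻¹ * t ^ n * f := by
  induction n with
  | zero => simp
  | succ n ih => rw [pow_succ, ih, pow_succ]; group

/-- A homomorphism of an abelian group with finite image on a subgroup of finite index: the maps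
`w ↦ [w, e]` and `w ↦ [w, e, e']`. -/
theorem fin_img {G : Type u} [Group G] {A B X : Subgroup G} {φ : G → G}
    (hφ : ∀ x ∈ A, ∀ y ∈ A, φ (x * y) = φ x * φ y) (hAB : A ≤ B) (hX : X.relIndex B ≠ 0)
    (hf : {z | ∃ w ∈ A, w ∈ X ∧ z = φ w}.Finite) : {z | ∃ w ∈ A, z = φ w}.Finite := by
  classical
  have h1 : X.relIndex A ≠ 0 := fun h0 => hX (Subgroup.relIndex_eq_zero_of_le_right hAB h0)
  obtain ⟨R, hR, hc⟩ := cover_of_relIndex h1
  refine ((hf.image2 (fun x y => x * y) (R.finite_toSet.image φ))).subset ?_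
  rintro z ⟨w, hw, rfl⟩
  obtain ⟨r, hr, h2⟩ := hc w hw
  have h3 : w * r⁻¹ ∈ A := A.mul_mem hw (A.inv_mem (hR r hr))
  refine ⟨φ (w * r⁻¹), ⟨w * r⁻¹, h3, h2, rfl⟩, φ r, ⟨r, hr, rfl⟩, ?_⟩
  show φ (w * r⁻¹) * φ r = φ w
  rw [← hφ _ h3 _ (hR r hr)]
  congr 1
  group

/-- `w ↦ [w, e, e']` is a homomorphism on an abelian subgroup which is normalised by `e`, `e'`. -/
theorem hom2 {G : Type u} [Group G] {W : Subgroup G} (hW : ∀ w ∈ W, ∀ w' ∈ W, w * w' = w' * w)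
    {e e' : G} (he : ∀ w ∈ W, e⁻¹ * w * e ∈ W) (he' : ∀ w ∈ W, e'⁻¹ * w * e' ∈ W) {x y : G}
    (hx : x ∈ W) (hy : y ∈ W) :
    ((x * y)⁻¹ * (e⁻¹ * (x * y) * e))⁻¹ * (e'⁻¹ * ((x * y)⁻¹ * (e⁻¹ * (x * y) * e)) * e') =
    ((x⁻¹ * (e⁻¹ * x * e))⁻¹ * (e'⁻¹ * (x⁻¹ * (e⁻¹ * x * e)) * e')) *
    ((y⁻¹ * (e⁻¹ * y * e))⁻¹ * (e'⁻¹ * (y⁻¹ * (e⁻¹ * y * e)) * e')) := by
  have hom1 : ∀ f : G, (∀ w ∈ W, f⁻¹ * w * f ∈ W) → ∀ x ∈ W, ∀ y ∈ W,
      (x * y)⁻¹ * (f⁻¹ * (x * y) * f) = (x⁻¹ * (f⁻¹ * x * f)) * (y⁻¹ * (f⁻¹ * y * f)) := by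
    intro f hf x hx y hy
    have hz : x⁻¹ * (f⁻¹ * x * f) ∈ W := W.mul_mem (W.inv_mem hx) (hf x hx)
    have c1 : y⁻¹ * (x⁻¹ * (f⁻¹ * x * f)) = (x⁻¹ * (f⁻¹ * x * f)) * y⁻¹ :=
      hW _ (W.inv_mem hy) _ hz
    calc (x * y)⁻¹ * (f⁻¹ * (x * y) * f)
        = (y⁻¹ * (x⁻¹ * (f⁻¹ * x * f))) * (f⁻¹ * y * f) := by group
      _ = ((x⁻¹ * (f⁻¹ * x * f)) * y⁻¹) * (f⁻¹ * y * f) := by rw [c1]
      _ = (x⁻¹ * (f⁻¹ * x * f)) * (y⁻¹ * (f⁻¹ * y * f)) := by group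
  rw [hom1 e he x hx y hy]
  exact hom1 e' he' _ (W.mul_mem (W.inv_mem hx) (he x hx)) _
    (W.mul_mem (W.inv_mem hy) (he y hy))

theorem fin_lf {G : Type u} [Group G] {D Γ : Subgroup G} (hD : LF D) (hle : Γ ≤ D)
    (hfg : Γ.FG) : Finite Γ := by
  have h1 : LF Γ := LF_mono hle hD
  have h2 : (⊤ : Subgroup Γ).FG := (Group.fg_def).1 ((Group.fg_iff_subgroup_fg Γ).2 hfg)
  have h3 := h1 ⊤ h2
  exact Finite.of_equiv _ (Subgroup.topEquiv (G := Γ)).toEquiv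

theorem odd_card {G : Type u} [Group G] {Γ : Subgroup G} [Finite Γ] (h : ∀ x ∈ Γ, Odd' x) :
    Odd (Nat.card Γ) := by
  rw [← Nat.not_even_iff_odd, even_iff_two_dvd]
  intro h2
  have := Fact.mk Nat.prime_two
  obtain ⟨x, hx⟩ := exists_prime_orderOf_dvd_card' (G := Γ) 2 h2
  obtain ⟨n, hn⟩ := h x.1 x.2
  have h3 : x ^ (2 * n + 1) = 1 := Subtype.ext hn
  have h4 := orderOf_dvd_of_pow_eq_one h3
  rw [hx] at h4
  omega

variable {G : Type u} [Group G] {K : Subgroup G} {a b c : G}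

/-- The subgroup `W`. -/
def WW (K : Subgroup G) (a b c : G) (Q : Subgroup G) (p : ℕ) : Subgroup G where
  carrier := {z | z ∈ NN K a b c Q ∧ (∀ n ∈ NN K a b c Q, z * n = n * z) ∧ z ^ p = 1 ∧
    a * z * a⁻¹ = z⁻¹}
  one_mem' := ⟨Subgroup.one_mem _, fun n _ => by rw [one_mul, mul_one], one_pow p, by simp⟩
  mul_mem' := by
    rintro x y ⟨hx, hx1, hx2, hx3⟩ ⟨hy, hy1, hy2, hy3⟩
    have c1 : Commute x y := hx1 y hy
    refine ⟨Subgroup.mul_mem _ hx hy, ?_, by rw [c1.mul_pow, hx2, hy2, one_mul], ?_⟩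
    · intro n hn
      have c2 : Commute x n := hx1 n hn
      have c3 : Commute y n := hy1 n hn
      exact (c2.mul_left c3).eq
    · calc a * (x * y) * a⁻¹ = (a * x * a⁻¹) * (a * y * a⁻¹) := by group
        _ = x⁻¹ * y⁻¹ := by rw [hx3, hy3]
        _ = (y * x)⁻¹ := by group
        _ = (x * y)⁻¹ := by rw [c1.eq]
  inv_mem' := by
    rintro x ⟨hx, hx1, hx2, hx3⟩
    refine ⟨Subgroup.inv_mem _ hx, ?_, by rw [inv_pow, hx2, inv_one], ?_⟩
    · intro n hn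
      have c2 : Commute x n := hx1 n hn
      exact c2.inv_left.eq
    · calc a * x⁻¹ * a⁻¹ = (a * x * a⁻¹)⁻¹ := by group
        _ = x⁻¹⁻¹ := by rw [hx3]

theorem mem_WW {Q : Subgroup G} {p : ℕ} {z : G} : z ∈ WW K a b c Q p ↔
    z ∈ NN K a b c Q ∧ (∀ n ∈ NN K a b c Q, z * n = n * z) ∧ z ^ p = 1 ∧ a * z * a⁻¹ = z⁻¹ :=
  Iff.rfl

theorem nn_le {Q : Subgroup G} : NN K a b c Q ≤ K := by
  unfold NN
  rw [Subgroup.closure_le]
  rintro x (hx | hx)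
  · exact (mem_Cz.1 hx.1.1).1
  · exact (mem_Cz.1 hx.1.1).1

end WlR

open WlR in
/-- **Row WL.** -/
theorem wl (h1 : NrmS.{u}) (h2 : XdxS.{u}) (h3 : SaS.{u}) (h4 : QdS.{u}) (h5 : LinS.{u}) :
    WlS.{u} := by
  intro G _ K a b c Q Q' B B' p hp hp2 E hE hpp hco A hA
  classical
  have h := B.fr
  have m := B.mc
  obtain ⟨hN1, hNV⟩ := h1 G K a b c h Q B.ho
  have hN1' : ∀ d ∈ Cz K a, ∀ n ∈ NN K a b c Q, d * n * d⁻¹ ∈ NN K a b c Q := by
    intro d hd n hn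
    have := hN1 d⁻¹ ((Cz K a).inv_mem hd) n hn
    rwa [inv_inv] at this
  have hia : a⁻¹ = a := inv_of_sq h.aa
  have hib : b⁻¹ = b := inv_of_sq h.bb
  have cab : Commute a b := by
    show a * b = b * a
    rw [h.ab, h.ba]
  set W : Subgroup G := WW K a b c Q p with hWdef
  have hW1 : ∀ w ∈ W, ∀ w' ∈ W, w * w' = w' * w := fun w hw w' hw' =>
    (mem_WW.1 hw).2.1 w' (mem_WW.1 hw').1
  have hW2 : ∀ w ∈ W, w ^ p = 1 := fun w hw => (mem_WW.1 hw).2.2.1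
  have hWK : ∀ w ∈ W, w ∈ K := fun w hw => nn_le (mem_WW.1 hw).1
  have hWa : ∀ w ∈ W, a * w * a = w⁻¹ := fun w hw => by
    have := (mem_WW.1 hw).2.2.2
    rwa [hia] at this
  have hW3 : ∀ w ∈ W, b * w * b ∈ W := by
    intro w hw
    obtain ⟨q1, q2, q3, q4⟩ := mem_WW.1 hw
    refine mem_WW.2 ⟨hNV.2 w q1, ?_, ?_, ?_⟩
    · intro n hn
      have e := q2 _ (hNV.2 n hn)
      calc (b * w * b) * n = b * (w * (b * n * b)) * b := by
            have e1 : b * (w * (b * n * b)) * b = (b * w * b) * n * (b * b) := by group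
            rw [e1, h.bb, mul_one]
        _ = b * ((b * n * b) * w) * b := by rw [e]
        _ = n * (b * w * b) := by
            have e1 : b * ((b * n * b) * w) * b = (b * b) * n * (b * w * b) := by group
            rw [e1, h.bb, one_mul]
    · have e1 := conj_pow' b w p
      rw [hib] at e1
      rw [e1, q3, mul_one, h.bb]
    · rw [hia]
      calc a * (b * w * b) * a = (a * b) * w * (b * a) := by group
        _ = (b * a) * w * (a * b) := by rw [cab.eq]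
        _ = b * (a * w * a) * b := by group
        _ = b * w⁻¹ * b := by rw [hWa w hw]
        _ = (b * w * b)⁻¹ := by
            rw [mul_inv_rev, mul_inv_rev, hib]; group
  have hcz : ∀ g ∈ Cz K a, ∀ w ∈ W, g⁻¹ * w * g ∈ W := by
    intro g hg w hw
    obtain ⟨q1, q2, q3, q4⟩ := mem_WW.1 hw
    refine mem_WW.2 ⟨hN1 g hg w q1, ?_, ?_, ?_⟩
    · intro n hn
      have e := q2 _ (hN1' g hg n hn)
      calc (g⁻¹ * w * g) * n = g⁻¹ * (w * (g * n * g⁻¹)) * g := by group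
        _ = g⁻¹ * ((g * n * g⁻¹) * w) * g := by rw [e]
        _ = n * (g⁻¹ * w * g) := by group
    · rw [conj_pow', q3]; group
    · have c1 : Commute g a := (mem_Cz.1 hg).2
      calc a * (g⁻¹ * w * g) * a⁻¹ = (a * g⁻¹) * w * (g * a⁻¹) := by group
        _ = (g⁻¹ * a) * w * (a⁻¹ * g) := by rw [c1.inv_left.eq, c1.inv_right.eq]
        _ = g⁻¹ * (a * w * a⁻¹) * g := by group
        _ = g⁻¹ * w⁻¹ * g := by rw [q4]
        _ = (g⁻¹ * w * g)⁻¹ := by group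
  -- the group `H`
  have hFbc : Fx K b c = Fx K a b := h.fx_rot
  have hQ'F : ∀ q ∈ Q', q ∈ Fx K a b := fun q hq => by
    rw [← hFbc]; exact B'.ho.le hq
  have hQ'f : (Q' : Set G).Finite := m.fin.subset (fun q hq => hQ'F q hq)
  set H : Subgroup G := Subgroup.closure ((A : Set G) ∪ (Q' : Set G)) with hHdef
  have hHa : H ≤ Cz K a := by
    rw [hHdef, Subgroup.closure_le]
    rintro x (hx | hx)
    · exact (hA x hx).1
    · exact mem_Cz.2 ⟨(mem_Fx.1 (hQ'F x hx)).1, (mem_Fx.1 (hQ'F x hx)).2.1⟩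
  have hLF : LF (Cz K a) := by
    refine (shu G K a b c h (Cz K a) b cz_le h.bb (fun u hu => h.cz_inv2 hu) ?_).2.2
    refine m.fin.subset ?_
    rintro w ⟨hw, hwb⟩
    exact mem_Fx.2 ⟨(mem_Cz.1 hw).1, (mem_Cz.1 hw).2, hwb⟩
  have hHfg : H.FG := ⟨A ∪ hQ'f.toFinset, by
    rw [hHdef, Finset.coe_union, hQ'f.coe_toFinset]⟩
  have hHf : Finite H := fin_lf hLF hHa hHfg
  have hHodd : Odd (Nat.card H) := odd_card fun x hx => h.odd x (mem_Cz.1 (hHa hx)).1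
  have hHb : ∀ g ∈ H, b * g * b ∈ H := by
    intro g hg
    have e : b * g * b = b⁻¹ * g * b := by rw [hib]
    rw [e]
    refine XdxR.cl_conj (g := b) ?_ g hg
    rintro x (hx | hx)
    · rw [hib, (hA x hx).2]
      exact Subgroup.inv_mem _ (Subgroup.subset_closure (Or.inl hx))
    · have c1 : Commute x b := (mem_Fx.1 (hQ'F x hx)).2.2
      have e1 : b⁻¹ * x * b = x := by
        rw [mul_assoc, c1.eq]; group
      rw [e1]
      exact Subgroup.subset_closure (Or.inr hx)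
  have hQ'H : Q' ≤ H := fun q hq => Subgroup.subset_closure (Or.inr hq)
  -- the finiteness hypothesis
  obtain ⟨X, hX⟩ := h2 G K c b a h.swap.rot.rot (by
    have e1 : Fx K c b = Fx K a b := by rw [fx_swap, hFbc]
    rw [e1]; exact m.fin)
  have hSA := h3 G K b c a Q' B' X hX
  have hQD := h4 G K b c a Q' B' X hX
  have hFW : ∀ e ∈ Q', ∀ w ∈ W, e⁻¹ * w * e ∈ W := fun e he w hw =>
    hcz e (hHa (hQ'H he)) w hw
  -- the part of `W` which is inverted by `b`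
  let V : Subgroup G :=
    { carrier := {w | w ∈ W ∧ b * w * b = w⁻¹}
      one_mem' := ⟨W.one_mem, by rw [mul_one, h.bb, inv_one]⟩
      mul_mem' := by
        rintro x y ⟨hx, hx1⟩ ⟨hy, hy1⟩
        refine ⟨W.mul_mem hx hy, ?_⟩
        calc b * (x * y) * b = b * x * (b * b) * y * b := by rw [h.bb]; group
          _ = (b * x * b) * (b * y * b) := by group
          _ = x⁻¹ * y⁻¹ := by rw [hx1, hy1]
          _ = (y * x)⁻¹ := by group
          _ = (x * y)⁻¹ := by rw [hW1 x hx y hy]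
      inv_mem' := by
        rintro x ⟨hx, hx1⟩
        refine ⟨W.inv_mem hx, ?_⟩
        calc b * x⁻¹ * b = (b⁻¹ * x * b⁻¹)⁻¹ := by group
          _ = x⁻¹⁻¹ := by rw [hib, hx1] }
  have hV : ∀ w, w ∈ V ↔ w ∈ W ∧ b * w * b = w⁻¹ := fun w => Iff.rfl
  have hVc : ∀ w ∈ V, Mi K c b w := by
    intro w hw
    obtain ⟨hw1, hw2⟩ := (hV w).1 hw
    refine ⟨mem_Cz.2 ⟨hWK w hw1, ?_⟩, hw2⟩
    have e1 : c * w * c = w := by
      calc c * w * c = (a * b) * w * (b * a) := by rw [h.ab, h.ba]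
        _ = a * (b * w * b) * a := by group
        _ = a * w⁻¹ * a := by rw [hw2]
        _ = (a⁻¹ * w * a⁻¹)⁻¹ := by group
        _ = w := by rw [hia, hWa w hw1, inv_inv]
    calc w * c = (c * w * c) * c := by rw [e1]
      _ = c * w * (c * c) := by group
      _ = c * w := by rw [h.cc, mul_one]
  have hVC : V ≤ Cz K c := fun w hw => (hVc w hw).1
  obtain ⟨L, hLW, hLi, hLb, hLc⟩ := h5 p hp hp2 G b h.bb W H Q' hW1 hW2 hW3
    (fun g hg w hw => hcz g (hHa hg) w hw) hHf hHodd hHb hQ'H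
    (fun q hq => (mem_Fx.1 (hQ'F q hq)).2.2)
    (by
      intro q hq w hw hwb
      have h6 : Mi K b a w := ⟨mem_Cz.2 ⟨hWK w hw, hwb⟩, hWa w hw⟩
      exact B'.ho.cen q hq w ((mi_iff h.rot).2 h6))
    (by
      intro e he e' he'
      have h7 := fin_img (A := V) (B := Cz K c) (X := X)
        (φ := fun w => (w⁻¹ * (e⁻¹ * w * e))⁻¹ * (e'⁻¹ * (w⁻¹ * (e⁻¹ * w * e)) * e'))
        (fun x hx y hy => hom2 hW1 (hFW e he) (hFW e' he') ((hV x).1 hx).1 ((hV y).1 hy).1)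
        hVC hX.ind
        ((hQD e' he').subset (by
          rintro z ⟨w, hw, hwX, rfl⟩
          obtain ⟨hw1, hw2⟩ := (hV w).1 hw
          refine ⟨w⁻¹ * (e⁻¹ * w * e), Subgroup.subset_closure ⟨w, e, he, ⟨hwX, hVc w hw, ?_⟩,
            rfl⟩, rfl⟩
          exact hW1 w hw1 _ (hFW e he w hw1)))
      refine h7.subset ?_
      rintro z ⟨w, hw, hwb, rfl⟩
      exact ⟨w, (hV w).2 ⟨hw, hwb⟩, rfl⟩)
    (by
      refine hE.ix.mono ?_
      rintro t ⟨ht, htQ⟩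
      have h6 : Mi K c a t := hE.mi t ht
      have h7 : Mi K c b t := (mi_iff h.rot.rot).1 h6
      have h8 : ∀ n ∈ NN K a b c Q, t * n = n * t := fun n hn =>
        hE.cn t ht n (by rw [nn_comm]; exact hn)
      refine ⟨mem_WW.2 ⟨Subgroup.subset_closure (Or.inr ⟨h6, htQ⟩), h8, hE.pp t ht, ?_⟩, h7.2⟩
      rw [hia]
      exact h6.2)
  refine ⟨L, ?_, hLi, ?_⟩
  · intro l hl
    exact hVC ((hV l).2 ⟨hLW hl, hLb l hl⟩)
  · intro α hα q hq l hl
    exact hLc α (Subgroup.subset_closure (Or.inl hα)) q hq l hl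

end Pool.Agent.FourGp.FF.Qt
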