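import Pool.Agent.Lib.MP_fb3619_al.QQ.Out
import Pool.Agent.Lib.MP_fb3619_al.QQ.Nrm
import Pool.Agent.Lib.MP_fb3619_al.QQ.Gp
import Pool.Agent.Lib.MP_fb3619_al.QQ.Gc
import Pool.Agent.Lib.MP_fb3619_al.QQ.Xdx
import Pool.Agent.Lib.MP_fb3619_al.QQ.Sa
import Pool.Agent.Lib.MP_fb3619_al.QQ.Qd
import Pool.Agent.Lib.MP_fb3619_al.QQ.Si
import Pool.Agent.Lib.MP_fb3619_al.QQ.Sc
import Pool.Agent.Lib.MP_fb3619_al.QQ.St
import Pool.Agent.Lib.MP_fb3619_al.QQ.Fxp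
import Pool.Agent.Lib.MP_fb3619_al.QQ.Lin
import Pool.Agent.Lib.MP_fb3619_al.QQ.Wl
import Pool.Agent.Lib.MP_fb3619_al.BS.Ee

/-!
# MP_fb3619_al, board QQ: THEOREM Q
-/

set_option autoImplicit false

universe u

namespace Pool.Agent.FourGp.FF.Qt

open Pool.Agent.FourGp.FF.Bs (ee)

theorem gp' : GpS.{u} := gp nrm

theorem sa' : SaS.{u} := sa ee gp'

theorem qd' : QdS.{u} := qd sa' gp' isg

theorem si' : SiS.{u} := si sa' isg

theorem sb' : SbS.{u} := sb xdx sa' qd' si'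

/-- THEOREM Q: homology groups of a minimal counterexample have finitely many fixed points. -/
theorem thq : ThqS.{u} :=
  qq_of xdx sb' (sc sa' qd' si') (st gp' fxp) (wl nrm xdx sa' qd' lin) (lst gc gp1)

/-- THEOREM Q, consumer form. -/
theorem qs : Wt.QS.{u} := qs_of thq

end Pool.Agent.FourGp.FF.Qt
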