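import Pool.Agent.Lib.MP_fb3619_al.QQ.Red
import Pool.Agent.Lib.MP_fb3619_al.WT.Iface

/-!
# MP_fb3619_al, board QQ: the consumer form of THEOREM Q
-/

set_option autoImplicit false

universe u

namespace Pool.Agent.FourGp.FF.Qt

open Pool.Agent.FourGp.H47 (Odd' inv_of_sq conj_inv_pow mul_inv_self odd_conj comm_of_inv
  mul_inv_self' comm_pow comm_inv conj_comm comm_conj)
open Pool.Agent.FourGp.H99 (LF)
open Pool.Agent.FourGp.FF.Abo
open Pool.Agent.FourGp.FF.Bs (Min0 MinC EeS)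
open Pool.Agent.FourGp.FF.Fr (fx_swap)

theorem fin_of_yy {G : Type u} [Group G] {K : Subgroup G} {a b c : G} (h : Fr K a b c)
    (hF : (Fx K a b : Set G).Finite) {Z : Subgroup G} (hZ : Z ≤ Fx K a b)
    (hY : (YY K b a Z).Finite) : {x | x ∈ Cz K b ∧ ∀ z ∈ Z, x * z = z * x}.Finite := by
  classical
  refine ((hF.image2 (fun f u => f * u) hY)).subset ?_
  rintro x ⟨hx, hxz⟩
  set X : Subgroup G := Cz K b ⊓ Subgroup.centralizer (Z : Set G) with hXdef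
  have hxX : x ∈ X := ⟨hx, Subgroup.mem_centralizer_iff.2 fun z hz => (hxz z hz).symm⟩
  have haX : ∀ u ∈ X, a * u * a ∈ X := by
    rintro u ⟨hu, hu'⟩
    refine ⟨h.cz_inv h.aa h.cab hu, Subgroup.mem_centralizer_iff.2 fun z hz => ?_⟩
    have c1 : Commute z a := (mem_Fx.1 (hZ hz)).2.1
    have c2 : Commute z u := Subgroup.mem_centralizer_iff.1 hu' z hz
    exact ((c1.mul_right c2).mul_right c1).eq
  obtain ⟨w, s, hw, hs, e, h1, h2⟩ := h.dec (X := X) (inf_le_left.trans cz_le) h.aa haX hxX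
  refine ⟨w, mem_Fx.2 ⟨(mem_Cz.1 hw.1).1, h1, (mem_Cz.1 hw.1).2⟩, s, ⟨⟨hs.1, h2⟩, ?_⟩, e.symm⟩
  intro z hz
  exact Subgroup.mem_centralizer_iff.1 hs.2 z hz

/-- THEOREM Q, consumer form. -/
theorem qs_of (hq : ThqS.{u}) : Wt.QS.{u} := by
  intro G _ K a b c m Z hZ hn hne
  have h := m.fr
  have hHo : Ho K a b Z := ⟨fun z hz => (hZ z hz).1, fun z hz => (hZ z hz).2, hn, hne⟩
  obtain ⟨h1, h2⟩ := hq G K a b c m Z hHo
  refine ⟨fin_of_yy h m.fin hHo.le h1, ?_⟩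
  refine fin_of_yy (a := a) (b := c) (c := b) h.swap' (by rw [fx_ac h]; exact m.fin)
    (by rw [fx_ac h]; exact hHo.le) h2

end Pool.Agent.FourGp.FF.Qt
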