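import Pool.Agent.Lib.MP_fb3619_al.QQ.Base

/-!
# MP_fb3619_al, board QQ: assembly of THEOREM Q from the rows (paper 16)
-/

set_option autoImplicit false

universe u

namespace Pool.Agent.FourGp.FF.Qt

open Pool.Agent.FourGp.H47 (Odd' inv_of_sq conj_inv_pow mul_inv_self odd_conj comm_of_inv
  mul_inv_self' comm_pow comm_inv conj_comm comm_conj)
open Pool.Agent.FourGp.H99 (LF)
open Pool.Agent.FourGp.FF.Abo
open Pool.Agent.FourGp.FF.Bs (Min0 MinC EeS)
open Pool.Agent.FourGp.FF.Fr (fx_swap)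

theorem not_bad (hX : XdxS.{u}) (hSb : SbS.{u}) (hSc : ScS.{u}) (hSt : StS.{u}) (hWl : WlS.{u})
    (hL : LstS.{u}) {G : Type u} [Group G] {K : Subgroup G} {a b c : G} {Q : Subgroup G}
    (B : Bad K a b c Q) : False := by
  classical
  have h := B.fr
  have m := B.mc
  have hF := m.fin
  obtain ⟨X, hXb⟩ := hX G K b a c h.swap (by rw [fx_swap]; exact hF)
  obtain ⟨X', hXc⟩ := hX G K c a b h.rot.rot (by
    rw [h.rot.fx_rot, h.fx_rot]; exact hF)
  have B' : Bad K a c b Q := B.mk' (hSb G K a b c Q B)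
  -- a prime
  have hQf : Finite Q := (hF.subset B.ho.le).to_subtype
  have hQ1 : Nat.card Q ≠ 1 := by
    intro h1
    exact B.ho.ne (Subgroup.card_eq_one.1 h1)
  obtain ⟨p, hp, hpQ⟩ := Nat.exists_prime_and_dvd hQ1
  haveI : Fact p.Prime := ⟨hp⟩
  obtain ⟨e, he⟩ := exists_prime_orderOf_dvd_card' p hpQ
  have he1 : (e : G) ≠ 1 := by
    intro h1
    have h2 : e = 1 := Subtype.ext h1
    rw [h2, orderOf_one] at he
    exact hp.one_lt.ne he
  have hep : (e : G) ^ p = 1 := by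
    have h1 : e ^ p = 1 := by rw [← he]; exact pow_orderOf_eq_one e
    exact congrArg Subtype.val h1
  have hp2 : p ≠ 2 := by
    intro h2
    rw [h2] at hep
    have h3 := h.odd _ (fx_le (B.ho.le e.2))
    exact he1 (h3.eq_one (by rw [← pow_two]; exact hep))
  obtain ⟨E, hE⟩ := hSc G K a b c Q B X hXb p hp ⟨e, e.2, he1, hep⟩
  obtain ⟨E', hE'⟩ := hSc G K a c b Q B' X' hXc p hp ⟨e, e.2, he1, hep⟩
  obtain ⟨Q', hQ', hpp, hco, hinf⟩ := hSt G K a b c Q B p hp E E' hE hE'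
  have B1 : Bad K b a c Q' := ⟨mc_swap m, hQ', hinf.mono (by
    rintro t ⟨ht, htq⟩
    exact ⟨mi_c h.rot.rot (hE'.mi t ht), htq⟩)⟩
  have B2 : Bad K b c a Q' := B1.mk' (hSb G K b a c Q' B1)
  exact hL G K a b c m Q' hQ' fun A hA =>
    hWl G K a b c Q Q' B B2 p hp hp2 E' hE' hpp hco A hA

/-- THEOREM Q from the rows. -/
theorem qq_of (hX : XdxS.{u}) (hSb : SbS.{u}) (hSc : ScS.{u}) (hSt : StS.{u}) (hWl : WlS.{u})
    (hL : LstS.{u}) : ThqS.{u} := by
  intro G _ K a b c m Q hQ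
  constructor
  · by_contra hi
    exact not_bad hX hSb hSc hSt hWl hL (K := K) (a := a) (b := c) (c := b) (Q := Q)
      ⟨mc_swap' m, ho_c m.fr hQ, hi⟩
  · by_contra hi
    exact not_bad hX hSb hSc hSt hWl hL (K := K) (a := a) (b := b) (c := c) (Q := Q) ⟨m, hQ, hi⟩

end Pool.Agent.FourGp.FF.Qt
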