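import Mathlib

/-!
# MP_fb3619_al, Theorem Q, finite part: row SLF

A finite group of `2 x 2` matrices of determinant `1` over a commutative ring, all of whose elements
have odd order, does not contain both `[[1,1],[0,1]]` and `[[1,0],[t,1]]`, `t` a regular element.
-/

set_option autoImplicit false

universe u

namespace Pool.Agent.FourGp.FF.Qt

/-- `SL_2` -/
abbrev SL2 (k : Type u) [CommRing k] : Type u := Matrix.SpecialLinearGroup (Fin 2) k

variable {k : Type u} [CommRing k]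

theorem sl_ext {g h : SL2 k} (h00 : g.1 0 0 = h.1 0 0) (h01 : g.1 0 1 = h.1 0 1)
    (h10 : g.1 1 0 = h.1 1 0) (h11 : g.1 1 1 = h.1 1 1) : g = h := by
  apply Subtype.ext
  ext i j
  fin_cases i <;> fin_cases j
  · exact h00
  · exact h01
  · exact h10
  · exact h11

theorem sl_det (g : SL2 k) : g.1 0 0 * g.1 1 1 - g.1 0 1 * g.1 1 0 = 1 := by
  have := g.2
  rwa [Matrix.det_fin_two] at this

/-- the matrix with given entries -/
def mk4 (a b c d : k) (h : a * d - b * c = 1) : SL2 k :=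
  ⟨!![a, b; c, d], by rw [Matrix.det_fin_two_of]; exact h⟩

theorem mul00 (g h : SL2 k) : (g * h).1 0 0 = g.1 0 0 * h.1 0 0 + g.1 0 1 * h.1 1 0 := by
  rw [Matrix.SpecialLinearGroup.coe_mul, Matrix.mul_apply, Fin.sum_univ_two]

theorem mul01 (g h : SL2 k) : (g * h).1 0 1 = g.1 0 0 * h.1 0 1 + g.1 0 1 * h.1 1 1 := by
  rw [Matrix.SpecialLinearGroup.coe_mul, Matrix.mul_apply, Fin.sum_univ_two]

theorem mul10 (g h : SL2 k) : (g * h).1 1 0 = g.1 1 0 * h.1 0 0 + g.1 1 1 * h.1 1 0 := by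
  rw [Matrix.SpecialLinearGroup.coe_mul, Matrix.mul_apply, Fin.sum_univ_two]

theorem mul11 (g h : SL2 k) : (g * h).1 1 1 = g.1 1 0 * h.1 0 1 + g.1 1 1 * h.1 1 1 := by
  rw [Matrix.SpecialLinearGroup.coe_mul, Matrix.mul_apply, Fin.sum_univ_two]

/-- conjugation by `diag(1,-1)` -/
def sg (g : SL2 k) : SL2 k :=
  mk4 (g.1 0 0) (-g.1 0 1) (-g.1 1 0) (g.1 1 1) (by
    have := sl_det g
    linear_combination this)

/-- upper triangular -/
def up (c : k) : SL2 k := mk4 1 c 0 1 (by ring)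

/-- lower triangular -/
def lo (c : k) : SL2 k := mk4 1 0 c 1 (by ring)

theorem sg_mul (g h : SL2 k) : sg (g * h) = sg g * sg h := by
  apply sl_ext
  · rw [mul00]
    change (g * h).1 0 0 = g.1 0 0 * h.1 0 0 + (-g.1 0 1) * (-h.1 1 0)
    rw [mul00]; ring
  · rw [mul01]
    change -(g * h).1 0 1 = g.1 0 0 * (-h.1 0 1) + (-g.1 0 1) * h.1 1 1
    rw [mul01]; ring
  · rw [mul10]
    change -(g * h).1 1 0 = (-g.1 1 0) * h.1 0 0 + g.1 1 1 * (-h.1 1 0)
    rw [mul10]; ring
  · rw [mul11]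
    change (g * h).1 1 1 = (-g.1 1 0) * (-h.1 0 1) + g.1 1 1 * h.1 1 1
    rw [mul11]; ring

/-- `sg` as a homomorphism -/
def sgh : SL2 k →* SL2 k := MonoidHom.mk' sg sg_mul

theorem sg_sg (g : SL2 k) : sg (sg g) = g := by
  apply sl_ext
  · rfl
  · exact neg_neg _
  · exact neg_neg _
  · rfl

theorem sg_inv (g : SL2 k) : sg g⁻¹ = (sg g)⁻¹ := map_inv (sgh (k := k)) g

theorem sg_pow (g : SL2 k) (n : ℕ) : sg (g ^ n) = (sg g) ^ n := map_pow (sgh (k := k)) g n

theorem up_mul (c d : k) : up c * up d = up (c + d) := by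
  apply sl_ext
  · rw [mul00]
    change 1 * 1 + c * 0 = (1 : k)
    ring
  · rw [mul01]
    change 1 * d + c * 1 = c + d
    ring
  · rw [mul10]
    change 0 * 1 + 1 * 0 = (0 : k)
    ring
  · rw [mul11]
    change 0 * d + 1 * 1 = (1 : k)
    ring

theorem up_zero : up (0 : k) = 1 := by
  apply sl_ext
  · rfl
  · rfl
  · rfl
  · rfl

theorem up_inv (c : k) : (up c)⁻¹ = up (-c) := by
  rw [inv_eq_iff_mul_eq_one, up_mul, add_neg_cancel, up_zero]

theorem up_inj {c d : k} (h : up c = up d) : c = d := by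
  have h1 : (up c).1 0 1 = (up d).1 0 1 := by rw [h]
  exact h1

theorem up_pow (n : ℕ) : (up (1 : k)) ^ n = up (n : k) := by
  induction n with
  | zero => rw [pow_zero, Nat.cast_zero, up_zero]
  | succ n ih => rw [pow_succ, ih, up_mul, Nat.cast_succ]

/-- The product of an upper and a lower unipotent element gives a diagonal element. -/
theorem slf_key {H : Subgroup (SL2 k)} (h2 : ∀ c : k, c + c = 0 → c = 0)
    (hodd : ∀ h ∈ H, ∃ n : ℕ, h ^ (2 * n + 1) = 1)
    (hsg : ∀ h ∈ H, sg h ∈ H) {c t : k} (hc : up c ∈ H) (ht : lo t ∈ H) :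
    ∃ (u v : k) (e : u * v = 1), 1 + c * t = u * u ∧
      mk4 u 0 0 v (by rw [zero_mul, sub_zero]; exact e) ∈ H := by
  set h : SL2 k := up c * lo t with hh
  have hH : h ∈ H := H.mul_mem hc ht
  set j : SL2 k := (sg h)⁻¹ * h with hj
  have hjH : j ∈ H := H.mul_mem (H.inv_mem (hsg _ hH)) hH
  obtain ⟨m, hm⟩ := hodd j hjH
  set i : SL2 k := j ^ (m + 1) with hi
  have hiH : i ∈ H := H.pow_mem hjH _
  have hii : i * i = j := by
    rw [hi, ← pow_add]
    have e : m + 1 + (m + 1) = (2 * m + 1) + 1 := by ring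
    rw [e, pow_succ, hm, one_mul]
  have hsj : sg j = j⁻¹ := by
    have e : sg j = (sg (sg h))⁻¹ * sg h := by rw [hj, sg_mul, sg_inv]
    rw [e, sg_sg, hj, mul_inv_rev (sg h)⁻¹ h, inv_inv]
  have hsi : sg i = i⁻¹ := by
    rw [hi, sg_pow, hsj, inv_pow]
  set d : SL2 k := h * i⁻¹ with hd
  have hdH : d ∈ H := H.mul_mem hH (H.inv_mem hiH)
  have hsd : sg d = d := by
    have e1 : h = sg h * (i * i) := by rw [hii, hj, mul_inv_cancel_left]
    have e2 : sg d = sg h * i := by rw [hd, sg_mul, sg_inv, hsi, inv_inv]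
    rw [e2, hd]
    have e3 : h * i⁻¹ = sg h * (i * i) * i⁻¹ := by rw [← e1]
    rw [e3]
    group
  have hd01 : d.1 0 1 = 0 := by
    have e : (sg d).1 0 1 = d.1 0 1 := by rw [hsd]
    have e' : -(d.1 0 1) = d.1 0 1 := e
    apply h2
    linear_combination -e'
  have hd10 : d.1 1 0 = 0 := by
    have e : (sg d).1 1 0 = d.1 1 0 := by rw [hsd]
    have e' : -(d.1 1 0) = d.1 1 0 := e
    apply h2
    linear_combination -e'
  have hia : i.1 0 0 = i.1 1 1 := by
    have e : i * sg i = 1 := by rw [hsi, mul_inv_cancel]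
    have e00 : (i * sg i).1 0 0 = 1 := by rw [e]; rfl
    rw [mul00] at e00
    have e0 : i.1 0 0 * i.1 0 0 + i.1 0 1 * (-i.1 1 0) = 1 := e00
    have e11 : (i * sg i).1 0 1 = 0 := by rw [e]; rfl
    rw [mul01] at e11
    have e1 : i.1 0 0 * (-i.1 0 1) + i.1 0 1 * i.1 1 1 = 0 := e11
    have e10 : (i * sg i).1 1 0 = 0 := by rw [e]; rfl
    rw [mul10] at e10
    have e2 : i.1 1 0 * i.1 0 0 + i.1 1 1 * (-i.1 1 0) = 0 := e10
    have e3 : (i * sg i).1 1 1 = 1 := by rw [e]; rfl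
    rw [mul11] at e3
    have e4 : i.1 1 0 * (-i.1 0 1) + i.1 1 1 * i.1 1 1 = 1 := e3
    have hdt := sl_det i
    -- `a (a - d) = 0`, `b (a - d) = 0`, so `(a d - b c)(a - d) = 0`
    have h1 : i.1 0 0 * (i.1 0 0 - i.1 1 1) = 0 := by linear_combination e0 - hdt
    have h3 : i.1 0 1 * (i.1 0 0 - i.1 1 1) = 0 := by linear_combination -e1
    have h4 : (i.1 0 0 * i.1 1 1 - i.1 0 1 * i.1 1 0) * (i.1 0 0 - i.1 1 1) = 0 := by
      linear_combination i.1 1 1 * h1 - i.1 1 0 * h3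
    rw [hdt, one_mul] at h4
    exact sub_eq_zero.1 h4
  have huv : d.1 0 0 * d.1 1 1 = 1 := by
    have := sl_det d
    rw [hd01, zero_mul, sub_zero] at this
    exact this
  have hdi : d * i = h := by rw [hd]; group
  have h00 : 1 + c * t = d.1 0 0 * i.1 0 0 := by
    have e : (d * i).1 0 0 = (up c * lo t).1 0 0 := by rw [hdi]
    rw [mul00 d i, hd01, zero_mul, add_zero, mul00 (up c) (lo t)] at e
    have e' : d.1 0 0 * i.1 0 0 = 1 * 1 + c * t := e
    rw [e']; ring
  have h11 : 1 = d.1 1 1 * i.1 1 1 := by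
    have e : (d * i).1 1 1 = (up c * lo t).1 1 1 := by rw [hdi]
    rw [mul11 d i, hd10, zero_mul, zero_add, mul11 (up c) (lo t)] at e
    have e' : d.1 1 1 * i.1 1 1 = 0 * 0 + 1 * 1 := e
    rw [e']; ring
  refine ⟨d.1 0 0, d.1 1 1, huv, ?_, ?_⟩
  · have e : d.1 0 0 = i.1 0 0 := by
      rw [hia]
      linear_combination d.1 0 0 * h11 + i.1 1 1 * huv
    rw [h00, ← e]
  · have e : mk4 (d.1 0 0) 0 0 (d.1 1 1) (by rw [zero_mul, sub_zero]; exact huv) = d :=
      sl_ext rfl hd01.symm hd10.symm rfl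
    rw [e]
    exact hdH

theorem slf [Nontrivial k] {t : k} (ht : ∀ c, c * t = 0 → c = 0) (H : Subgroup (SL2 k))
    (hfin : Finite H) (hodd : ∀ h ∈ H, ∃ n : ℕ, h ^ (2 * n + 1) = 1)
    (hsg : ∀ h ∈ H, sg h ∈ H) (hx : up 1 ∈ H) (hy : lo t ∈ H) : False := by
  -- `2` is invertible
  have h2 : ∀ c : k, c + c = 0 → c = 0 := by
    obtain ⟨n, hn⟩ := hodd _ hx
    rw [up_pow, ← up_zero] at hn
    have h1 := up_inj hn
    push_cast at h1
    intro c hc
    have e : c = (2 * (n : k) + 1) * c - n * (c + c) := by ring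
    rw [e, h1, hc]; ring
  have hSadd : ∀ c d, up c ∈ H → up d ∈ H → up (c + d) ∈ H := fun c d hc hd => by
    rw [← up_mul]; exact H.mul_mem hc hd
  have hSneg : ∀ c, up c ∈ H → up (-c) ∈ H := fun c hc => by
    rw [← up_inv]; exact H.inv_mem hc
  have hSmul : ∀ c : k, up c ∈ H → up (c * t) ∈ H := by
    intro c hc
    obtain ⟨u, v, e, h1, h3⟩ := slf_key h2 hodd hsg hx hy
    have h4 : up (c * (1 + 1 * t)) ∈ H := by
      have h5 := H.mul_mem (H.mul_mem h3 hc) (H.inv_mem h3)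
      refine (?_ : up (c * (1 + 1 * t)) = _) ▸ h5
      rw [eq_mul_inv_iff_mul_eq]
      apply sl_ext
      · rw [mul00, mul00]
        change 1 * u + c * (1 + 1 * t) * 0 = u * 1 + 0 * 0
        ring
      · rw [mul01, mul01]
        change 1 * 0 + c * (1 + 1 * t) * v = u * c + 0 * 1
        rw [h1]
        linear_combination u * c * e
      · rw [mul10, mul10]
        change 0 * u + 1 * 0 = 0 * 1 + v * 0
        ring
      · rw [mul11, mul11]
        change 0 * 0 + 1 * v = 0 * c + v * 1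
        ring
    have h6 := hSadd _ _ h4 (hSneg _ hc)
    have e6 : c * (1 + 1 * t) + -c = c * t := by ring
    rwa [e6] at h6
  let S : Type u := {c : k // up c ∈ H}
  have hS : Finite S := by
    have : Function.Injective (fun s : S => (⟨up s.1, s.2⟩ : H)) := by
      intro s s' e
      exact Subtype.ext (up_inj (congrArg Subtype.val e))
    exact Finite.of_injective _ this
  let f : S → S := fun s => ⟨s.1 * t, hSmul s.1 s.2⟩
  have hf : Function.Injective f := by
    intro s s' e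
    have e1 : s.1 * t = s'.1 * t := congrArg Subtype.val e
    have e2 : (s.1 - s'.1) * t = 0 := by rw [sub_mul, e1, sub_self]
    exact Subtype.ext (sub_eq_zero.1 (ht _ e2))
  obtain ⟨s, hs⟩ := (Finite.injective_iff_surjective.1 hf) ⟨-1, hSneg _ hx⟩
  have hs' : s.1 * t = -1 := congrArg Subtype.val hs
  obtain ⟨u, v, e, h1, -⟩ := slf_key h2 hodd hsg s.2 hy
  rw [hs', add_neg_cancel] at h1
  have h3 : (1 : k) = 0 := by
    calc (1 : k) = (u * v) * (u * v) := by rw [e, one_mul]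
      _ = (u * u) * (v * v) := by ring
      _ = 0 := by rw [← h1, zero_mul]
  exact one_ne_zero h3

end Pool.Agent.FourGp.FF.Qt
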